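import Pool.Agent.H494_SCM.LP

/-! Small computability tools. -/

namespace Pool.Agent.H494_SCM

variable {α σ : Type} [Primcodable α] [Primcodable σ]

theorem c_add {f g : α → ℕ} (hf : Computable f) (hg : Computable g) :
    Computable (fun a => f a + g a) := Primrec.nat_add.to_comp.comp hf hg

theorem c_sub {f g : α → ℕ} (hf : Computable f) (hg : Computable g) :
    Computable (fun a => f a - g a) := Primrec.nat_sub.to_comp.comp hf hg

theorem c_mul {f g : α → ℕ} (hf : Computable f) (hg : Computable g) :
    Computable (fun a => f a * g a) := Primrec.nat_mul.to_comp.comp hf hg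

theorem c_div {f g : α → ℕ} (hf : Computable f) (hg : Computable g) :
    Computable (fun a => f a / g a) := Primrec.nat_div.to_comp.comp hf hg

theorem c_mod {f g : α → ℕ} (hf : Computable f) (hg : Computable g) :
    Computable (fun a => f a % g a) := Primrec.nat_mod.to_comp.comp hf hg

theorem c_pair {f g : α → ℕ} (hf : Computable f) (hg : Computable g) :
    Computable (fun a => Nat.pair (f a) (g a)) := Primrec₂.natPair.to_comp.comp hf hg

theorem c_up1 {f : α → ℕ} (hf : Computable f) : Computable (fun a => (Nat.unpair (f a)).1) :=
  Computable.fst.comp (Computable.unpair.comp hf)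

theorem c_up2 {f : α → ℕ} (hf : Computable f) : Computable (fun a => (Nat.unpair (f a)).2) :=
  Computable.snd.comp (Computable.unpair.comp hf)

theorem c_ite {p : α → Prop} [DecidablePred p] (hp : ComputablePred p) {f g : α → σ}
    (hf : Computable f) (hg : Computable g) : Computable (fun a => if p a then f a else g a) := by
  refine (Computable.cond hp.decide hf hg).of_eq ?_
  intro a
  by_cases h : p a <;> simp [h]

end Pool.Agent.H494_SCM
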