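import Pool.Agent.H494_SCM.Defs

/-! Structures given by list relations, and uniformly definable predicates. -/

open FirstOrder Cardinal FirstOrder.Language

namespace Pool.Agent.H494_SCM

variable {ar : ℕ → ℕ}

/-- a type carrying the structure given by a family of list predicates -/
def Mk (_ar : ℕ → ℕ) {B : Type} (_s : ℕ → List B → Prop) : Type := B

instance instMk (ar : ℕ → ℕ) {B : Type} (s : ℕ → List B → Prop) :
    (RL ar).Structure (Mk ar s) where
  funMap := fun e => e.elim
  RelMap := fun r x => s r.1 (List.ofFn x)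

/-- relations of an arbitrary structure, as list predicates -/
def rel (ar : ℕ → ℕ) (M : Type) [(RL ar).Structure M] (i : ℕ) (L : List M) : Prop :=
  ∃ x : Fin (ar i) → M, L = List.ofFn x ∧
    FirstOrder.Language.Structure.RelMap (L := RL ar) (⟨i, rfl⟩ : (RL ar).Relations (ar i)) x

theorem rel_ofFn {M : Type} [(RL ar).Structure M] {i n : ℕ} (h : ar i = n) (x : Fin n → M) :
    rel ar M i (List.ofFn x) ↔
      FirstOrder.Language.Structure.RelMap (L := RL ar) (⟨i, h⟩ : (RL ar).Relations n) x := by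
  subst h
  constructor
  · rintro ⟨y, hy, h⟩
    have := List.ofFn_injective hy
    rw [this]; exact h
  · intro h
    exact ⟨x, rfl, h⟩

theorem rel_length {M : Type} [(RL ar).Structure M] {i : ℕ} {L : List M}
    (h : rel ar M i L) : L.length = ar i := by
  obtain ⟨x, rfl, _⟩ := h
  simp

theorem exists_ofFn {B : Type*} (L : List B) {n : ℕ} (h : L.length = n) :
    ∃ x : Fin n → B, L = List.ofFn x := by
  subst h
  exact ⟨L.get, (List.ofFn_get L).symm⟩

theorem rel_Mk {B : Type} (s : ℕ → List B → Prop) (i : ℕ) (L : List (Mk ar s)) :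
    rel ar (Mk ar s) i L ↔ L.length = ar i ∧ s i L := by
  constructor
  · rintro ⟨x, hx, h⟩
    refine ⟨by rw [hx]; exact List.length_ofFn, ?_⟩
    rw [hx]; exact h
  · rintro ⟨h, h'⟩
    obtain ⟨x, rfl⟩ := exists_ofFn L h
    exact ⟨x, rfl, h'⟩

/-- embeddings from list data -/
def mkEmb {M N : Type} [(RL ar).Structure M] [(RL ar).Structure N] (f : M → N)
    (hf : Function.Injective f)
    (h : ∀ i L, List.length L = ar i → (rel ar N i (L.map f) ↔ rel ar M i L)) : M ↪[RL ar] N where
  toFun := f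
  inj' := hf
  map_fun' := fun e => e.elim
  map_rel' := by
    rintro n ⟨i, hi⟩ x
    have := h i (List.ofFn x) (by simp [hi])
    rw [List.map_ofFn, rel_ofFn hi, rel_ofFn hi] at this
    exact this

/-- isomorphisms from list data -/
def mkEquiv {M N : Type} [(RL ar).Structure M] [(RL ar).Structure N] (f : M ≃ N)
    (h : ∀ i L, List.length L = ar i → (rel ar N i (L.map f) ↔ rel ar M i L)) : M ≃[RL ar] N where
  toEquiv := f
  map_fun' := fun e => e.elim
  map_rel' := by
    rintro n ⟨i, hi⟩ x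
    have := h i (List.ofFn x) (by simp [hi])
    rw [List.map_ofFn, rel_ofFn hi, rel_ofFn hi] at this
    exact this

@[simp] theorem mkEmb_apply {M N : Type} [(RL ar).Structure M] [(RL ar).Structure N] (f : M → N)
    (hf : Function.Injective f) (h) (x : M) : mkEmb (ar := ar) f hf h x = f x := rfl

@[simp] theorem mkEquiv_apply {M N : Type} [(RL ar).Structure M] [(RL ar).Structure N]
    (f : M ≃ N) (h) (x : M) : mkEquiv (ar := ar) f h x = f x := rfl

theorem rel_equiv {M N : Type} [(RL ar).Structure M] [(RL ar).Structure N] (f : M ≃[RL ar] N)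
    (i : ℕ) (L : List M) : rel ar N i (L.map f) ↔ rel ar M i L := by
  constructor
  · rintro ⟨x, hx, h⟩
    refine ⟨fun k => f.symm (x k), ?_, ?_⟩
    · have := congrArg (List.map f.symm) hx
      rw [List.map_map, List.map_ofFn] at this
      have h2 : (f.symm ∘ f : M → M) = id := by
        funext y; simp
      rw [h2, List.map_id] at this
      exact this
    · rw [← f.map_rel]
      convert h using 1
      funext k
      simp
  · rintro ⟨x, rfl, h⟩
    refine ⟨fun k => f (x k), by rw [List.map_ofFn]; rfl, ?_⟩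
    rw [← f.map_rel] at h
    exact h

/-- a uniformly definable predicate -/
def UDef (ar : ℕ → ℕ) (α : Type)
    (P : ∀ (M : Type) [(RL ar).Structure M], (α → M) → Prop) : Prop :=
  ∃ φ : (RL ar).Formula α, ∀ (M : Type) [(RL ar).Structure M] (v : α → M), φ.Realize v ↔ P M v

namespace UDef

variable {α β : Type} {P Q : ∀ (M : Type) [(RL ar).Structure M], (α → M) → Prop}

theorem of_iff (hP : UDef ar α P)
    (h : ∀ (M : Type) [(RL ar).Structure M] (v : α → M), P M v ↔ Q M v) : UDef ar α Q := by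
  obtain ⟨φ, hφ⟩ := hP
  exact ⟨φ, fun M _ v => (hφ M v).trans (h M v)⟩

theorem of_formula (φ : (RL ar).Formula α) : UDef ar α (fun _ _ v => φ.Realize v) :=
  ⟨φ, fun _ _ _ => Iff.rfl⟩

theorem tru : UDef ar α (fun _ _ _ => True) := ⟨⊤, fun M _ v => by simp⟩

theorem fls : UDef ar α (fun _ _ _ => False) := ⟨⊥, fun M _ v => by simp⟩

theorem const (p : Prop) : UDef ar α (fun _ _ _ => p) := by
  by_cases hp : p
  · exact tru.of_iff (by intros; simp [hp])
  · exact fls.of_iff (by intros; simp [hp])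

theorem not (hP : UDef ar α P) : UDef ar α (fun M _ v => ¬ P M v) := by
  obtain ⟨φ, hφ⟩ := hP
  exact ⟨φ.not, fun M _ v => by rw [Formula.realize_not, hφ]⟩

theorem and (hP : UDef ar α P) (hQ : UDef ar α Q) : UDef ar α (fun M _ v => P M v ∧ Q M v) := by
  obtain ⟨φ, hφ⟩ := hP
  obtain ⟨ψ, hψ⟩ := hQ
  exact ⟨φ ⊓ ψ, fun M _ v => by rw [Formula.realize_inf, hφ, hψ]⟩

theorem or (hP : UDef ar α P) (hQ : UDef ar α Q) : UDef ar α (fun M _ v => P M v ∨ Q M v) := by
  obtain ⟨φ, hφ⟩ := hP
  obtain ⟨ψ, hψ⟩ := hQ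
  exact ⟨φ ⊔ ψ, fun M _ v => by rw [Formula.realize_sup, hφ, hψ]⟩

theorem imp (hP : UDef ar α P) (hQ : UDef ar α Q) : UDef ar α (fun M _ v => P M v → Q M v) := by
  obtain ⟨φ, hφ⟩ := hP
  obtain ⟨ψ, hψ⟩ := hQ
  exact ⟨φ.imp ψ, fun M _ v => by rw [Formula.realize_imp, hφ, hψ]⟩

theorem iff (hP : UDef ar α P) (hQ : UDef ar α Q) :
    UDef ar α (fun M _ v => (P M v ↔ Q M v)) := by
  obtain ⟨φ, hφ⟩ := hP
  obtain ⟨ψ, hψ⟩ := hQ
  exact ⟨φ.iff ψ, fun M _ v => by rw [Formula.realize_iff, hφ, hψ]⟩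

theorem relabel (hP : UDef ar α P) (g : α → β) : UDef ar β (fun M _ v => P M (v ∘ g)) := by
  obtain ⟨φ, hφ⟩ := hP
  exact ⟨φ.relabel g, fun M _ v => by rw [Formula.realize_relabel, hφ]⟩

theorem all [Finite β] {P : ∀ (M : Type) [(RL ar).Structure M], (α ⊕ β → M) → Prop}
    (hP : UDef ar (α ⊕ β) P) : UDef ar α (fun M _ v => ∀ w : β → M, P M (Sum.elim v w)) := by
  obtain ⟨φ, hφ⟩ := hP
  exact ⟨φ.iAlls β, fun M _ v => by
    rw [Formula.realize_iAlls]
    exact forall_congr' fun w => hφ M _⟩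

theorem ex [Finite β] {P : ∀ (M : Type) [(RL ar).Structure M], (α ⊕ β → M) → Prop}
    (hP : UDef ar (α ⊕ β) P) : UDef ar α (fun M _ v => ∃ w : β → M, P M (Sum.elim v w)) := by
  obtain ⟨φ, hφ⟩ := hP
  exact ⟨φ.iExs β, fun M _ v => by
    rw [Formula.realize_iExs]
    exact exists_congr fun w => hφ M _⟩

theorem eq (a b : α) : UDef ar α (fun _ _ v => v a = v b) :=
  ⟨Term.equal (Term.var a) (Term.var b), fun M _ v => by
    rw [Formula.realize_equal]; rfl⟩

theorem rel (i : ℕ) (l : List α) : UDef ar α (fun M _ v => rel ar M i (l.map v)) := by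
  by_cases h : l.length = ar i
  · refine ⟨Relations.formula (L := RL ar) (⟨i, h.symm⟩ : (RL ar).Relations l.length)
      (fun k => Term.var (l.get k)), fun M _ v => ?_⟩
    rw [Formula.realize_rel]
    rw [← rel_ofFn h.symm]
    apply Iff.of_eq
    congr 1
    apply List.ext_get
    · simp
    · intro n h1 h2
      simp
  · exact fls.of_iff (by
      intro M _ v
      simp only [false_iff]
      intro h'
      exact h (by simpa using rel_length h'))

theorem forall_fin {ι : Type} [Finite ι]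
    {P : ι → ∀ (M : Type) [(RL ar).Structure M], (α → M) → Prop}
    (h : ∀ k, UDef ar α (P k)) : UDef ar α (fun M _ v => ∀ k, P k M v) := by
  choose φ hφ using h
  exact ⟨Formula.iInf φ, fun M _ v => by
    rw [Formula.realize_iInf]
    exact forall_congr' fun k => hφ k M v⟩

end UDef

theorem UDef.transfer {P : ∀ (M : Type) [(RL ar).Structure M], (Empty → M) → Prop}
    (hP : UDef ar Empty P) {M N : Type} [(RL ar).Structure M] [(RL ar).Structure N]
    (h : M ≅[RL ar] N) (v : Empty → M) (w : Empty → N) : P M v ↔ P N w := by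
  obtain ⟨φ, hφ⟩ := hP
  rw [← hφ, ← hφ]
  have := (elementarilyEquivalent_iff.1 h) φ
  rw [Subsingleton.elim v default, Subsingleton.elim w default]
  exact this

theorem UDef.emb {α : Type} {P : ∀ (M : Type) [(RL ar).Structure M], (α → M) → Prop}
    (hP : UDef ar α P) {M N : Type} [(RL ar).Structure M] [(RL ar).Structure N]
    (f : M ↪ₑ[RL ar] N) (v : α → M) : P N (f ∘ v) ↔ P M v := by
  obtain ⟨φ, hφ⟩ := hP
  rw [← hφ, ← hφ]
  exact f.map_formula φ v

end Pool.Agent.H494_SCM
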