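import Pool.Agent.H494_SCM.Fam

/-! The chain of countable models of a good family. -/

open FirstOrder Cardinal FirstOrder.Language

namespace Pool.Agent.H494_SCM

/-- a family for which the model theory works -/
structure Good (ar : ℕ → ℕ) (G : Fam) : Prop where
  rigid : ∀ {U U' : Type} (u : ℕ ↪ U) (u' : ℕ ↪ U') (h : G.Car ar u ↪ₑ[RL ar] G.Car ar u'),
    ∃ g : U ↪ U', (∀ t, g (u t) = u' t) ∧ ∀ x, h x = G.mp ar u u' g x
  classif : ∀ (N : Type) [(RL ar).Structure N],
    ((G.Car ar (Function.Embedding.refl ℕ)) ≅[RL ar] N) →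
      ∃ (U : Type) (u : ℕ ↪ U), Nonempty (N ≃[RL ar] G.Car ar u)
  card : ∀ (U : Type) [Infinite U], #(G.F U) = #U

/-- the marks of the `i`-th concrete model -/
noncomputable def mark (i : ℕ∞) : ℕ ↪ ℕ :=
  if i = ⊤ then ⟨fun t => 2 * t, fun a b h => by simpa using h⟩
  else ⟨fun t => t + i.toNat, fun a b h => by simpa using h⟩

theorem mark_top (t : ℕ) : mark ⊤ t = 2 * t := by
  simp [mark]

theorem mark_coe (j t : ℕ) : mark (j : ℕ∞) t = t + j := by
  simp [mark]

theorem encard_mark (i : ℕ∞) : (Set.range (mark i))ᶜ.encard = i := by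
  induction i using ENat.recTopCoe with
  | top =>
    rw [Set.encard_eq_top_iff]
    have h : Set.range (fun t : ℕ => 2 * t + 1) ⊆ (Set.range (mark ⊤))ᶜ := by
      rintro _ ⟨t, rfl⟩ ⟨s, hs⟩
      rw [mark_top] at hs
      simp only at hs
      omega
    refine Set.Infinite.mono h (Set.infinite_range_of_injective ?_)
    intro a b h
    simpa using h
  | coe j =>
    have h : (Set.range (mark (j : ℕ∞)))ᶜ = (Finset.range j : Set ℕ) := by
      ext x
      simp only [Set.mem_compl_iff, Set.mem_range, not_exists, Finset.coe_range, Set.mem_Iio]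
      constructor
      · intro h
        by_contra hx
        apply h (x - j)
        rw [mark_coe]; omega
      · intro h t ht
        rw [mark_coe] at ht; omega
    rw [h, Set.encard_coe_eq_coe_finsetCard, Finset.card_range]

namespace Fam

variable (G : Fam) (ar : ℕ → ℕ)

theorem surj {U U' : Type} (f : U ↪ U') (hf : Function.Surjective f) :
    Function.Surjective (G.map f) := by
  intro y
  exact G.exists_map f y (fun a _ => hf a)

theorem exists_iso {U U' : Type} (u : ℕ ↪ U) (u' : ℕ ↪ U') (g : U ≃ U')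
    (h : ∀ t, g (u t) = u' t) :
    ∃ e : G.Car ar u ≃[RL ar] G.Car ar u', ∀ x, e x = G.mp ar u u' g.toEmbedding x := by
  refine ⟨mkEquiv (Equiv.ofBijective (G.mp ar u u' g.toEmbedding)
    ⟨G.mp_inj ar u u' _, G.surj _ g.surjective⟩) ?_, fun x => rfl⟩
  intro i L _
  exact G.rel_mp ar u u' g.toEmbedding i L (fun t _ => h t)

variable {G ar}

theorem iso_iff (hG : Good ar G) {U U' : Type} (u : ℕ ↪ U) (u' : ℕ ↪ U') :
    Nonempty (G.Car ar u ≃[RL ar] G.Car ar u') ↔ ∃ g : U ≃ U', ∀ t, g (u t) = u' t := by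
  constructor
  · rintro ⟨e⟩
    obtain ⟨g, hg1, hg2⟩ := hG.rigid u u' e.toElementaryEmbedding
    obtain ⟨g', hg1', hg2'⟩ := hG.rigid u' u e.symm.toElementaryEmbedding
    have e1 : g.trans g' = Function.Embedding.refl U := by
      apply G.faithful
      intro x
      rw [G.map_id, ← G.map_comp]
      have h1 := hg2 x
      have h2 := hg2' (e x)
      have h3 : e.symm.toElementaryEmbedding (e x) = x := e.symm_apply_apply x
      rw [h3] at h2
      have h4 : (e x : G.F U') = G.map g x := h1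
      rw [← h4]
      exact h2.symm
    have e2 : g'.trans g = Function.Embedding.refl U' := by
      apply G.faithful
      intro x
      rw [G.map_id, ← G.map_comp]
      have h1 := hg2' x
      have h2 := hg2 (e.symm x)
      have h3 : e.toElementaryEmbedding (e.symm x) = x := e.apply_symm_apply x
      rw [h3] at h2
      have h4 : (e.symm x : G.F U) = G.map g' x := h1
      rw [← h4]
      exact h2.symm
    refine ⟨⟨g, g', fun x => ?_, fun x => ?_⟩, hg1⟩
    · exact DFunLike.congr_fun e1 x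
    · exact DFunLike.congr_fun e2 x
  · rintro ⟨g, hg⟩
    obtain ⟨e, _⟩ := G.exists_iso ar u u' g hg
    exact ⟨e⟩

end Fam

theorem exists_marks_equiv {U U' : Type} (u : ℕ ↪ U) (u' : ℕ ↪ U')
    (h : #((Set.range u)ᶜ : Set U) = #((Set.range u')ᶜ : Set U')) :
    ∃ g : U ≃ U', ∀ t, g (u t) = u' t := by
  classical
  obtain ⟨e⟩ := Cardinal.eq.1 h
  let f : (Set.range u) ≃ (Set.range u') :=
    (Equiv.ofInjective u u.injective).symm.trans (Equiv.ofInjective u' u'.injective)
  refine ⟨(Equiv.Set.sumCompl (Set.range u)).symm.trans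
    ((Equiv.sumCongr f e).trans (Equiv.Set.sumCompl (Set.range u'))), fun t => ?_⟩
  have h1 : (Equiv.Set.sumCompl (Set.range u)).symm (u t) =
      Sum.inl (⟨u t, ⟨t, rfl⟩⟩ : Set.range u) :=
    Equiv.Set.sumCompl_symm_apply_of_mem (s := Set.range u) (x := u t) ⟨t, rfl⟩
  simp only [Equiv.trans_apply, h1, Equiv.sumCongr_apply, Sum.map_inl]
  have h2 : (Equiv.ofInjective u u.injective).symm (⟨u t, ⟨t, rfl⟩⟩ : Set.range u) = t := by
    rw [Equiv.symm_apply_eq]; rfl
  simp only [f, Equiv.trans_apply, h2]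
  rfl

theorem encard_of_equiv {U U' : Type} (u : ℕ ↪ U) (u' : ℕ ↪ U') (g : U ≃ U')
    (h : ∀ t, g (u t) = u' t) : (Set.range u)ᶜ.encard = (Set.range u')ᶜ.encard := by
  have : (Set.range u')ᶜ = g '' (Set.range u)ᶜ := by
    rw [Set.image_compl_eq g.bijective, ← Set.range_comp]
    congr 1
    ext x
    simp [h]
  rw [this, g.injective.encard_image]

theorem bij_iso {ar : ℕ → ℕ} {M N : Type} [(RL ar).Structure M] [(RL ar).Structure N]
    (f : M ↪ₑ[RL ar] N) (hf : Function.Surjective f) : Nonempty (M ≃[RL ar] N) := by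
  refine ⟨mkEquiv (Equiv.ofBijective f ⟨f.injective, hf⟩) ?_⟩
  intro i L hL
  obtain ⟨x, rfl⟩ := exists_ofFn L hL
  rw [List.map_ofFn, rel_ofFn rfl, rel_ofFn rfl]
  exact f.map_rel _ _

open Fam

theorem equiv_car {ar : ℕ → ℕ} (G : Fam) {U : Type} (u : ℕ ↪ U) :
    (G.Car ar (Function.Embedding.refl ℕ)) ≅[RL ar] G.Car ar u := by
  obtain ⟨g, _⟩ := G.tv ar (Function.Embedding.refl ℕ) u u (fun t => rfl)
  exact g.elementarilyEquivalent

theorem minimal_aux {ar : ℕ → ℕ} {G : Fam} (hG : Good ar G) (i : ℕ) :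
    ∃ f : G.Car ar (mark (i : ℕ∞)) ↪ₑ[RL ar] G.Car ar (mark ((i + 1 : ℕ) : ℕ∞)),
    Set.range f ≠ Set.univ ∧
    ∀ S : (RL ar).ElementarySubstructure (G.Car ar (mark ((i + 1 : ℕ) : ℕ∞))),
      Set.range f ⊆ (S : Set (G.Car ar (mark ((i + 1 : ℕ) : ℕ∞)))) →
        (S : Set (G.Car ar (mark ((i + 1 : ℕ) : ℕ∞)))) = Set.range f ∨
        (S : Set (G.Car ar (mark ((i + 1 : ℕ) : ℕ∞)))) = Set.univ := by
  let sc : ℕ ↪ ℕ := ⟨Nat.succ, Nat.succ_injective⟩
  have hsc : ∀ t, sc (mark (i : ℕ∞) t) = mark ((i + 1 : ℕ) : ℕ∞) t := by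
    intro t
    rw [mark_coe, mark_coe]
    show t + i + 1 = t + (i + 1)
    omega
  obtain ⟨f, hf⟩ := G.tv ar (mark (i : ℕ∞)) (mark ((i + 1 : ℕ) : ℕ∞)) sc hsc
  refine ⟨f, ?_, ?_⟩
  · intro hr
    obtain ⟨e⟩ := bij_iso f (Set.range_eq_univ.1 hr)
    obtain ⟨g, hg⟩ := (iso_iff hG (mark _) (mark _)).1 ⟨e⟩
    have := encard_of_equiv _ _ g hg
    rw [encard_mark, encard_mark] at this
    have h2 := ENat.natCast_inj.1 this
    omega
  · intro S hS
    have hSeq : (G.Car ar (Function.Embedding.refl ℕ)) ≅[RL ar] S :=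
      (equiv_car G (mark ((i + 1 : ℕ) : ℕ∞))).trans S.elementarilyEquivalent.symm
    obtain ⟨U, u, ⟨e⟩⟩ := hG.classif S hSeq
    obtain ⟨h, hh1, hh2⟩ := hG.rigid u (mark ((i + 1 : ℕ) : ℕ∞))
      (S.subtype.comp e.symm.toElementaryEmbedding)
    -- corestriction of f
    have hmem : ∀ x, f x ∈ S := fun x => hS ⟨x, rfl⟩
    let f' : G.Car ar (mark (i : ℕ∞)) ↪ₑ[RL ar] S := ⟨fun x => ⟨f x, hmem x⟩, by
      intro n φ v
      rw [← S.subtype.map_formula φ]
      exact f.map_formula φ v⟩
    obtain ⟨g', hg1', hg2'⟩ := hG.rigid (mark (i : ℕ∞)) u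
      (e.toElementaryEmbedding.comp f')
    have hcomp2 : g'.trans h = sc := by
      apply G.faithful
      intro x
      rw [← G.map_comp]
      have h1 := hg2' x
      have h2 := hh2 ((e.toElementaryEmbedding.comp f') x)
      have h3 : (S.subtype.comp e.symm.toElementaryEmbedding)
          ((e.toElementaryEmbedding.comp f') x) = f x := by
        show ((e.symm (e (f' x)) : S) : G.Car ar (mark ((i + 1 : ℕ) : ℕ∞))) = f x
        rw [e.symm_apply_apply]
        rfl
      rw [h3, hf, h1] at h2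
      exact h2.symm
    have hS2 : ∀ s : G.Car ar (mark ((i + 1 : ℕ) : ℕ∞)), s ∈ S ↔
        ∃ x : G.F U, G.map h x = s := by
      intro s
      constructor
      · intro hs
        refine ⟨e ⟨s, hs⟩, ?_⟩
        have := hh2 (e ⟨s, hs⟩)
        have h3 : (S.subtype.comp e.symm.toElementaryEmbedding) (e ⟨s, hs⟩) = s := by
          show ((e.symm (e ⟨s, hs⟩) : S) : G.Car ar (mark ((i + 1 : ℕ) : ℕ∞))) = s
          rw [e.symm_apply_apply]
        rw [h3] at this
        exact this.symm
      · rintro ⟨x, rfl⟩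
        have := hh2 x
        have h4 : G.map h x = (S.subtype.comp e.symm.toElementaryEmbedding) x := this.symm
        rw [h4]
        exact (e.symm x : S).2
    by_cases h0 : ∃ y, h y = 0
    · right
      have hsurj : Function.Surjective h := by
        intro x
        cases x with
        | zero => exact h0
        | succ x => exact ⟨g' x, DFunLike.congr_fun hcomp2 x⟩
      ext s
      simp only [Set.mem_univ, iff_true]
      exact (hS2 s).2 (G.surj h hsurj s)
    · left
      apply Set.Subset.antisymm _ hS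
      intro s hs
      obtain ⟨x, rfl⟩ := (hS2 s).1 hs
      have hsurj : Function.Surjective g' := by
        intro y
        have hy : h y ≠ 0 := fun hh => h0 ⟨y, hh⟩
        obtain ⟨z, hz⟩ := Nat.exists_eq_succ_of_ne_zero hy
        refine ⟨z, h.injective ?_⟩
        rw [hz]
        exact DFunLike.congr_fun hcomp2 z
      obtain ⟨x', rfl⟩ := G.surj g' hsurj x
      refine ⟨x', ?_⟩
      rw [hf]
      show G.map sc x' = _
      rw [← hcomp2, ← G.map_comp]

theorem saturated_aux {ar : ℕ → ℕ} {G : Fam} (hG : Good ar G) {U : Type} (u : ℕ ↪ U)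
    (f : G.Car ar (mark ⊤) ↪ₑ[RL ar] G.Car ar u) (n : ℕ) (a : Fin n → G.Car ar (mark ⊤))
    (b : G.Car ar u) :
    ∃ c : G.Car ar (mark ⊤), ∀ φ : (RL ar).Formula (Fin (n + 1)),
      φ.Realize (Fin.snoc (f ∘ a) b : Fin (n + 1) → G.Car ar u) ↔
        φ.Realize (Fin.snoc a c : Fin (n + 1) → G.Car ar (mark ⊤)) := by
  classical
  obtain ⟨g, hg1, hg2⟩ := hG.rigid (mark ⊤) u f
  let P : Finset U := Finset.univ.biUnion (fun i => G.supp (G.map g (a i)))
  have hPr : ∀ p ∈ P, p ∈ Set.range g := by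
    intro p hp
    simp only [P, Finset.mem_biUnion, Finset.mem_univ, true_and] at hp
    obtain ⟨i, hi⟩ := hp
    rw [G.supp_map] at hi
    obtain ⟨y, _, rfl⟩ := Finset.mem_map.1 hi
    exact ⟨y, rfl⟩
  let D : Finset U := (G.supp b).filter (fun s => s ∉ Set.range u ∧ s ∉ P)
  let I : Set U := (g '' (Set.range (mark ⊤))ᶜ) \ (P : Set U)
  have hI : I.Infinite := by
    apply Set.Infinite.sdiff
    · apply Set.Infinite.image g.injective.injOn
      rw [← Set.encard_eq_top_iff, encard_mark]
    · exact P.finite_toSet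
  obtain ⟨σ, h1, h2⟩ := exists_perm D I hI
  have hσu : ∀ t, σ (u t) = u t := by
    intro t
    apply h2
    · simp only [D, Finset.mem_filter, not_and]
      intro _ h; exact absurd ⟨t, rfl⟩ h
    · rintro ⟨⟨x, hx, hxe⟩, _⟩
      apply hx
      refine ⟨t, g.injective ?_⟩
      rw [hxe, hg1]
  have hσP : ∀ p ∈ P, σ p = p := by
    intro p hp
    apply h2
    · simp only [D, Finset.mem_filter, not_and, not_not]
      intro _ _; exact hp
    · rintro ⟨_, hh⟩; exact hh hp
  have hsupp : ∀ s ∈ G.supp (G.map σ.toEmbedding b), s ∈ Set.range g := by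
    intro s hs
    rw [G.supp_map] at hs
    obtain ⟨y, hy, rfl⟩ := Finset.mem_map.1 hs
    show σ y ∈ _
    by_cases hyD : y ∈ D
    · obtain ⟨⟨x, _, hx⟩, _⟩ := h1 y hyD
      exact ⟨x, hx⟩
    · by_cases hyu : y ∈ Set.range u
      · obtain ⟨t, rfl⟩ := hyu
        rw [hσu t, ← hg1]
        exact ⟨_, rfl⟩
      · have hyP : y ∈ P := by
          by_contra hh
          exact hyD (Finset.mem_filter.2 ⟨hy, hyu, hh⟩)
        rw [hσP y hyP]
        exact hPr y hyP
  obtain ⟨c, hc⟩ := G.exists_map g _ hsupp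
  refine ⟨c, fun φ => ?_⟩
  obtain ⟨k, hk⟩ := G.exists_iso ar u u σ hσu
  have s2 := k.toElementaryEmbedding.map_formula φ
    (Fin.snoc (f ∘ a) b : Fin (n + 1) → G.Car ar u)
  rw [← s2]
  have s3 := f.map_formula φ
    (Fin.snoc a c : Fin (n + 1) → G.Car ar (mark ⊤))
  rw [← s3]
  have s4 : (k.toElementaryEmbedding ∘ (Fin.snoc (f ∘ a) b : Fin (n + 1) → G.Car ar u)) =
      (f ∘ (Fin.snoc a c : Fin (n + 1) → G.Car ar (mark ⊤))) := by
    funext i
    refine Fin.lastCases ?_ (fun i => ?_) i
    · rw [Function.comp, Function.comp, Fin.snoc_last, Fin.snoc_last]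
      have t1 : k.toElementaryEmbedding b = G.mp ar u u σ.toEmbedding b := hk b
      have t2 := hg2 c
      rw [t1]
      have t3 : G.mp ar (mark ⊤) u g c = G.mp ar u u σ.toEmbedding b := hc
      rw [← t3]
      exact t2.symm
    · rw [Function.comp, Function.comp, Fin.snoc_castSucc, Fin.snoc_castSucc]
      have t1 : k.toElementaryEmbedding (f (a i)) = G.mp ar u u σ.toEmbedding (f (a i)) :=
        hk (f (a i))
      have t2 := hg2 (a i)
      show k.toElementaryEmbedding (f (a i)) = f (a i)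
      rw [t1, t2]
      show G.map σ.toEmbedding (G.map g (a i)) = G.map g (a i)
      rw [G.map_comp]
      apply G.map_congr
      intro z hz
      show σ (g z) = g z
      apply hσP
      simp only [P, Finset.mem_biUnion, Finset.mem_univ, true_and]
      refine ⟨i, ?_⟩
      rw [G.supp_map]
      exact Finset.mem_map.2 ⟨z, hz, rfl⟩
  rw [s4]

theorem chain_of_good {ar : ℕ → ℕ} {G : Fam} (hG : Good ar G) :
    ∃ T : (RL ar).Theory, T.IsComplete ∧ Cardinal.Categorical (ℵ₁ : Cardinal.{0}) T ∧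
      ¬ Cardinal.Categorical (ℵ₀ : Cardinal.{0}) T ∧
      ∃ A : ℕ∞ → FirstOrder.Language.Theory.ModelType.{0, 0, 0} T, IsChain T A ∧
        ∀ i, Nonempty ((A i) ≃[RL ar] G.Car ar (mark i)) := by
  classical
  let M0 := G.Car ar (Function.Embedding.refl ℕ)
  let T : (RL ar).Theory := (RL ar).completeTheory M0
  -- nonemptiness
  have hne : ∀ {U : Type} (u : ℕ ↪ U), Nonempty (G.Car ar u) := by
    intro U u
    have : Infinite U := Infinite.of_injective u u.injective
    have h1 := hG.card U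
    have : #(G.F U) ≠ 0 := by rw [h1]; exact Cardinal.mk_ne_zero U
    exact Cardinal.mk_ne_zero_iff.1 this
  have hequiv : ∀ {U : Type} (u : ℕ ↪ U), M0 ≅[RL ar] G.Car ar u := by
    intro U u
    obtain ⟨g, _⟩ := G.tv ar (Function.Embedding.refl ℕ) u u (fun t => rfl)
    exact g.elementarilyEquivalent
  have hmod : ∀ {U : Type} (u : ℕ ↪ U), (G.Car ar u) ⊨ T := by
    intro U u
    refine ⟨fun φ hφ => ?_⟩
    exact ((elementarilyEquivalent_iff.1 (hequiv u)) φ).1 hφ
  have hM0ne : Nonempty M0 := hne _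
  have hcomp : T.IsComplete := FirstOrder.Language.completeTheory.isComplete (RL ar) M0
  have hcl : ∀ N : FirstOrder.Language.Theory.ModelType.{0, 0, 0} T,
      ∃ (U : Type) (u : ℕ ↪ U), Nonempty (N ≃[RL ar] G.Car ar u) := by
    intro N
    apply hG.classif N
    rw [elementarilyEquivalent_iff]
    intro φ
    haveI := hmod (Function.Embedding.refl ℕ)
    rw [hcomp.realize_sentence_iff φ N]
    exact hcomp.realize_sentence_iff φ M0
  have hcard : ∀ {U : Type} (u : ℕ ↪ U), #(G.Car ar u) = #U := by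
    intro U u
    have : Infinite U := Infinite.of_injective u u.injective
    exact hG.card U
  let A : ℕ∞ → FirstOrder.Language.Theory.ModelType.{0, 0, 0} T := fun i =>
    haveI := hmod (mark i)
    haveI := hne (mark i)
    FirstOrder.Language.Theory.ModelType.of T (G.Car ar (mark i))
  have hAc : ∀ i, Countable (A i) := by
    intro i
    have : #(G.Car ar (mark i)) ≤ ℵ₀ := by
      rw [hcard (mark i)]; simp
    exact Cardinal.mk_le_aleph0_iff.1 this
  refine ⟨T, hcomp, ?_, ?_, A, ?_, fun i => ⟨FirstOrder.Language.Equiv.refl (RL ar) _⟩⟩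
  · -- categoricity in aleph one
    intro N N' hN hN'
    obtain ⟨U, u, ⟨e⟩⟩ := hcl N
    obtain ⟨U', u', ⟨e'⟩⟩ := hcl N'
    have hU : #U = ℵ₁ := by
      rw [← hcard u, ← hN]; exact (Cardinal.mk_congr e.toEquiv).symm
    have hU' : #U' = ℵ₁ := by
      rw [← hcard u', ← hN']; exact (Cardinal.mk_congr e'.toEquiv).symm
    have key : ∀ {W : Type} (w : ℕ ↪ W), #W = ℵ₁ → #((Set.range w)ᶜ : Set W) = ℵ₁ := by
      intro W w hW
      have : Infinite W := Infinite.of_injective w w.injective
      rw [Cardinal.mk_compl_of_infinite, hW]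
      rw [hW]
      refine lt_of_le_of_lt ?_ Cardinal.aleph0_lt_aleph_one
      rw [Cardinal.mk_le_aleph0_iff]
      exact (Set.countable_range w).to_subtype
    obtain ⟨g, hg⟩ := exists_marks_equiv u u' (by rw [key u hU, key u' hU'])
    obtain ⟨k, _⟩ := G.exists_iso ar u u' g hg
    exact ⟨(e'.symm.comp k).comp e⟩
  · -- not categorical in aleph zero
    intro hcat
    have h0 : #(A 0) = ℵ₀ := (hcard (mark 0)).trans Cardinal.mk_nat
    have h1 : #(A 1) = ℵ₀ := (hcard (mark 1)).trans Cardinal.mk_nat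
    obtain ⟨e⟩ := hcat (A 0) (A 1) h0 h1
    obtain ⟨g, hg⟩ := (iso_iff hG (mark 0) (mark 1)).1 ⟨e⟩
    have := encard_of_equiv _ _ g hg
    rw [encard_mark, encard_mark] at this
    exact absurd this (by simp)
  · refine ⟨hAc, ?_, ?_, ?_, ?_, ?_⟩
    · -- prime
      intro N
      obtain ⟨U, u, ⟨e⟩⟩ := hcl N
      obtain ⟨g, _⟩ := G.tv ar (mark 0) u u (fun t => by
        have := mark_coe 0 t
        simp only [Nat.cast_zero, add_zero] at this
        rw [this])
      exact ⟨e.symm.toElementaryEmbedding.comp g⟩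
    · -- embeds in the last one
      intro i
      induction i using ENat.recTopCoe with
      | top => exact ⟨ElementaryEmbedding.refl _ _⟩
      | coe j =>
        obtain ⟨g, _⟩ := G.tv ar (mark (j : ℕ∞)) (mark ⊤)
          ⟨fun x => if x < j then 2 * x + 1 else 2 * (x - j), by
            intro a b h
            simp only at h
            split_ifs at h <;> omega⟩ (fun t => by
            rw [mark_coe, mark_top]
            simp)
        exact ⟨g⟩
    · -- minimality
      exact fun i => minimal_aux hG i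
    · -- saturation
      intro N f n a b
      obtain ⟨U, u, ⟨e⟩⟩ := hcl N
      obtain ⟨c, hc⟩ := saturated_aux hG u (e.toElementaryEmbedding.comp f) n a (e b)
      refine ⟨c, fun φ => ?_⟩
      refine Iff.trans ?_ (hc φ)
      have s1 := e.toElementaryEmbedding.map_formula φ (Fin.snoc (f ∘ a) b : Fin (n + 1) → N)
      rw [← s1, Fin.comp_snoc]
      rfl
    · -- uniqueness
      intro N hN
      obtain ⟨U, u, ⟨e⟩⟩ := hcl N
      have hUc : Countable U := by
        have h1 : #U ≤ ℵ₀ := by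
          rw [← hcard u, ← Cardinal.mk_congr e.toEquiv]
          exact Cardinal.mk_le_aleph0_iff.2 hN
        exact Cardinal.mk_le_aleph0_iff.1 h1
      refine ⟨(Set.range u)ᶜ.encard, ?_, ?_⟩
      · have hc : #((Set.range u)ᶜ : Set U) =
            #((Set.range (mark (Set.range u)ᶜ.encard))ᶜ : Set ℕ) := by
          apply Cardinal.toENat_injOn
          · exact Cardinal.mk_le_aleph0_iff.2 inferInstance
          · exact Cardinal.mk_le_aleph0_iff.2 inferInstance
          · have := encard_mark (Set.range u)ᶜ.encard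
            rw [Set.encard, ENat.card, Set.encard, ENat.card] at this
            exact this.symm
        obtain ⟨g, hg⟩ := exists_marks_equiv u _ hc
        obtain ⟨k, _⟩ := G.exists_iso ar u _ g hg
        exact ⟨k.comp e⟩
      · rintro i ⟨k⟩
        obtain ⟨g, hg⟩ := (iso_iff hG u (mark i)).1 ⟨k.comp e.symm⟩
        have := encard_of_equiv _ _ g hg
        rw [encard_mark] at this
        exact this.symm

end Pool.Agent.H494_SCM
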