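import Pool.Agent.H494_SCM.CompTools

/-! Diagonalization against computable copies of the saturated model. -/

open Nat.Partrec (Code)

namespace Pool.Agent.H494_SCM

theorem cp_ball' {α : Type} [Primcodable α] {p : α → ℕ → Prop}
    (hp : ComputablePred (fun x : α × ℕ => p x.1 x.2)) {b : α → ℕ} (hb : Computable b) :
    ComputablePred (fun a => ∀ t < b a, p a t) :=
  cp_comp (cp_ball hp) (Computable.pair Computable.id hb)

theorem cp_bex' {α : Type} [Primcodable α] {p : α → ℕ → Prop}
    (hp : ComputablePred (fun x : α × ℕ => p x.1 x.2)) {b : α → ℕ} (hb : Computable b) :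
    ComputablePred (fun a => ∃ t < b a, p a t) :=
  cp_comp (cp_bex hp) (Computable.pair Computable.id hb)

/-- effectivity conditions on the thresholds -/
structure StOK (st : ℕ → ℕ → Option ℕ) : Prop where
  st1 : ComputablePred (fun x : (ℕ × ℕ) × ℕ => st x.1.1 x.1.2 = some x.2)
  st2 : ∀ e, ComputablePred (fun τ => st e τ ≠ none)

theorem stOK_none : StOK (fun _ _ => none) where
  st1 := (cp_const False).of_eq (fun x => by simp)
  st2 := fun e => (cp_const False).of_eq (fun x => by simp)

theorem cp_getD {α : Type} [Primcodable α] {f : α → List ℕ} {g : α → ℕ} (hf : Computable f)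
    (hg : Computable g) : Computable (fun a => (f a).getD (g a) 0) :=
  (Primrec.list_getD (α := ℕ) 0).to_comp.comp hf hg

theorem cp_nodup : ComputablePred (fun l : List ℕ => l.Nodup) := by
  have h1 : ComputablePred (fun l : List ℕ => ∀ a < l.length, ∀ b < a,
      l.getD b 0 ≠ l.getD a 0) := by
    refine cp_ball' (p := fun (l : List ℕ) a => ∀ b < a, l.getD b 0 ≠ l.getD a 0) ?_
      Computable.list_length
    refine cp_ball' (p := fun (x : List ℕ × ℕ) b => x.1.getD b 0 ≠ x.1.getD x.2 0) ?_
      Computable.snd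
    exact cp_not (cp_eq (cp_getD (Computable.fst.comp Computable.fst) Computable.snd)
      (cp_getD (Computable.fst.comp Computable.fst) (Computable.snd.comp Computable.fst)))
  refine cp_of_iff h1 ?_
  intro l
  rw [List.nodup_iff_getElem?_ne_getElem?]
  constructor
  · intro h a ha b hb hab
    apply h b a hb ha
    rw [List.getD_eq_getElem _ _ ha, List.getD_eq_getElem _ _ (hb.trans ha)] at hab
    rw [List.getElem?_eq_getElem ha, List.getElem?_eq_getElem (hb.trans ha), hab]
  · intro h i j hij hj hh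
    apply h j hj i hij
    rw [List.getD_eq_getElem _ _ hj, List.getD_eq_getElem _ _ (hij.trans hj)]
    rw [List.getElem?_eq_getElem hj, List.getElem?_eq_getElem (hij.trans hj)] at hh
    exact Option.some.inj hh

theorem cp_mem {α : Type} [Primcodable α] {f : α → List ℕ} {g : α → ℕ} (hf : Computable f)
    (hg : Computable g) : ComputablePred (fun a => g a ∈ f a) := by
  have h1 : ComputablePred (fun x : List ℕ × ℕ => ∃ a < x.1.length, x.1.getD a 0 = x.2) := by
    refine cp_bex' (p := fun (x : List ℕ × ℕ) a => x.1.getD a 0 = x.2) ?_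
      (Computable.list_length.comp Computable.fst)
    exact cp_eq (cp_getD (Computable.fst.comp Computable.fst) Computable.snd)
      (Computable.snd.comp Computable.fst)
  have h2 := cp_comp h1 (Computable.pair hf hg)
  refine cp_of_iff h2 ?_
  intro x
  rw [List.mem_iff_getElem]
  constructor
  · rintro ⟨i, hi, h⟩
    exact ⟨i, hi, by rw [List.getD_eq_getElem _ _ hi]; exact h⟩
  · rintro ⟨i, hi, h⟩
    rw [List.getD_eq_getElem _ _ hi] at h
    exact ⟨i, hi, h⟩

/-- the predicate on the union of finitely many sections -/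
theorem cp_fin_union (st : ℕ → ℕ → Option ℕ) (h : ∀ e, ComputablePred (fun τ => st e τ ≠ none))
    (j : ℕ) : ComputablePred (fun x : ℕ × ℕ => x.1 < j ∧ st x.1 x.2 ≠ none) := by
  induction j with
  | zero => exact (cp_const False).of_eq (fun x => by simp)
  | succ j ih =>
    have h1 : ComputablePred (fun x : ℕ × ℕ => x.1 = j ∧ st j x.2 ≠ none) :=
      cp_and (cp_eq Computable.fst (Computable.const j)) (cp_comp (h j) Computable.snd)
    refine cp_of_iff (cp_or ih h1) ?_
    rintro ⟨e, τ⟩
    simp only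
    constructor
    · rintro ⟨h2, h3⟩
      rcases Nat.lt_succ_iff_lt_or_eq.1 h2 with h4 | rfl
      · exact Or.inl ⟨h4, h3⟩
      · exact Or.inr ⟨rfl, h3⟩
    · rintro (⟨h2, h3⟩ | ⟨rfl, h3⟩)
      · exact ⟨by omega, h3⟩
      · exact ⟨by omega, h3⟩

theorem hQ_finite (st : ℕ → ℕ → Option ℕ) (h : StOK st) (j : ℕ) :
    ComputablePred (fun x : (ℕ × ℕ) × List ℕ => x.2.length = x.1.1 + 1 ∧ x.2.Nodup ∧
      ∃ s, st x.1.1 x.1.2 = some s ∧ ∀ t < s, t + j ∉ x.2) := by
  have l2 : Computable (fun x : (ℕ × ℕ) × List ℕ => x.2) := Computable.snd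
  have e1 : Computable (fun x : (ℕ × ℕ) × List ℕ => x.1.1) := Computable.fst.comp Computable.fst
  have c1 : ComputablePred (fun x : (ℕ × ℕ) × List ℕ => x.2.length = x.1.1 + 1) :=
    cp_eq (Computable.list_length.comp l2) (Computable.succ.comp e1)
  have c2 : ComputablePred (fun x : (ℕ × ℕ) × List ℕ => x.2.Nodup) := cp_comp cp_nodup l2
  have c3 : ComputablePred (fun x : (ℕ × ℕ) × List ℕ => ∀ a < x.2.length, x.2.getD a 0 < j) := by
    refine cp_ball' (p := fun (x : (ℕ × ℕ) × List ℕ) a => x.2.getD a 0 < j) ?_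
      (Computable.list_length.comp l2)
    exact cp_lt (cp_getD (Computable.snd.comp Computable.fst) Computable.snd)
      (Computable.const j)
  have c4 : ComputablePred (fun x : (ℕ × ℕ) × List ℕ => x.1.1 < j ∧ st x.1.1 x.1.2 ≠ none) :=
    cp_comp (cp_fin_union st h.st2 j) Computable.fst
  have c5 : ComputablePred (fun x : (ℕ × ℕ) × List ℕ => ∃ a < x.2.length,
      ∃ s < x.2.getD a 0 + 1, st x.1.1 x.1.2 = some s ∧ ∀ t < s, t + j ∉ x.2) := by
    refine cp_bex' (p := fun (x : (ℕ × ℕ) × List ℕ) a => ∃ s < x.2.getD a 0 + 1,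
      st x.1.1 x.1.2 = some s ∧ ∀ t < s, t + j ∉ x.2) ?_ (Computable.list_length.comp l2)
    refine cp_bex' (p := fun (x : ((ℕ × ℕ) × List ℕ) × ℕ) s => st x.1.1.1 x.1.1.2 = some s ∧
      ∀ t < s, t + j ∉ x.1.2) ?_ (Computable.succ.comp (cp_getD (Computable.snd.comp
        Computable.fst) Computable.snd))
    have d1 : Computable (fun y : (((ℕ × ℕ) × List ℕ) × ℕ) × ℕ => (y.1.1.1, y.2)) :=
      Computable.pair (Computable.fst.comp (Computable.fst.comp Computable.fst)) Computable.snd
    refine cp_and (cp_comp h.st1 d1) ?_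
    refine cp_ball' (p := fun (y : (((ℕ × ℕ) × List ℕ) × ℕ) × ℕ) t => t + j ∉ y.1.1.2) ?_
      Computable.snd
    have d2 : Computable (fun y : ((((ℕ × ℕ) × List ℕ) × ℕ) × ℕ) × ℕ => y.1.1.1.2) :=
      Computable.snd.comp (Computable.fst.comp (Computable.fst.comp Computable.fst))
    exact cp_not (cp_mem d2 (c_add Computable.snd (Computable.const j)))
  refine cp_of_iff (cp_and c1 (cp_and c2 (cp_or (cp_and c4 c3) c5))) ?_
  rintro ⟨⟨e, τ⟩, l⟩
  simp only
  refine and_congr_right (fun hlen => and_congr_right (fun hnd => ?_))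
  constructor
  · rintro ⟨s, hs, hs2⟩
    by_cases hall : ∀ a < l.length, l.getD a 0 < j
    · left
      refine ⟨⟨?_, by rw [hs]; simp⟩, hall⟩
      have h1 : l.toFinset ⊆ Finset.range j := by
        intro x hx
        rw [List.mem_toFinset, List.mem_iff_getElem] at hx
        obtain ⟨i, hi, rfl⟩ := hx
        have := hall i hi
        rw [List.getD_eq_getElem _ _ hi] at this
        exact Finset.mem_range.2 this
      have h2 := Finset.card_le_card h1
      rw [List.toFinset_card_of_nodup hnd, Finset.card_range] at h2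
      omega
    · right
      push Not at hall
      obtain ⟨a, ha, haj⟩ := hall
      refine ⟨a, ha, s, ?_, hs, hs2⟩
      by_contra hcon
      have h3 := hs2 (l.getD a 0 - j) (by omega)
      apply h3
      rw [Nat.sub_add_cancel haj, List.getD_eq_getElem _ _ ha]
      exact List.getElem_mem ha
  · rintro (⟨⟨_, h2⟩, h3⟩ | ⟨a, _, s, _, h4, h5⟩)
    · obtain ⟨s, hs⟩ := Option.ne_none_iff_exists'.1 h2
      refine ⟨s, hs, ?_⟩
      intro t _ htl
      rw [List.mem_iff_getElem] at htl
      obtain ⟨i, hi, hii⟩ := htl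
      have := h3 i hi
      rw [List.getD_eq_getElem _ _ hi] at this
      omega
    · exact ⟨s, h4, h5⟩

theorem cp_bounded {p : ℕ → Prop} (τ0 : ℕ) (h : ∀ τ, p τ → τ < τ0) : ComputablePred p := by
  induction τ0 generalizing p with
  | zero => exact (cp_const False).of_eq (fun x => ⟨fun h => h.elim, fun hx => by
      have := h x hx; omega⟩)
  | succ n ih =>
    have h1 : ComputablePred (fun τ => p τ ∧ τ < n) := ih (fun τ hτ => hτ.2)
    have h2 : ComputablePred (fun τ => τ = n ∧ p n) :=
      cp_and (cp_eq Computable.id (Computable.const n)) (cp_const _)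
    refine cp_of_iff (cp_or h1 h2) ?_
    intro τ
    constructor
    · intro hτ
      rcases Nat.lt_succ_iff_lt_or_eq.1 (h τ hτ) with h3 | rfl
      · exact Or.inl ⟨hτ, h3⟩
      · exact Or.inr ⟨rfl, hτ⟩
    · rintro (⟨h3, _⟩ | ⟨rfl, h3⟩)
      · exact h3
      · exact h3

theorem exists_st (inp : ℕ → ℕ → ℕ) (hinp : Computable (fun x : ℕ × ℕ => inp x.1 x.2)) :
    ∃ st : ℕ → ℕ → Option ℕ, StOK st ∧
      ∀ c : Code, (∀ τ, (Code.eval c (inp (Encodable.encode c) τ)).Dom) →
        ∀ τ, (st (Encodable.encode c) τ ≠ none ↔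
          0 ∈ Code.eval c (inp (Encodable.encode c) τ)) := by
  classical
  let cd : ℕ → Code := fun e => Denumerable.ofNat Code e
  have hcd : Computable cd := Computable.ofNat Code
  let ev : ℕ → ℕ → ℕ → Option ℕ := fun e τ d => Code.evaln d (cd e) (inp e τ)
  have hev : Computable (fun x : (ℕ × ℕ) × ℕ => ev x.1.1 x.1.2 x.2) := by
    have h1 : Computable (fun x : (ℕ × ℕ) × ℕ => ((x.2, cd x.1.1), inp x.1.1 x.1.2)) :=
      Computable.pair (Computable.pair Computable.snd
        (hcd.comp (Computable.fst.comp Computable.fst))) (hinp.comp Computable.fst)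
    exact Code.primrec_evaln.to_comp.comp h1
  let cond : ℕ → ℕ → ℕ → Prop := fun e τ d => (∀ τ' < τ + 1, ev e τ' d ≠ none) ∧
    ev e τ d = some 0
  have hcond : ComputablePred (fun x : (ℕ × ℕ) × ℕ => cond x.1.1 x.1.2 x.2) := by
    refine cp_and ?_ (cp_eq hev (Computable.const (some 0)))
    refine cp_ball' (p := fun (x : (ℕ × ℕ) × ℕ) τ' => ev x.1.1 τ' x.2 ≠ none) ?_
      (Computable.succ.comp (Computable.snd.comp Computable.fst))
    refine cp_not (cp_eq ?_ (Computable.const none))
    have h1 : Computable (fun y : ((ℕ × ℕ) × ℕ) × ℕ => ((y.1.1.1, y.2), y.1.2)) :=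
      Computable.pair (Computable.pair (Computable.fst.comp (Computable.fst.comp
        Computable.fst)) Computable.snd) (Computable.snd.comp Computable.fst)
    exact hev.comp h1
  let st : ℕ → ℕ → Option ℕ := fun e τ =>
    if h : ∃ d, cond e τ d then some (Nat.find h) else none
  have hst_some : ∀ e τ s, st e τ = some s ↔ cond e τ s ∧ ∀ d < s, ¬ cond e τ d := by
    intro e τ s
    by_cases h : ∃ d, cond e τ d
    · simp only [st, dif_pos h, Option.some.injEq]
      rw [Nat.find_eq_iff]
    · simp only [st, dif_neg h, reduceCtorEq, false_iff]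
      rintro ⟨h1, _⟩
      exact h ⟨_, h1⟩
  have hst_ne : ∀ e τ, st e τ ≠ none ↔ ∃ d, cond e τ d := by
    intro e τ
    by_cases h : ∃ d, cond e τ d
    · simp only [st, dif_pos h]; simp [h]
    · simp only [st, dif_neg h]; simp [h]
  have hmono : ∀ e τ d d' x, d ≤ d' → ev e τ d = some x → ev e τ d' = some x := by
    intro e τ d d' x hd h
    exact Code.evaln_mono hd h
  -- total case
  have htot : ∀ e, (∀ τ, (Code.eval (cd e) (inp e τ)).Dom) → ∀ τ, (st e τ ≠ none ↔
      0 ∈ Code.eval (cd e) (inp e τ)) := by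
    intro e hdom τ
    rw [hst_ne]
    constructor
    · rintro ⟨d, _, h2⟩
      exact Code.evaln_sound h2
    · intro h0
      have h1 : ∀ τ', ∃ k, ∃ x, ev e τ' k = some x := by
        intro τ'
        obtain ⟨x, hx⟩ := Part.dom_iff_mem.1 (hdom τ')
        obtain ⟨k, hk⟩ := Code.evaln_complete.1 hx
        exact ⟨k, x, hk⟩
      choose k hk using h1
      obtain ⟨k0, hk0⟩ := Code.evaln_complete.1 h0
      refine ⟨max k0 ((Finset.range (τ + 1)).sup k), ?_, ?_⟩
      · intro τ' hτ'
        obtain ⟨x, hx⟩ := hk τ'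
        have h2 : k τ' ≤ max k0 ((Finset.range (τ + 1)).sup k) :=
          (Finset.le_sup (Finset.mem_range.2 hτ')).trans (le_max_right _ _)
        rw [hmono e τ' _ _ x h2 hx]
        simp
      · exact hmono e τ _ _ 0 (le_max_left _ _) hk0
  refine ⟨st, ⟨?_, ?_⟩, ?_⟩
  · refine cp_of_iff (cp_and hcond ?_) (fun x => hst_some x.1.1 x.1.2 x.2)
    refine cp_ball' (p := fun (x : (ℕ × ℕ) × ℕ) d => ¬ cond x.1.1 x.1.2 d) ?_ Computable.snd
    have h1 : Computable (fun y : ((ℕ × ℕ) × ℕ) × ℕ => (y.1.1, y.2)) :=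
      Computable.pair (Computable.fst.comp Computable.fst) Computable.snd
    exact cp_not (cp_comp hcond h1)
  · intro e
    by_cases hdom : ∀ τ, (Code.eval (cd e) (inp e τ)).Dom
    · have hpart : Partrec (fun τ : ℕ => Code.eval (cd e) (inp e τ)) := by
        have h1 : Computable (fun τ : ℕ => inp e τ) :=
          hinp.comp (Computable.pair (Computable.const e) Computable.id)
        exact Code.eval_part.comp (Computable.const (cd e)) h1
      have hcomp : Computable (fun τ : ℕ => (Code.eval (cd e) (inp e τ)).get (hdom τ)) :=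
        hpart.of_eq_tot (fun τ => Part.get_mem _)
      refine cp_of_iff (cp_eq hcomp (Computable.const 0)) ?_
      intro τ
      rw [htot e hdom τ]
      constructor
      · intro h; exact Part.get_eq_of_mem h (hdom τ)
      · intro h
        have := Part.get_mem (hdom τ)
        rw [h] at this; exact this
    · push Not at hdom
      obtain ⟨τ0, hτ0⟩ := hdom
      refine cp_bounded τ0 ?_
      intro τ hτ
      rw [hst_ne] at hτ
      obtain ⟨d, h1, _⟩ := hτ
      by_contra hcon
      have h2 := h1 τ0 (by omega)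
      obtain ⟨x, hx⟩ := Option.ne_none_iff_exists'.1 h2
      exact hτ0 (Part.dom_iff_mem.2 ⟨x, Code.evaln_sound hx⟩)
  · intro c hdom τ
    have hc : cd (Encodable.encode c) = c := Denumerable.ofNat_encode c
    have := htot (Encodable.encode c) (by rw [hc]; exact hdom) τ
    rw [hc] at this
    exact this

/-- codes for computable predicates -/
theorem exists_code_pred {α : Type} [Primcodable α] {D : α → Prop} (hD : ComputablePred D) :
    ∃ c : Code, ∀ a : α, (D a ∧ Code.eval c (Encodable.encode a) = Part.some 1) ∨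
      (¬ D a ∧ Code.eval c (Encodable.encode a) = Part.some 0) := by
  obtain ⟨f, hf, h⟩ := cp_iff.1 hD
  have hf' : Nat.Partrec (fun n => Part.bind (Encodable.decode (α := α) n)
    (fun a => ((f : α →. Bool) a).map Encodable.encode)) := hf
  obtain ⟨c, hc⟩ := Code.exists_code.1 hf'
  refine ⟨c, fun a => ?_⟩
  have h1 : Code.eval c (Encodable.encode a) = Part.some (Encodable.encode (f a)) := by
    rw [hc]
    simp [Encodable.encodek]
  cases hfa : f a with
  | true =>
    left
    refine ⟨(h a).2 hfa, ?_⟩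
    rw [h1, hfa]; rfl
  | false =>
    right
    refine ⟨fun hh => ?_, ?_⟩
    · rw [(h a).1 hh] at hfa; exact absurd hfa (by simp)
    · rw [h1, hfa]; rfl

end Pool.Agent.H494_SCM
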