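import Pool.Agent.H494_SCM.MarkerGood2

/-! The base family. -/

open FirstOrder Cardinal FirstOrder.Language

namespace Pool.Agent.H494_SCM

/-- parameters of the base family -/
structure Par where
  bit : ℕ → Prop
  st : ℕ → ℕ → Option ℕ

/-- enumeration of the numbers different from `k` -/
def skip (k n : ℕ) : ℕ := if n < k then n else n + 1

/-- number of additional unlabelled elements of the class of the mark `l` in row `i` -/
def NN (i l : ℕ) : ℕ := skip (Nat.unpair i).1 (Nat.unpair l).1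

theorem NN_le (i l : ℕ) : NN i l ≤ l + 1 := by
  have := Nat.unpair_left_le l
  unfold NN skip
  split_ifs <;> omega

theorem NN_ne (i l : ℕ) : NN i l ≠ (Nat.unpair i).1 := by
  unfold NN skip
  split_ifs <;> omega

/-- the label relation of row `i` -/
def lab (p : Par) {U : Type} (u : ℕ ↪ U) (i m : ℕ) (a w : U) : Prop :=
  (p.bit i ∧ a = u 0 ∧ ∃ t ≤ m, m = 2 * t ∧ w = u t) ∨
  (p.bit i ∧ a = u 1 ∧ ∃ t ≤ m, m = 2 * t + 1 ∧ w = u t) ∨
  ((p.bit i → a ≠ u 0 ∧ a ≠ u 1) ∧
    ((∃ l ≤ m, a = u l ∧ w = u (m + NN i l)) ∨ ((∀ l ≤ m, a ≠ u l) ∧ w = u m)))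

/-- the same class relation -/
def cls (p : Par) {U : Type} (u : ℕ ↪ U) (i : ℕ) (a a' : U) : Prop :=
  a = a' ∨ (p.bit i ∧ (a = u 0 ∨ a = u 1) ∧ (a' = u 0 ∨ a' = u 1))

/-- visible relations of the base family -/
def bV (p : Par) {U : Type} (u : ℕ ↪ U) (idx : ℕ) (L : List (U ⊕ U × U × U)) : Prop :=
  match (Nat.unpair idx).1 with
  | 0 => ∃ x, L = [Sum.inl x]
  | 1 => L = [Sum.inl (u (Nat.unpair idx).2)]
  | 2 => ∃ a w a' w', L = [Sum.inr (u (Nat.unpair idx).2, a, w),
      Sum.inr (u (Nat.unpair idx).2, a', w')] ∧ cls p u (Nat.unpair idx).2 a a'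
  | 3 => ∃ a w, L = [Sum.inr (u (Nat.unpair (Nat.unpair idx).2).1, a, w)] ∧
      lab p u (Nat.unpair (Nat.unpair idx).2).1 (Nat.unpair (Nat.unpair idx).2).2 a w
  | 4 => ∃ l : List U, L = l.map Sum.inl ∧ l.length = (Nat.unpair (Nat.unpair idx).2).1 + 1 ∧
      l.Nodup ∧ ∃ s, p.st (Nat.unpair (Nat.unpair idx).2).1 (Nat.unpair (Nat.unpair idx).2).2 =
        some s ∧ ∀ t < s, u t ∉ l
  | _ => False

/-- supports of the visible relations -/
def bK (p : Par) (idx : ℕ) : ℕ :=
  match (Nat.unpair idx).1 with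
  | 0 => 0
  | 1 => (Nat.unpair idx).2 + 1
  | 2 => (Nat.unpair idx).2 + 2
  | 3 => (Nat.unpair (Nat.unpair idx).2).1 + 2 * (Nat.unpair (Nat.unpair idx).2).2 + 3
  | 4 => (p.st (Nat.unpair (Nat.unpair idx).2).1 (Nat.unpair (Nat.unpair idx).2).2).getD 0
  | _ => 0

/-- arities of the base family -/
def bar : ℕ → ℕ
  | 0 => 4
  | (idx + 1) => match (Nat.unpair idx).1 with
    | 2 => 2
    | 4 => (Nat.unpair (Nat.unpair idx).2).1 + 1
    | _ => 1

theorem lab_nat (p : Par) {U U' : Type} (f : U ↪ U') (u : ℕ ↪ U) (u' : ℕ ↪ U') (i m : ℕ)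
    (a w : U) (h : ∀ t < i + 2 * m + 3, f (u t) = u' t) :
    lab p u' i m (f a) (f w) ↔ lab p u i m a w := by
  have hK : ∀ t < i + 2 * m + 3, ∀ a : U, (f a = u' t ↔ a = u t) := by
    intro t ht a
    rw [← h t ht]
    exact f.injective.eq_iff
  have e1 : (∃ t ≤ m, m = 2 * t ∧ f w = u' t) ↔ (∃ t ≤ m, m = 2 * t ∧ w = u t) := by
    apply exists_congr; intro t
    apply and_congr_right; intro ht
    rw [hK t (by omega)]
  have e2 : (∃ t ≤ m, m = 2 * t + 1 ∧ f w = u' t) ↔ (∃ t ≤ m, m = 2 * t + 1 ∧ w = u t) := by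
    apply exists_congr; intro t
    apply and_congr_right; intro ht
    rw [hK t (by omega)]
  have e3 : (∃ l ≤ m, f a = u' l ∧ f w = u' (m + NN i l)) ↔
      (∃ l ≤ m, a = u l ∧ w = u (m + NN i l)) := by
    apply exists_congr; intro l
    apply and_congr_right; intro hl
    have := NN_le i l
    rw [hK l (by omega), hK (m + NN i l) (by omega)]
  have e4 : (∀ l ≤ m, f a ≠ u' l) ↔ (∀ l ≤ m, a ≠ u l) := by
    apply forall_congr'; intro l
    apply imp_congr_right; intro hl
    rw [Ne, hK l (by omega)]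
  unfold lab
  rw [e1, e2, e3, e4, hK 0 (by omega), hK m (by omega), Ne, Ne, hK 0 (by omega), hK 1 (by omega)]

theorem cls_nat (p : Par) {U U' : Type} (f : U ↪ U') (u : ℕ ↪ U) (u' : ℕ ↪ U') (i : ℕ)
    (a a' : U) (h : ∀ t < 2, f (u t) = u' t) :
    cls p u' i (f a) (f a') ↔ cls p u i a a' := by
  have hK : ∀ t < 2, ∀ a : U, (f a = u' t ↔ a = u t) := by
    intro t ht a
    rw [← h t ht]
    exact f.injective.eq_iff
  unfold cls
  rw [f.injective.eq_iff, hK 0 (by omega), hK 1 (by omega), hK 0 (by omega), hK 1 (by omega)]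

/-- action of injections on the base family -/
def bmap {U U' : Type} (f : U ↪ U') : U ⊕ U × U × U → U' ⊕ U' × U' × U' :=
  Sum.map f (Prod.map f (Prod.map f f))

theorem bmap_inj {U U' : Type} (f : U ↪ U') : Function.Injective (bmap f) :=
  Function.Injective.sumMap f.injective
    (Function.Injective.prodMap f.injective (Function.Injective.prodMap f.injective f.injective))

theorem bmap_inl {U U' : Type} (f : U ↪ U') (x : U) : bmap f (Sum.inl x) = Sum.inl (f x) := rfl

theorem bmap_inr {U U' : Type} (f : U ↪ U') (r a w : U) :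
    bmap f (Sum.inr (r, a, w)) = Sum.inr (f r, f a, f w) := rfl

theorem bmap_eq_inr {U U' : Type} (f : U ↪ U') (x : U ⊕ U × U × U) (r a w : U')
    (h : bmap f x = Sum.inr (r, a, w)) : ∃ r0 a0 w0, x = Sum.inr (r0, a0, w0) ∧ f r0 = r ∧
      f a0 = a ∧ f w0 = w := by
  rcases x with x | ⟨r0, a0, w0⟩
  · exact absurd h Sum.inl_ne_inr
  · rw [bmap_inr] at h
    have h1 := Sum.inr_injective h
    simp only [Prod.mk.injEq] at h1
    exact ⟨r0, a0, w0, rfl, h1.1, h1.2.1, h1.2.2⟩

theorem bmap_eq_inl {U U' : Type} (f : U ↪ U') (x : U ⊕ U × U × U) (a : U')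
    (h : bmap f x = Sum.inl a) : ∃ a0, x = Sum.inl a0 ∧ f a0 = a := by
  rcases x with x | ⟨r0, a0, w0⟩
  · exact ⟨x, rfl, Sum.inl_injective h⟩
  · exact absurd h Sum.inr_ne_inl

theorem bV_nat (p : Par) {U U' : Type} (f : U ↪ U') (u : ℕ ↪ U) (u' : ℕ ↪ U') (idx : ℕ)
    (L : List (U ⊕ U × U × U)) (h : ∀ t < bK p idx, f (u t) = u' t) :
    bV p u' idx (L.map (bmap f)) ↔ bV p u idx L := by
  have hmk : ∀ t < bK p idx, ∀ a : U, (f a = u' t ↔ a = u t) := by
    intro t ht a
    rw [← h t ht]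
    exact f.injective.eq_iff
  unfold bV
  unfold bK at h hmk
  split
  · -- the sort predicate
    constructor
    · rintro ⟨x, hx⟩
      obtain ⟨L0, h1, h2⟩ := map_sum_inl f (Prod.map f (Prod.map f f)) L [x] hx
      cases L0 with
      | nil => simp at h2
      | cons y L0 =>
        simp only [List.map_cons, List.cons.injEq, List.map_eq_nil_iff] at h2
        rw [h2.2] at h1
        exact ⟨y, h1⟩
    · rintro ⟨x, rfl⟩
      exact ⟨f x, rfl⟩
  · -- marks
    rename_i heq
    rw [heq] at h hmk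
    simp only at h hmk
    constructor
    · intro hx
      rw [← h _ (Nat.lt_succ_self _)] at hx
      exact List.map_injective_iff.2 (bmap_inj f) hx
    · intro hx
      rw [hx, ← h _ (Nat.lt_succ_self _)]
      rfl
  · -- classes
    rename_i heq
    rw [heq] at h hmk
    simp only at h hmk
    have h2 : ∀ t < 2, f (u t) = u' t := fun t ht => h t (by omega)
    constructor
    · rintro ⟨a, w, a', w', hL, hc⟩
      obtain ⟨x, l1, rfl, hx, hL⟩ := List.map_eq_cons_iff.1 hL
      obtain ⟨y, l2, rfl, hy, hL⟩ := List.map_eq_cons_iff.1 hL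
      obtain rfl := List.map_eq_nil_iff.1 hL
      obtain ⟨r0, a0, w0, rfl, hr, rfl, rfl⟩ := bmap_eq_inr f x _ _ _ hx
      obtain ⟨r1, a1, w1, rfl, hr1, rfl, rfl⟩ := bmap_eq_inr f y _ _ _ hy
      rw [hmk _ (by omega)] at hr hr1
      subst hr hr1
      exact ⟨a0, w0, a1, w1, rfl, (cls_nat p f u u' _ _ _ h2).1 hc⟩
    · rintro ⟨a, w, a', w', rfl, hc⟩
      refine ⟨f a, f w, f a', f w', ?_, (cls_nat p f u u' _ _ _ h2).2 hc⟩
      rw [← h _ (by omega)]
      rfl
  · -- labels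
    rename_i heq
    rw [heq] at h hmk
    simp only at h hmk
    constructor
    · rintro ⟨a, w, hL, hc⟩
      obtain ⟨x, l1, rfl, hx, hL⟩ := List.map_eq_cons_iff.1 hL
      obtain rfl := List.map_eq_nil_iff.1 hL
      obtain ⟨r0, a0, w0, rfl, hr, rfl, rfl⟩ := bmap_eq_inr f x _ _ _ hx
      rw [hmk _ (by omega)] at hr
      subst hr
      exact ⟨a0, w0, rfl, (lab_nat p f u u' _ _ _ _ h).1 hc⟩
    · rintro ⟨a, w, rfl, hc⟩
      refine ⟨f a, f w, ?_, (lab_nat p f u u' _ _ _ _ h).2 hc⟩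
      rw [← h _ (by omega)]
      rfl
  · -- tuples
    rename_i heq
    rw [heq] at h hmk
    simp only at h hmk
    constructor
    · rintro ⟨l, hL, hlen, hnd, s, hs, ht⟩
      obtain ⟨l0, rfl, rfl⟩ := map_sum_inl f (Prod.map f (Prod.map f f)) L l hL
      refine ⟨l0, rfl, by simpa using hlen, (List.nodup_map_iff f.injective).1 hnd, s, hs, ?_⟩
      intro t hts htl
      rw [hs] at h
      apply ht t hts
      rw [← h t hts]
      exact List.mem_map_of_mem htl
    · rintro ⟨l, rfl, hlen, hnd, s, hs, ht⟩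
      refine ⟨l.map f, by simp [List.map_map, Function.comp_def, bmap],
        by simpa using hlen, (List.nodup_map_iff f.injective).2 hnd, s, hs, ?_⟩
      intro t hts htl
      rw [hs] at h
      rw [← h t hts, List.mem_map_of_injective f.injective] at htl
      exact ht t hts htl
  · exact Iff.rfl

open Classical in
/-- the base family -/
noncomputable def base (p : Par) : Fam where
  F U := U ⊕ U × U × U
  map f := bmap f
  map_id := by rintro U (x | ⟨a, b, c⟩) <;> rfl
  map_comp := by rintro U U' U'' f g (x | ⟨a, b, c⟩) <;> rfl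
  map_inj := by intro U U' f; exact bmap_inj f
  supp := fun x => match x with
    | Sum.inl x => {x}
    | Sum.inr (a, b, c) => {a, b, c}
  supp_map := by
    rintro U U' f (x | ⟨a, b, c⟩)
    · simp [bmap]
    · simp [bmap, Finset.map_insert]
  map_congr := by
    rintro U U' f g (x | ⟨a, b, c⟩) h
    · simp only [Finset.mem_singleton, forall_eq] at h
      rw [bmap_inl, bmap_inl, h]
    · simp only [Finset.mem_insert, Finset.mem_singleton, forall_eq_or_imp, forall_eq] at h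
      rw [bmap_inr, bmap_inr, h.1, h.2.1, h.2.2]
  exists_map := by
    rintro U U' f (x | ⟨a, b, c⟩) h
    · simp only [Finset.mem_singleton, forall_eq] at h
      obtain ⟨y, rfl⟩ := h
      exact ⟨Sum.inl y, rfl⟩
    · simp only [Finset.mem_insert, Finset.mem_singleton, forall_eq_or_imp, forall_eq] at h
      obtain ⟨⟨a', rfl⟩, ⟨b', rfl⟩, ⟨c', rfl⟩⟩ := h
      exact ⟨Sum.inr (a', b', c'), rfl⟩
  faithful := by
    intro U U' f g h
    ext x
    exact Sum.inl_injective (h (Sum.inl x))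
  R L := ∃ r a w, L = [Sum.inr (r, a, w), Sum.inl r, Sum.inl a, Sum.inl w]
  V := bV p
  K := bK p
  R_nat := by
    intro U U' f L
    constructor
    · rintro ⟨r, a, w, hL⟩
      obtain ⟨x, l1, rfl, hx, hL⟩ := List.map_eq_cons_iff.1 hL
      obtain ⟨y, l1, rfl, hy, hL⟩ := List.map_eq_cons_iff.1 hL
      obtain ⟨z, l1, rfl, hz, hL⟩ := List.map_eq_cons_iff.1 hL
      obtain ⟨t, l1, rfl, ht, hL⟩ := List.map_eq_cons_iff.1 hL
      obtain rfl := List.map_eq_nil_iff.1 hL
      obtain ⟨r0, a0, w0, rfl, rfl, rfl, rfl⟩ := bmap_eq_inr f x _ _ _ hx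
      obtain ⟨r1, rfl, hr⟩ := bmap_eq_inl f y _ hy
      obtain ⟨a1, rfl, ha⟩ := bmap_eq_inl f z _ hz
      obtain ⟨w1, rfl, hw⟩ := bmap_eq_inl f t _ ht
      rw [f.injective hr, f.injective ha, f.injective hw]
      exact ⟨r0, a0, w0, rfl⟩
    · rintro ⟨r, a, w, rfl⟩
      exact ⟨f r, f a, f w, rfl⟩
  V_nat := bV_nat p

end Pool.Agent.H494_SCM
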