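import Pool.Agent.H494_SCM.Base

/-! The base family is good. -/

open FirstOrder Cardinal FirstOrder.Language

namespace Pool.Agent.H494_SCM

/-- index of the sort predicate -/
abbrev oI : ℕ := Nat.pair 0 0 + 1
/-- index of the mark predicates -/
abbrev kI (t : ℕ) : ℕ := Nat.pair 1 t + 1

theorem bar_oI : bar oI = 1 := by
  simp [oI, bar, Nat.unpair_pair]

theorem bar_kI (t : ℕ) : bar (kI t) = 1 := by
  simp [kI, bar, Nat.unpair_pair]

theorem rel_oI (p : Par) {U : Type} (u : ℕ ↪ U) (x : U ⊕ U × U × U) :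
    rel bar ((base p).Car bar u) oI [x] ↔ ∃ y, x = Sum.inl y := by
  refine (rel_Mk _ _ _).trans ?_
  have h1 : (base p).str u oI [x] ↔ ∃ y, x = Sum.inl y := by
    show bV p u (Nat.pair 0 0) [x] ↔ _
    unfold bV
    rw [Nat.unpair_pair]
    constructor
    · rintro ⟨y, hy⟩; exact ⟨y, (List.cons.inj hy).1⟩
    · rintro ⟨y, rfl⟩; exact ⟨y, rfl⟩
  exact (and_iff_right (by rw [bar_oI]; rfl)).trans h1

theorem rel_kI (p : Par) {U : Type} (u : ℕ ↪ U) (t : ℕ) (x : U ⊕ U × U × U) :
    rel bar ((base p).Car bar u) (kI t) [x] ↔ x = Sum.inl (u t) := by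
  refine (rel_Mk _ _ _).trans ?_
  have h1 : (base p).str u (kI t) [x] ↔ x = Sum.inl (u t) := by
    show bV p u (Nat.pair 1 t) [x] ↔ _
    unfold bV
    rw [Nat.unpair_pair]
    constructor
    · intro hy; exact (List.cons.inj hy).1
    · rintro rfl; rfl
  exact (and_iff_right (by rw [bar_kI]; rfl)).trans h1

theorem rel_zero (p : Par) {U : Type} (u : ℕ ↪ U) (v r a w : U ⊕ U × U × U) :
    rel bar ((base p).Car bar u) 0 [v, r, a, w] ↔ ∃ r' a' w' : U, v = Sum.inr (r', a', w') ∧
      r = Sum.inl r' ∧ a = Sum.inl a' ∧ w = Sum.inl w' := by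
  refine (rel_Mk _ _ _).trans ?_
  have h1 : (base p).str u 0 [v, r, a, w] ↔ ∃ r' a' w' : U, v = Sum.inr (r', a', w') ∧
      r = Sum.inl r' ∧ a = Sum.inl a' ∧ w = Sum.inl w' := by
    show (∃ r' a' w' : U, [v, r, a, w] = [Sum.inr (r', a', w'), Sum.inl r', Sum.inl a',
      Sum.inl w']) ↔ _
    constructor
    · rintro ⟨r', a', w', h⟩
      simp only [List.cons.injEq, and_true] at h
      exact ⟨r', a', w', h⟩
    · rintro ⟨r', a', w', rfl, rfl, rfl, rfl⟩
      exact ⟨r', a', w', rfl⟩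
  exact (and_iff_right rfl).trans h1

/-- axioms of the base family -/
structure BaseAx (N : Type) [(RL bar).Structure N] : Prop where
  c1 : ∀ v : N, ¬ rel bar N oI [v] → ∃ y : Fin 3 → N, rel bar N 0 [v, y 0, y 1, y 2]
  c2 : ∀ y : Fin 4 → N, rel bar N 0 [y 0, y 1, y 2, y 3] → ¬ rel bar N oI [y 0] ∧
    rel bar N oI [y 1] ∧ rel bar N oI [y 2] ∧ rel bar N oI [y 3]
  c3 : ∀ y : Fin 3 → N, rel bar N oI [y 0] ∧ rel bar N oI [y 1] ∧ rel bar N oI [y 2] →
    ∃ v : N, rel bar N 0 [v, y 0, y 1, y 2]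
  c4 : ∀ y : Fin 5 → N, rel bar N 0 [y 0, y 2, y 3, y 4] → rel bar N 0 [y 1, y 2, y 3, y 4] →
    y 0 = y 1
  c5 : ∀ y : Fin 7 → N, rel bar N 0 [y 0, y 1, y 2, y 3] → rel bar N 0 [y 0, y 4, y 5, y 6] →
    y 1 = y 4 ∧ y 2 = y 5 ∧ y 3 = y 6
  c6 : ∀ t : ℕ, ∃ y : N, rel bar N oI [y] ∧ rel bar N (kI t) [y]
  c8 : ∀ t t' : ℕ, t ≠ t' → ∀ y : N, rel bar N (kI t) [y] → ¬ rel bar N (kI t') [y]

theorem baseAx_base (p : Par) {U : Type} (u : ℕ ↪ U) : BaseAx ((base p).Car bar u) := by
  constructor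
  · intro v hv
    rw [rel_oI] at hv
    match v, hv with
    | Sum.inl x, hv => exact absurd ⟨x, rfl⟩ hv
    | Sum.inr (r, a, w), _ =>
      refine ⟨![(Sum.inl r : U ⊕ U × U × U), (Sum.inl a : U ⊕ U × U × U),
        (Sum.inl w : U ⊕ U × U × U)], ?_⟩
      exact (rel_zero p u _ _ _ _).2 ⟨r, a, w, rfl, rfl, rfl, rfl⟩
  · intro y hy
    obtain ⟨r, a, w, h0, h1, h2, h3⟩ := (rel_zero p u _ _ _ _).1 hy
    rw [rel_oI, rel_oI, rel_oI, rel_oI]
    refine ⟨?_, ⟨r, h1⟩, ⟨a, h2⟩, ⟨w, h3⟩⟩
    rintro ⟨x, hx⟩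
    rw [h0] at hx
    exact Sum.inr_ne_inl hx
  · intro y hy
    rw [rel_oI, rel_oI, rel_oI] at hy
    obtain ⟨⟨r, hr⟩, ⟨a, ha⟩, ⟨w, hw⟩⟩ := hy
    exact ⟨(Sum.inr (r, a, w) : U ⊕ U × U × U),
      (rel_zero p u _ _ _ _).2 ⟨r, a, w, rfl, hr, ha, hw⟩⟩
  · intro y h h'
    obtain ⟨r, a, w, h0, h1, h2, h3⟩ := (rel_zero p u _ _ _ _).1 h
    obtain ⟨r', a', w', h0', h1', h2', h3'⟩ := (rel_zero p u _ _ _ _).1 h'
    rw [h1] at h1'
    rw [h2] at h2'
    rw [h3] at h3'
    rw [h0, h0', Sum.inl_injective h1', Sum.inl_injective h2', Sum.inl_injective h3']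
  · intro y h h'
    obtain ⟨r, a, w, h0, h1, h2, h3⟩ := (rel_zero p u _ _ _ _).1 h
    obtain ⟨r', a', w', h0', h1', h2', h3'⟩ := (rel_zero p u _ _ _ _).1 h'
    rw [h0] at h0'
    have := Sum.inr_injective h0'
    simp only [Prod.mk.injEq] at this
    obtain ⟨rfl, rfl, rfl⟩ := this
    exact ⟨h1.trans h1'.symm, h2.trans h2'.symm, h3.trans h3'.symm⟩
  · intro t
    exact ⟨(Sum.inl (u t) : U ⊕ U × U × U), (rel_oI p u _).2 ⟨_, rfl⟩, (rel_kI p u t _).2 rfl⟩
  · intro t t' htt y hy hy'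
    rw [rel_kI] at hy hy'
    rw [hy] at hy'
    exact htt (u.injective (Sum.inl_injective hy'))

theorem BaseAx.of_equiv {N N' : Type} [(RL bar).Structure N] [(RL bar).Structure N']
    (h : N ≅[RL bar] N') (hN : BaseAx N) : BaseAx N' := by
  constructor
  · have key : UDef bar Empty (fun M _ _ => ∀ w : Unit → M, ¬ rel bar M oI [w ()] →
        ∃ y : Fin 3 → M, rel bar M 0 [w (), y 0, y 1, y 2]) := by
      refine (UDef.all (α := Empty) (β := Unit) ((UDef.rel oI [Sum.inr ()]).not.imp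
        (UDef.ex (α := Empty ⊕ Unit) (β := Fin 3) (UDef.rel 0
          [Sum.inl (Sum.inr ()), Sum.inr 0, Sum.inr 1, Sum.inr 2])))).of_iff ?_
      intro M _ v
      simp only [List.map_cons, List.map_nil, Sum.elim_inr, Sum.elim_inl]
    have h1 := (key.transfer h Empty.elim Empty.elim).1 (fun w => hN.c1 (w ()))
    exact fun v => h1 (fun _ => v)
  · have key : UDef bar Empty (fun M _ _ => ∀ y : Fin 4 → M, rel bar M 0 [y 0, y 1, y 2, y 3] →
        ¬ rel bar M oI [y 0] ∧ rel bar M oI [y 1] ∧ rel bar M oI [y 2] ∧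
          rel bar M oI [y 3]) := by
      refine (UDef.all (α := Empty) (β := Fin 4) ((UDef.rel 0
        [Sum.inr 0, Sum.inr 1, Sum.inr 2, Sum.inr 3]).imp ((UDef.rel oI [Sum.inr 0]).not.and
        ((UDef.rel oI [Sum.inr 1]).and ((UDef.rel oI [Sum.inr 2]).and
          (UDef.rel oI [Sum.inr 3])))))).of_iff ?_
      intro M _ v
      simp only [List.map_cons, List.map_nil, Sum.elim_inr]
    exact (key.transfer h Empty.elim Empty.elim).1 hN.c2
  · have key : UDef bar Empty (fun M _ _ => ∀ y : Fin 3 → M, rel bar M oI [y 0] ∧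
        rel bar M oI [y 1] ∧ rel bar M oI [y 2] → ∃ v : Unit → M,
          rel bar M 0 [v (), y 0, y 1, y 2]) := by
      refine (UDef.all (α := Empty) (β := Fin 3) (((UDef.rel oI [Sum.inr 0]).and
        ((UDef.rel oI [Sum.inr 1]).and (UDef.rel oI [Sum.inr 2]))).imp
        (UDef.ex (α := Empty ⊕ Fin 3) (β := Unit) (UDef.rel 0
          [Sum.inr (), Sum.inl (Sum.inr 0), Sum.inl (Sum.inr 1), Sum.inl (Sum.inr 2)])))).of_iff ?_
      intro M _ v
      simp only [List.map_cons, List.map_nil, Sum.elim_inr, Sum.elim_inl]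
    have h1 := (key.transfer h Empty.elim Empty.elim).1 (fun w hw => by
      obtain ⟨v, hv⟩ := hN.c3 w hw
      exact ⟨fun _ => v, hv⟩)
    intro y hy
    obtain ⟨v, hv⟩ := h1 y hy
    exact ⟨v (), hv⟩
  · have key : UDef bar Empty (fun M _ _ => ∀ y : Fin 5 → M, rel bar M 0 [y 0, y 2, y 3, y 4] →
        rel bar M 0 [y 1, y 2, y 3, y 4] → y 0 = y 1) := by
      refine (UDef.all (α := Empty) (β := Fin 5) ((UDef.rel 0
        [Sum.inr 0, Sum.inr 2, Sum.inr 3, Sum.inr 4]).imp ((UDef.rel 0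
        [Sum.inr 1, Sum.inr 2, Sum.inr 3, Sum.inr 4]).imp
          (UDef.eq (Sum.inr 0) (Sum.inr 1))))).of_iff ?_
      intro M _ v
      simp only [List.map_cons, List.map_nil, Sum.elim_inr]
    exact (key.transfer h Empty.elim Empty.elim).1 hN.c4
  · have key : UDef bar Empty (fun M _ _ => ∀ y : Fin 7 → M, rel bar M 0 [y 0, y 1, y 2, y 3] →
        rel bar M 0 [y 0, y 4, y 5, y 6] → y 1 = y 4 ∧ y 2 = y 5 ∧ y 3 = y 6) := by
      refine (UDef.all (α := Empty) (β := Fin 7) ((UDef.rel 0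
        [Sum.inr 0, Sum.inr 1, Sum.inr 2, Sum.inr 3]).imp ((UDef.rel 0
        [Sum.inr 0, Sum.inr 4, Sum.inr 5, Sum.inr 6]).imp
          ((UDef.eq (Sum.inr 1) (Sum.inr 4)).and ((UDef.eq (Sum.inr 2) (Sum.inr 5)).and
            (UDef.eq (Sum.inr 3) (Sum.inr 6))))))).of_iff ?_
      intro M _ v
      simp only [List.map_cons, List.map_nil, Sum.elim_inr]
    exact (key.transfer h Empty.elim Empty.elim).1 hN.c5
  · intro t
    have key : UDef bar Empty (fun M _ _ => ∃ y : Unit → M, rel bar M oI [y ()] ∧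
        rel bar M (kI t) [y ()]) := by
      refine (UDef.ex (α := Empty) (β := Unit) ((UDef.rel oI [Sum.inr ()]).and
        (UDef.rel (kI t) [Sum.inr ()]))).of_iff ?_
      intro M _ v
      simp only [List.map_cons, List.map_nil, Sum.elim_inr]
    obtain ⟨y, hy⟩ := hN.c6 t
    obtain ⟨z, hz⟩ := (key.transfer h Empty.elim Empty.elim).1 ⟨fun _ => y, hy⟩
    exact ⟨z (), hz⟩
  · intro t t' htt
    have key : UDef bar Empty (fun M _ _ => ∀ y : Unit → M, rel bar M (kI t) [y ()] →
        ¬ rel bar M (kI t') [y ()]) := by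
      refine (UDef.all (α := Empty) (β := Unit) ((UDef.rel (kI t) [Sum.inr ()]).imp
        (UDef.rel (kI t') [Sum.inr ()]).not)).of_iff ?_
      intro M _ v
      simp only [List.map_cons, List.map_nil, Sum.elim_inr]
    have h1 := (key.transfer h Empty.elim Empty.elim).1 (fun y => hN.c8 t t' htt (y ()))
    exact fun y => h1 (fun _ => y)

/-- the coordinate pattern of a tuple -/
def patP {κ n : ℕ} {β : Type} (mt : Fin κ → β) (z0 : Fin n → β ⊕ β × β × β)
    (M : Type) [(RL bar).Structure M] (d : β → M) (z : Fin n → M) : Prop :=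
  (∀ b, rel bar M oI [d b]) ∧ (∀ b b', b ≠ b' → d b ≠ d b') ∧
  (∀ t : Fin κ, rel bar M (kI t) [d (mt t)]) ∧
  ∀ k, match z0 k with
    | Sum.inl b => z k = d b
    | Sum.inr (b1, b2, b3) => rel bar M 0 [z k, d b1, d b2, d b3]

theorem patP_udef {κ n : ℕ} {β : Type} [Finite β] (mt : Fin κ → β)
    (z0 : Fin n → β ⊕ β × β × β) :
    UDef bar (β ⊕ Fin n) (fun M _ v => patP mt z0 M (v ∘ Sum.inl) (v ∘ Sum.inr)) := by
  have h1 : UDef bar (β ⊕ Fin n) (fun M _ v => ∀ b : β, rel bar M oI [v (Sum.inl b)]) :=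
    UDef.forall_fin (fun b => UDef.rel oI [Sum.inl b])
  have h2 : UDef bar (β ⊕ Fin n) (fun M _ v => ∀ b b' : β, b ≠ b' →
      v (Sum.inl b) ≠ v (Sum.inl b')) :=
    UDef.forall_fin (fun b => UDef.forall_fin (fun b' =>
      (UDef.const (b ≠ b')).imp (UDef.eq (Sum.inl b) (Sum.inl b')).not))
  have h3 : UDef bar (β ⊕ Fin n) (fun M _ v => ∀ t : Fin κ, rel bar M (kI t)
      [v (Sum.inl (mt t))]) :=
    UDef.forall_fin (fun t => UDef.rel (kI t) [Sum.inl (mt t)])
  have h4 : UDef bar (β ⊕ Fin n) (fun M _ v => ∀ k, match z0 k with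
    | Sum.inl b => v (Sum.inr k) = v (Sum.inl b)
    | Sum.inr (b1, b2, b3) => rel bar M 0 [v (Sum.inr k), v (Sum.inl b1), v (Sum.inl b2),
        v (Sum.inl b3)]) := by
    refine UDef.forall_fin (fun k => ?_)
    rcases z0 k with b | ⟨b1, b2, b3⟩
    · exact UDef.eq (Sum.inr k) (Sum.inl b)
    · exact UDef.rel 0 [Sum.inr k, Sum.inl b1, Sum.inl b2, Sum.inl b3]
  exact (h1.and (h2.and (h3.and h4))).of_iff (fun M _ v => Iff.rfl)

theorem patP_all {κ n : ℕ} {β : Type} [Finite β] (mt : Fin κ → β)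
    (z0 : Fin n → β ⊕ β × β × β) {Q : ∀ (M : Type) [(RL bar).Structure M], (Fin n → M) → Prop}
    (hQ : UDef bar (Fin n) Q) :
    UDef bar Empty (fun M _ _ => ∀ (d : β → M) (z : Fin n → M), patP mt z0 M d z → Q M z) := by
  have h := UDef.all (α := Empty) (β := β ⊕ Fin n)
    (((patP_udef mt z0).imp (hQ.relabel Sum.inr)).relabel Sum.inr)
  refine h.of_iff ?_
  intro M _ v
  constructor
  · intro H d z hp
    exact H (Sum.elim d z) hp
  · intro H w hp
    exact H _ _ hp

theorem patP_base {κ n : ℕ} {β : Type} (mt : Fin κ → β) (z0 : Fin n → β ⊕ β × β × β)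
    (p : Par) {U : Type} (u : ℕ ↪ U) (d : β → (base p).Car bar u)
    (z : Fin n → (base p).Car bar u) (h : patP mt z0 ((base p).Car bar u) d z) :
    ∃ δ : β ↪ U, (∀ t, δ (mt t) = u t) ∧ ∀ k, z k = bmap δ (z0 k) := by
  obtain ⟨h1, h2, h3, h4⟩ := h
  have h1' : ∀ b, ∃ y, d b = (Sum.inl y : U ⊕ U × U × U) := fun b => (rel_oI p u _).1 (h1 b)
  choose δ hδ using h1'
  refine ⟨⟨δ, ?_⟩, ?_, ?_⟩
  · intro b b' hb
    by_contra hne
    apply h2 b b' hne
    rw [hδ, hδ, hb]
  · intro t
    have := (rel_kI p u t _).1 (h3 t)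
    rw [hδ] at this
    exact Sum.inl_injective this
  · intro k
    have h5 := h4 k
    rcases hz : z0 k with b | ⟨b1, b2, b3⟩
    · rw [hz] at h5
      exact h5.trans (hδ b)
    · rw [hz] at h5
      obtain ⟨r, a, w, e0, e1, e2, e3⟩ := (rel_zero p u _ _ _ _).1 h5
      rw [hδ] at e1 e2 e3
      rw [← Sum.inl_injective e1, ← Sum.inl_injective e2, ← Sum.inl_injective e3] at e0
      exact e0

theorem pattern_dichotomy (p : Par) (idx : ℕ) {β : Type} [Finite β] (mt : Fin (bK p idx) → β)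
    (z0 : Fin (bar (idx + 1)) → β ⊕ β × β × β) :
    (∀ (d : β → (base p).Car bar (Function.Embedding.refl ℕ))
      (z : Fin (bar (idx + 1)) → (base p).Car bar (Function.Embedding.refl ℕ)),
      patP mt z0 ((base p).Car bar (Function.Embedding.refl ℕ)) d z →
        rel bar ((base p).Car bar (Function.Embedding.refl ℕ)) (idx + 1) (List.ofFn z)) ∨
    (∀ (d : β → (base p).Car bar (Function.Embedding.refl ℕ))
      (z : Fin (bar (idx + 1)) → (base p).Car bar (Function.Embedding.refl ℕ)),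
      patP mt z0 ((base p).Car bar (Function.Embedding.refl ℕ)) d z →
        ¬ rel bar ((base p).Car bar (Function.Embedding.refl ℕ)) (idx + 1) (List.ofFn z)) := by
  by_contra hcon
  rw [not_or] at hcon
  obtain ⟨hA, hB⟩ := hcon
  push Not at hA hB
  obtain ⟨d, z, hp, hz⟩ := hA
  obtain ⟨d', z', hp', hz'⟩ := hB
  apply hz
  obtain ⟨δ, hδ1, hδ2⟩ := patP_base mt z0 p _ d z hp
  obtain ⟨δ', hδ1', hδ2'⟩ := patP_base mt z0 p _ d' z' hp'
  obtain ⟨σ, hσ⟩ := Equiv.Perm.exists_extending_pair δ' δ δ'.injective δ.injective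
  have hfix : ∀ t < bK p idx, σ t = t := by
    intro t ht
    have e1 := hσ (mt ⟨t, ht⟩)
    rw [hδ1, hδ1'] at e1
    exact e1
  have e2 : ∀ k, z k = bmap σ.toEmbedding (z' k) := by
    intro k
    rw [hδ2, hδ2']
    rcases z0 k with b | ⟨b1, b2, b3⟩
    · rw [bmap_inl, bmap_inl, bmap_inl]
      exact congrArg Sum.inl (hσ b).symm
    · rw [bmap_inr, bmap_inr, bmap_inr]
      have := hσ b1
      have := hσ b2
      have := hσ b3
      simp only [Equiv.toEmbedding_apply]
      rw [hσ b1, hσ b2, hσ b3]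
  have e3 := (base p).rel_mp bar (Function.Embedding.refl ℕ) (Function.Embedding.refl ℕ)
    σ.toEmbedding (idx + 1) (List.ofFn z') (fun t ht => hfix t ht)
  have e4 : List.map ((base p).mp bar (Function.Embedding.refl ℕ) (Function.Embedding.refl ℕ)
    σ.toEmbedding) (List.ofFn z') = List.ofFn z := by
    rw [List.map_ofFn]
    congr 1
    funext k
    exact (e2 k).symm
  rw [e4] at e3
  exact e3.2 hz'

/-- tuples realize their pattern -/
theorem patP_of {U M : Type} [(RL bar).Structure M] (u : ℕ ↪ U) (e : U ⊕ U × U × U → M)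
    (h1 : ∀ x, rel bar M oI [e (Sum.inl x)]) (h2 : ∀ x y, e (Sum.inl x) = e (Sum.inl y) → x = y)
    (h3 : ∀ t, rel bar M (kI t) [e (Sum.inl (u t))])
    (h4 : ∀ r a w, rel bar M 0 [e (Sum.inr (r, a, w)), e (Sum.inl r), e (Sum.inl a),
      e (Sum.inl w)]) {κ n : ℕ} {β : Type} (mt : Fin κ → β) (z0 : Fin n → β ⊕ β × β × β)
    (δ : β ↪ U) (hδ : ∀ t, δ (mt t) = u t) :
    patP mt z0 M (fun b => e (Sum.inl (δ b))) (fun k => e (bmap δ (z0 k))) := by
  refine ⟨fun b => h1 _, ?_, ?_, ?_⟩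
  · intro b b' hne h
    exact hne (δ.injective (h2 _ _ h))
  · intro t
    show rel bar M (kI t) [e (Sum.inl (δ (mt t)))]
    rw [hδ]
    exact h3 t
  · intro k
    show match z0 k with
      | Sum.inl b => e (bmap δ (z0 k)) = e (Sum.inl (δ b))
      | Sum.inr (b1, b2, b3) => rel bar M 0 [e (bmap δ (z0 k)), e (Sum.inl (δ b1)),
          e (Sum.inl (δ b2)), e (Sum.inl (δ b3))]
    rcases z0 k with b | ⟨b1, b2, b3⟩
    · rfl
    · exact h4 _ _ _

theorem good_base (p : Par) : Good bar (base p) where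
  rigid := by
    intro U U' u u' h
    have h1 : ∀ x : U, ∃ y : U', h (Sum.inl x : U ⊕ U × U × U) = (Sum.inl y : U' ⊕ U' × U' × U') := by
      intro x
      have a1 : rel bar ((base p).Car bar u) oI [(Sum.inl x : U ⊕ U × U × U)] :=
        (rel_oI p u _).2 ⟨x, rfl⟩
      have a2 := (rel_emb h _ _).2 a1
      exact (rel_oI p u' _).1 a2
    choose g hg using h1
    have hginj : Function.Injective g := by
      intro x y hxy
      have : h (Sum.inl x : U ⊕ U × U × U) = h (Sum.inl y : U ⊕ U × U × U) := by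
        rw [hg, hg, hxy]
      exact Sum.inl_injective (h.injective this)
    refine ⟨⟨g, hginj⟩, ?_, ?_⟩
    · intro t
      have a1 : rel bar ((base p).Car bar u) (kI t) [(Sum.inl (u t) : U ⊕ U × U × U)] :=
        (rel_kI p u t _).2 rfl
      have a2 := (rel_emb h _ _).2 a1
      have a3 := (rel_kI p u' t _).1 a2
      rw [hg] at a3
      exact Sum.inl_injective a3
    · intro x
      match x with
      | Sum.inl x => exact hg x
      | Sum.inr (r, a, w) =>
        have a1 : rel bar ((base p).Car bar u) 0 [(Sum.inr (r, a, w) : U ⊕ U × U × U),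
            (Sum.inl r : U ⊕ U × U × U), (Sum.inl a : U ⊕ U × U × U),
            (Sum.inl w : U ⊕ U × U × U)] :=
          (rel_zero p u _ _ _ _).2 ⟨r, a, w, rfl, rfl, rfl, rfl⟩
        have a2 := (rel_emb h _ _).2 a1
        obtain ⟨r', a', w', e0, e1, e2, e3⟩ := (rel_zero p u' _ _ _ _).1 a2
        rw [hg] at e1 e2 e3
        rw [← Sum.inl_injective e1, ← Sum.inl_injective e2, ← Sum.inl_injective e3] at e0
        exact e0
  classif := by
    classical
    intro N _ hN
    have hax : BaseAx N := BaseAx.of_equiv hN (baseAx_base p _)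
    let U := {x : N // rel bar N oI [x]}
    have hmk : ∀ t, ∃ y : U, rel bar N (kI t) [y.1] := by
      intro t
      obtain ⟨y, h1, h2⟩ := hax.c6 t
      exact ⟨⟨y, h1⟩, h2⟩
    choose u0 hu0 using hmk
    have hu0inj : Function.Injective u0 := by
      intro t t' h
      by_contra hne
      have h1 := hu0 t
      rw [h] at h1
      exact hax.c8 t t' hne _ h1 (hu0 t')
    let u : ℕ ↪ U := ⟨u0, hu0inj⟩
    have hv : ∀ r a w : U, ∃ v : N, rel bar N 0 [v, r.1, a.1, w.1] := by
      intro r a w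
      exact hax.c3 ![r.1, a.1, w.1] ⟨r.2, a.2, w.2⟩
    choose vv hvv using hv
    let e : U ⊕ U × U × U → N := fun x => match x with
      | Sum.inl x => x.1
      | Sum.inr (r, a, w) => vv r a w
    have c5 : ∀ v r a w r' a' w' : N, rel bar N 0 [v, r, a, w] → rel bar N 0 [v, r', a', w'] →
        r = r' ∧ a = a' ∧ w = w' := by
      intro v r a w r' a' w' h h'
      exact hax.c5 ![v, r, a, w, r', a', w'] h h'
    have c4 : ∀ v v' r a w : N, rel bar N 0 [v, r, a, w] → rel bar N 0 [v', r, a, w] →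
        v = v' := by
      intro v v' r a w h h'
      exact hax.c4 ![v, v', r, a, w] h h'
    have c2 : ∀ v r a w : N, rel bar N 0 [v, r, a, w] → ¬ rel bar N oI [v] ∧
        rel bar N oI [r] ∧ rel bar N oI [a] ∧ rel bar N oI [w] := by
      intro v r a w h
      exact hax.c2 ![v, r, a, w] h
    have hbij : Function.Bijective e := by
      constructor
      · rintro (x | ⟨r, a, w⟩) (y | ⟨r', a', w'⟩) h
        · rw [Subtype.ext h]
        · exfalso
          have h1 := (c2 _ _ _ _ (hvv r' a' w')).1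
          have h2 : x.1 = vv r' a' w' := h
          rw [← h2] at h1
          exact h1 x.2
        · exfalso
          have h1 := (c2 _ _ _ _ (hvv r a w)).1
          have h2 : vv r a w = y.1 := h
          rw [h2] at h1
          exact h1 y.2
        · have h1 := hvv r a w
          have h2 := hvv r' a' w'
          have h3 : vv r a w = vv r' a' w' := h
          rw [h3] at h1
          obtain ⟨e1, e2, e3⟩ := c5 _ _ _ _ _ _ _ h1 h2
          rw [Subtype.ext e1, Subtype.ext e2, Subtype.ext e3]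
      · intro v
        by_cases hvO : rel bar N oI [v]
        · exact ⟨Sum.inl ⟨v, hvO⟩, rfl⟩
        · obtain ⟨y, hy⟩ := hax.c1 v hvO
          obtain ⟨_, h1, h2, h3⟩ := c2 _ _ _ _ hy
          refine ⟨Sum.inr (⟨y 0, h1⟩, ⟨y 1, h2⟩, ⟨y 2, h3⟩), ?_⟩
          exact c4 _ _ _ _ _ (hvv ⟨y 0, h1⟩ ⟨y 1, h2⟩ ⟨y 2, h3⟩) hy
    have key : ∀ (i : ℕ) (L : List (U ⊕ U × U × U)), L.length = bar i →
        (rel bar N i (L.map e) ↔ rel bar ((base p).Car bar u) i L) := by
      intro i L hL
      cases i with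
      | zero =>
        match L, hL with
        | [v, r, a, w], _ =>
          refine Iff.trans ?_ (rel_zero p u v r a w).symm
          constructor
          · intro h
            obtain ⟨hv0, hr, ha, hw⟩ := c2 _ _ _ _ h
            have hr' : ∃ r' : U, r = Sum.inl r' := by
              rcases r with r | ⟨x, y, z⟩
              · exact ⟨r, rfl⟩
              · exact absurd hr (c2 _ _ _ _ (hvv x y z)).1
            have ha' : ∃ a' : U, a = Sum.inl a' := by
              rcases a with a | ⟨x, y, z⟩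
              · exact ⟨a, rfl⟩
              · exact absurd ha (c2 _ _ _ _ (hvv x y z)).1
            have hw' : ∃ w' : U, w = Sum.inl w' := by
              rcases w with w | ⟨x, y, z⟩
              · exact ⟨w, rfl⟩
              · exact absurd hw (c2 _ _ _ _ (hvv x y z)).1
            obtain ⟨r', rfl⟩ := hr'
            obtain ⟨a', rfl⟩ := ha'
            obtain ⟨w', rfl⟩ := hw'
            refine ⟨r', a', w', ?_, rfl, rfl, rfl⟩
            apply hbij.1
            exact c4 _ _ _ _ _ h (hvv r' a' w')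
          · rintro ⟨r', a', w', rfl, rfl, rfl, rfl⟩
            exact hvv r' a' w'
      | succ idx =>
        obtain ⟨x, rfl⟩ := exists_ofFn L hL
        let S : Finset U := ((Finset.range (bK p idx)).image u) ∪
          Finset.univ.biUnion (fun k => (base p).supp (x k))
        let β := {s : U // s ∈ S}
        let δ : β ↪ U := ⟨Subtype.val, Subtype.val_injective⟩
        let mt : Fin (bK p idx) → β := fun t => ⟨u t, by
          simp only [S, Finset.mem_union, Finset.mem_image, Finset.mem_range]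
          exact Or.inl ⟨t, t.2, rfl⟩⟩
        have hz : ∀ k, ∃ z : β ⊕ β × β × β, bmap δ z = x k := by
          intro k
          apply (base p).exists_map δ (x k)
          intro s hs
          refine ⟨⟨s, ?_⟩, rfl⟩
          simp only [S, Finset.mem_union, Finset.mem_biUnion, Finset.mem_univ, true_and]
          exact Or.inr ⟨k, hs⟩
        choose z0 hz0 using hz
        have pN := patP_of u e (fun x => x.2) (fun x y h => Subtype.ext h) hu0
          (fun r a w => hvv r a w) mt z0 δ (fun t => rfl)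
        have pC := patP_of (M := (base p).Car bar u) u (fun x => x)
          (fun x => (rel_oI p u _).2 ⟨x, rfl⟩) (fun x y h => Sum.inl_injective h)
          (fun t => (rel_kI p u t _).2 rfl)
          (fun r a w => (rel_zero p u _ _ _ _).2 ⟨r, a, w, rfl, rfl, rfl, rfl⟩) mt z0 δ
          (fun t => rfl)
        have hxN : (fun k => e (bmap δ (z0 k))) = fun k => e (x k) := by
          funext k; rw [hz0]
        have hxC : (fun k => (bmap δ (z0 k) : (base p).Car bar u)) = x := by
          funext k; exact hz0 k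
        rw [hxN] at pN
        rw [hxC] at pC
        have hrelU : UDef bar (Fin (bar (idx + 1)))
            (fun M _ v => rel bar M (idx + 1) (List.ofFn v)) := by
          refine (UDef.rel (idx + 1) (List.ofFn id)).of_iff ?_
          intro M _ v
          rw [List.map_ofFn]
          rfl
        rw [List.map_ofFn]
        rcases pattern_dichotomy p idx mt z0 with hpos | hneg
        · have t1 := ((patP_all mt z0 hrelU).transfer hN Empty.elim Empty.elim).1 hpos
          have t2 := ((patP_all mt z0 hrelU).transfer (equiv_car (base p) u)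
            Empty.elim Empty.elim).1 hpos
          exact iff_of_true (t1 _ _ pN) (t2 _ _ pC)
        · have t1 := ((patP_all mt z0 hrelU.not).transfer hN Empty.elim Empty.elim).1 hneg
          have t2 := ((patP_all mt z0 hrelU.not).transfer (equiv_car (base p) u)
            Empty.elim Empty.elim).1 hneg
          exact iff_of_false (t1 _ _ pN) (t2 _ _ pC)
    exact ⟨U, u, ⟨(mkEquiv (M := (base p).Car bar u) (N := N) (Equiv.ofBijective e hbij)
      key).symm⟩⟩
  card := by
    intro U _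
    show #(U ⊕ U × U × U) = #U
    have h0 := Cardinal.aleph0_le_mk U
    simp only [Cardinal.mk_sum, Cardinal.lift_id, Cardinal.mk_prod]
    rw [Cardinal.mul_eq_self h0, Cardinal.mul_eq_self h0, Cardinal.add_eq_self h0]

end Pool.Agent.H494_SCM
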