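import Pool.Agent.H494_SCM.BasePres1

/-! Presentations of members of the base family. -/

namespace Pool.Agent.H494_SCM

/-- the recoding of a row -/
noncomputable def EncR (u mi : ℕ → ℕ) (bit : ℕ → Prop) (enc0 enc1 : ℕ → ℕ × ℕ → ℕ × ℕ) (r : ℕ)
    (x : ℕ × ℕ) : ℕ × ℕ :=
  open Classical in
  if u (mi r) = r then (if bit (mi r) then enc1 (mi r) x else enc0 (mi r) x) else x

theorem pres_base (p : Par) (u : ℕ ↪ ℕ) (hu : Computable u) (mi : ℕ → ℕ) (hmi : Computable mi)
    (hmi2 : ∀ t, mi (u t) = t) (NC : ℕ → ℕ → ℕ) (hNC : Computable (fun x : ℕ × ℕ => NC x.1 x.2))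
    (enc0 enc1 : ℕ → ℕ × ℕ → ℕ × ℕ)
    (h0 : Computable (fun x : ℕ × (ℕ × ℕ) => enc0 x.1 x.2))
    (h1 : Computable (fun x : ℕ × (ℕ × ℕ) => enc1 x.1 x.2))
    (ok0 : ∀ i, ¬ p.bit i → EncOK p u i (NC i) (enc0 i))
    (ok1 : ∀ i, p.bit i → EncOK p u i (NC i) (enc1 i))
    (hQ : ComputablePred (fun x : (ℕ × ℕ) × List ℕ => x.2.length = x.1.1 + 1 ∧ x.2.Nodup ∧
      ∃ s, p.st x.1.1 x.1.2 = some s ∧ ∀ t < s, u t ∉ x.2)) {m : ℕ} (hbit : LP m p.bit) :
    Pres bar ((base p).str u) (fun H => LP m H) := by
  classical
  let E := EncR u mi p.bit enc0 enc1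
  have okR : ∀ i, EncOK p u i (NC i) (E (u i)) := by
    intro i
    by_cases hb : p.bit i
    · have : E (u i) = enc1 i := by
        funext x
        simp only [E, EncR, hmi2, if_true, hb]
      rw [this]; exact ok1 i hb
    · have : E (u i) = enc0 i := by
        funext x
        simp only [E, EncR, hmi2, if_true, hb, if_false]
      rw [this]; exact ok0 i hb
  have hbij : ∀ r, Function.Bijective (E r) := by
    intro r
    by_cases hr : u (mi r) = r
    · have := (okR (mi r)).bij
      rw [hr] at this; exact this
    · have : E r = id := by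
        funext x
        simp only [E, EncR, hr, if_false, id]
      rw [this]; exact Function.bijective_id
  let ee : DD ≃ DD := Equiv.sumCongr (Equiv.refl ℕ)
    (Equiv.prodShear (Equiv.refl ℕ) (fun r => Equiv.ofBijective (E r) (hbij r)))
  have hee1 : ∀ x, ee (Sum.inl x) = Sum.inl x := fun x => rfl
  have hee2 : ∀ r x, ee (Sum.inr (r, x)) = Sum.inr (r, E r x) := fun r x => rfl
  let e : DD ≃ ℕ := ee.trans (Denumerable.eqv DD)
  have hofn : ∀ L : List DD, (L.map e).map (Denumerable.ofNat DD) = L.map ee := by
    intro L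
    rw [List.map_map]
    apply List.map_congr_left
    intro a _
    exact (Denumerable.eqv DD).symm_apply_apply (ee a)
  have cof : Computable (fun l : List ℕ => l.map (Denumerable.ofNat DD)) :=
    (Primrec.list_map Primrec.id ((Primrec.ofNat DD).comp₂ Primrec₂.right)).to_comp
  let Qc : (ℕ × ℕ) × List ℕ → Prop := fun x => x.2.length = x.1.1 + 1 ∧ x.2.Nodup ∧
      ∃ s, p.st x.1.1 x.1.2 = some s ∧ ∀ t < s, u t ∉ x.2
  let HH : List DD → Prop := fun L => ∃ r a w, L = [Sum.inr (r, E r (a, w)), Sum.inl r,
    Sum.inl a, Sum.inl w]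
  refine ⟨e, fun x => VV u NC Qc (x.1, x.2.map (Denumerable.ofNat DD)),
    fun l => HH (l.map (Denumerable.ofNat DD)), ?_, ?_, ?_, ?_⟩
  · exact cp_comp (VV_comp u hu NC hNC Qc hQ)
      (Computable.pair Computable.fst (cof.comp Computable.snd))
  · -- the hidden relation
    have hHH : LP m HH := by
      have g1 : Computable (fun L : List DD => toN L.tail.headI) :=
        toN_comp.comp (Primrec.list_headI.to_comp.comp Primrec.list_tail.to_comp)
      have g2 : Computable (fun L : List DD => toN L.tail.tail.headI) :=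
        toN_comp.comp (Primrec.list_headI.to_comp.comp (Primrec.list_tail.to_comp.comp
          Primrec.list_tail.to_comp))
      have g3 : Computable (fun L : List DD => toN L.tail.tail.tail.headI) :=
        toN_comp.comp (Primrec.list_headI.to_comp.comp (Primrec.list_tail.to_comp.comp
          (Primrec.list_tail.to_comp.comp Primrec.list_tail.to_comp)))
      have glist : ∀ f : List DD → ℕ × ℕ, Computable f → ComputablePred (fun L : List DD =>
          L = [Sum.inr (toN L.tail.headI, f L), Sum.inl (toN L.tail.headI),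
            Sum.inl (toN L.tail.tail.headI), Sum.inl (toN L.tail.tail.tail.headI)]) := by
        intro f hf
        refine cp_eq Computable.id ?_
        refine Computable.list_cons.comp (Computable.sumInr.comp (Computable.pair g1 hf)) ?_
        refine Computable.list_cons.comp (Computable.sumInl.comp g1) ?_
        refine Computable.list_cons.comp (Computable.sumInl.comp g2) ?_
        exact Computable.list_cons.comp (Computable.sumInl.comp g3) (Computable.const [])
      have hmir : Computable (fun L : List DD => mi (toN L.tail.headI)) := hmi.comp g1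
      have hmk : ComputablePred (fun L : List DD => u (mi (toN L.tail.headI)) =
          toN L.tail.headI) := cp_eq (hu.comp hmir) g1
      have hb : LP m (fun L : List DD => p.bit (mi (toN L.tail.headI))) := hbit.comp hmir
      have f0 : Computable (fun L : List DD => enc0 (mi (toN L.tail.headI))
          (toN L.tail.tail.headI, toN L.tail.tail.tail.headI)) :=
        h0.comp (Computable.pair hmir (Computable.pair g2 g3))
      have f1 : Computable (fun L : List DD => enc1 (mi (toN L.tail.headI))
          (toN L.tail.tail.headI, toN L.tail.tail.tail.headI)) :=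
        h1.comp (Computable.pair hmir (Computable.pair g2 g3))
      have main : LP m (fun L : List DD =>
          (¬ (u (mi (toN L.tail.headI)) = toN L.tail.headI) ∧
            L = [Sum.inr (toN L.tail.headI, (toN L.tail.tail.headI,
              toN L.tail.tail.tail.headI)), Sum.inl (toN L.tail.headI),
              Sum.inl (toN L.tail.tail.headI), Sum.inl (toN L.tail.tail.tail.headI)]) ∨
          (u (mi (toN L.tail.headI)) = toN L.tail.headI ∧
            ((p.bit (mi (toN L.tail.headI)) ∧
              L = [Sum.inr (toN L.tail.headI, enc1 (mi (toN L.tail.headI))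
                (toN L.tail.tail.headI, toN L.tail.tail.tail.headI)),
                Sum.inl (toN L.tail.headI),
                Sum.inl (toN L.tail.tail.headI), Sum.inl (toN L.tail.tail.tail.headI)]) ∨
            (¬ p.bit (mi (toN L.tail.headI)) ∧
              L = [Sum.inr (toN L.tail.headI, enc0 (mi (toN L.tail.headI))
                (toN L.tail.tail.headI, toN L.tail.tail.tail.headI)),
                Sum.inl (toN L.tail.headI),
                Sum.inl (toN L.tail.tail.headI), Sum.inl (toN L.tail.tail.tail.headI)])))) := by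
        refine LP.or (LP.of_cp (cp_and (cp_not hmk) (glist _ (Computable.pair g2 g3))))
          (LP.and (LP.of_cp hmk) (LP.or (LP.and hb (LP.of_cp (glist _ f1)))
            (LP.and hb.not (LP.of_cp (glist _ f0)))))
      refine main.of_iff ?_
      intro L
      constructor
      · rintro ⟨r, a, w, rfl⟩
        show (¬ (u (mi r) = r) ∧ _ = [Sum.inr (r, (a, w)), Sum.inl r, Sum.inl a, Sum.inl w]) ∨
          (u (mi r) = r ∧ ((p.bit (mi r) ∧ _ = [Sum.inr (r, enc1 (mi r) (a, w)), Sum.inl r,
            Sum.inl a, Sum.inl w]) ∨ (¬ p.bit (mi r) ∧ _ = [Sum.inr (r, enc0 (mi r) (a, w)),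
            Sum.inl r, Sum.inl a, Sum.inl w])))
        by_cases hr : u (mi r) = r
        · right
          refine ⟨hr, ?_⟩
          by_cases hb : p.bit (mi r)
          · left
            refine ⟨hb, ?_⟩
            simp only [E, EncR, hr, if_true, hb]
          · right
            refine ⟨hb, ?_⟩
            simp only [E, EncR, hr, if_true, hb, if_false]
        · left
          refine ⟨hr, ?_⟩
          simp only [E, EncR, hr, if_false]
      · rintro (⟨hr, hL⟩ | ⟨hr, ⟨hb, hL⟩ | ⟨hb, hL⟩⟩)
        · refine ⟨toN L.tail.headI, toN L.tail.tail.headI, toN L.tail.tail.tail.headI,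
            hL.trans ?_⟩
          simp only [E, EncR, hr, if_false]
        · refine ⟨toN L.tail.headI, toN L.tail.tail.headI, toN L.tail.tail.tail.headI,
            hL.trans ?_⟩
          simp only [E, EncR, hr, if_true, hb]
        · refine ⟨toN L.tail.headI, toN L.tail.tail.headI, toN L.tail.tail.tail.headI,
            hL.trans ?_⟩
          simp only [E, EncR, hr, if_true, hb, if_false]
    exact hHH.comp cof
  · -- visible relations
    intro idx L hL
    show bV p u idx L ↔ VV u NC Qc (idx, (L.map e).map (Denumerable.ofNat DD))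
    rw [hofn]
    have hinj : ∀ M : List DD, L.map ee = M.map ee ↔ L = M := fun M =>
      (List.map_injective_iff.2 ee.injective).eq_iff
    unfold bV VV
    simp only
    rcases hkk : (Nat.unpair idx).1 with _ | _ | _ | _ | _ | k
    · constructor
      · rintro ⟨x, rfl⟩; exact ⟨x, rfl⟩
      · rintro ⟨x, hx⟩
        exact ⟨x, (hinj [Sum.inl x]).1 hx⟩
    · exact (hinj [Sum.inl (u (Nat.unpair idx).2)]).symm
    · have ok := okR (Nat.unpair idx).2
      constructor
      · rintro ⟨a, w, a', w', rfl, hc⟩
        rw [ok.cl a w a' w'] at hc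
        refine ⟨(E (u (Nat.unpair idx).2) (a, w)).1, (E (u (Nat.unpair idx).2) (a, w)).2,
          (E (u (Nat.unpair idx).2) (a', w')).2, ?_⟩
        have h5 : E (u (Nat.unpair idx).2) (a', w') = ((E (u (Nat.unpair idx).2) (a, w)).1,
          (E (u (Nat.unpair idx).2) (a', w')).2) := Prod.ext hc.symm rfl
        rw [List.map_cons, List.map_cons, List.map_nil, hee2, hee2]
        exact congrArg (fun y => ([Sum.inr (u (Nat.unpair idx).2,
          E (u (Nat.unpair idx).2) (a, w)), Sum.inr (u (Nat.unpair idx).2, y)] : List DD)) h5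
      · rintro ⟨c, e1, e2, hx⟩
        obtain ⟨⟨a, w⟩, haw⟩ := (hbij (u (Nat.unpair idx).2)).2 (c, e1)
        obtain ⟨⟨a', w'⟩, haw'⟩ := (hbij (u (Nat.unpair idx).2)).2 (c, e2)
        refine ⟨a, w, a', w', ?_, ?_⟩
        · refine (hinj _).1 ?_
          rw [hx, List.map_cons, List.map_cons, List.map_nil, hee2, hee2, haw, haw']
        · rw [ok.cl a w a' w', haw, haw']
    · have ok := okR (Nat.unpair (Nat.unpair idx).2).1
      constructor
      · rintro ⟨a, w, rfl, hc⟩
        rw [ok.lb] at hc
        refine ⟨(E (u (Nat.unpair (Nat.unpair idx).2).1) (a, w)).1, ?_⟩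
        rw [List.map_cons, List.map_nil, hee2, ← hc]
      · rintro ⟨c, hx⟩
        obtain ⟨⟨a, w⟩, haw⟩ := (hbij (u (Nat.unpair (Nat.unpair idx).2).1)).2
          (c, u ((Nat.unpair (Nat.unpair idx).2).2 + NC (Nat.unpair (Nat.unpair idx).2).1 c))
        refine ⟨a, w, ?_, ?_⟩
        · refine (hinj _).1 ?_
          rw [hx, List.map_cons, List.map_nil, hee2, haw]
        · rw [ok.lb, haw]
    · have hml : ∀ l : List ℕ, (l.map (Sum.inl : ℕ → DD)).map ee = l.map Sum.inl := by
        intro l
        rw [List.map_map]
        rfl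
      constructor
      · rintro ⟨l, rfl, h2, h3, h4⟩
        exact ⟨l, hml l, h2, h3, h4⟩
      · rintro ⟨l, hx, h2, h3, h4⟩
        rw [← hml] at hx
        exact ⟨l, (hinj _).1 hx, h2, h3, h4⟩
    · exact Iff.rfl
  · -- hidden relation
    intro L hL
    show (∃ r a w, L = [Sum.inr (r, a, w), Sum.inl r, Sum.inl a, Sum.inl w]) ↔
      HH ((L.map e).map (Denumerable.ofNat DD))
    rw [hofn]
    have hinj : ∀ M : List DD, L.map ee = M.map ee ↔ L = M := fun M =>
      (List.map_injective_iff.2 ee.injective).eq_iff
    constructor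
    · rintro ⟨r, a, w, rfl⟩
      exact ⟨r, a, w, rfl⟩
    · rintro ⟨r, a, w, hx⟩
      refine ⟨r, a, w, (hinj _).1 ?_⟩
      rw [hx]
      rfl

end Pool.Agent.H494_SCM
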