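import Pool.Agent.H494_SCM.Enc
import Pool.Agent.H494_SCM.CompTools

/-! Presentations of members of the base family. -/

namespace Pool.Agent.H494_SCM

/-- coordinates -/
abbrev DD : Type := ℕ ⊕ ℕ × ℕ × ℕ

/-- decoding of elements of the first sort -/
def toN : DD → ℕ := Sum.elim id (fun _ => 0)

/-- decoding of elements of the second sort -/
def toT : DD → ℕ × ℕ × ℕ := Sum.elim (fun _ => (0, 0, 0)) id

theorem toN_comp : Computable toN := by
  have h : Primrec (fun x : DD => Sum.casesOn (motive := fun _ => ℕ) x (fun y => y) (fun _ => 0)) :=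
    Primrec.sumCasesOn Primrec.id Primrec₂.right (Primrec₂.const 0)
  refine h.to_comp.of_eq ?_
  rintro (x | x) <;> rfl

theorem toT_comp : Computable toT := by
  have h : Primrec (fun x : DD => Sum.casesOn (motive := fun _ => ℕ × ℕ × ℕ) x
      (fun _ => ((0 : ℕ), (0 : ℕ), (0 : ℕ))) (fun y => y)) :=
    Primrec.sumCasesOn Primrec.id (Primrec₂.const _) Primrec₂.right
  refine h.to_comp.of_eq ?_
  rintro (x | x) <;> rfl

/-- visible relations in coordinates -/
def VV (u : ℕ → ℕ) (NC : ℕ → ℕ → ℕ) (Qc : (ℕ × ℕ) × List ℕ → Prop) (x : ℕ × List DD) : Prop :=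
  match (Nat.unpair x.1).1 with
  | 0 => ∃ y, x.2 = [Sum.inl y]
  | 1 => x.2 = [Sum.inl (u (Nat.unpair x.1).2)]
  | 2 => ∃ c e e', x.2 = [Sum.inr (u (Nat.unpair x.1).2, c, e),
      Sum.inr (u (Nat.unpair x.1).2, c, e')]
  | 3 => ∃ c, x.2 = [Sum.inr (u (Nat.unpair (Nat.unpair x.1).2).1, c,
      u ((Nat.unpair (Nat.unpair x.1).2).2 + NC (Nat.unpair (Nat.unpair x.1).2).1 c))]
  | 4 => ∃ l : List ℕ, x.2 = l.map Sum.inl ∧ Qc (Nat.unpair (Nat.unpair x.1).2, l)
  | _ => False

theorem VV_comp (u : ℕ → ℕ) (hu : Computable u) (NC : ℕ → ℕ → ℕ)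
    (hNC : Computable (fun x : ℕ × ℕ => NC x.1 x.2)) (Qc : (ℕ × ℕ) × List ℕ → Prop)
    (hQ : ComputablePred Qc) : ComputablePred (VV u NC Qc) := by
  have hd : Computable (fun x : ℕ × List DD => x.2.headI) :=
    Primrec.list_headI.to_comp.comp Computable.snd
  have hd2 : Computable (fun x : ℕ × List DD => x.2.tail.headI) :=
    Primrec.list_headI.to_comp.comp (Primrec.list_tail.to_comp.comp Computable.snd)
  have hk : Computable (fun x : ℕ × List DD => (Nat.unpair x.1).1) :=
    Computable.fst.comp (Computable.unpair.comp Computable.fst)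
  have hp : Computable (fun x : ℕ × List DD => (Nat.unpair x.1).2) :=
    Computable.snd.comp (Computable.unpair.comp Computable.fst)
  have hpi : Computable (fun x : ℕ × List DD => (Nat.unpair (Nat.unpair x.1).2).1) :=
    Computable.fst.comp (Computable.unpair.comp hp)
  have hpm : Computable (fun x : ℕ × List DD => (Nat.unpair (Nat.unpair x.1).2).2) :=
    Computable.snd.comp (Computable.unpair.comp hp)
  have hc1 : Computable (fun x : ℕ × List DD => (toT x.2.headI).2.1) :=
    Computable.fst.comp (Computable.snd.comp (toT_comp.comp hd))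
  have he1 : Computable (fun x : ℕ × List DD => (toT x.2.headI).2.2) :=
    Computable.snd.comp (Computable.snd.comp (toT_comp.comp hd))
  have he2 : Computable (fun x : ℕ × List DD => (toT x.2.tail.headI).2.2) :=
    Computable.snd.comp (Computable.snd.comp (toT_comp.comp hd2))
  have hl1 : ∀ f : ℕ × List DD → DD, Computable f → Computable (fun x => [f x]) := fun f hf =>
    Computable.list_cons.comp hf (Computable.const [])
  have hl2 : ∀ f g : ℕ × List DD → DD, Computable f → Computable g →
      Computable (fun x => [f x, g x]) := fun f g hf hg =>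
    Computable.list_cons.comp hf (hl1 g hg)
  have hinr : ∀ f g h : ℕ × List DD → ℕ, Computable f → Computable g → Computable h →
      Computable (fun x => (Sum.inr (f x, g x, h x) : DD)) := fun f g h hf hg hh =>
    Computable.sumInr.comp (Computable.pair hf (Computable.pair hg hh))
  have hmapN : Computable (fun x : ℕ × List DD => x.2.map toN) := by
    have h1 : Primrec (fun x : DD => toN x) := by
      have h : Primrec (fun x : DD => Sum.casesOn (motive := fun _ => ℕ) x
          (fun y => y) (fun _ => 0)) :=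
        Primrec.sumCasesOn Primrec.id Primrec₂.right (Primrec₂.const 0)
      refine h.of_eq ?_
      rintro (x | x) <;> rfl
    exact (Primrec.list_map Primrec.snd (h1.comp₂ Primrec₂.right)).to_comp
  have hmapI : Computable (fun x : ℕ × List DD => (x.2.map toN).map (Sum.inl : ℕ → DD)) := by
    have h1 : Computable (fun l : List ℕ => l.map (Sum.inl : ℕ → DD)) :=
      (Primrec.list_map Primrec.id (Primrec.sumInl.comp₂ Primrec₂.right)).to_comp
    exact h1.comp hmapN
  have main : ComputablePred (fun x : ℕ × List DD =>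
      ((Nat.unpair x.1).1 = 0 ∧ x.2 = [Sum.inl (toN x.2.headI)]) ∨
      ((Nat.unpair x.1).1 = 1 ∧ x.2 = [Sum.inl (u (Nat.unpair x.1).2)]) ∨
      ((Nat.unpair x.1).1 = 2 ∧ x.2 = [Sum.inr (u (Nat.unpair x.1).2, (toT x.2.headI).2.1,
          (toT x.2.headI).2.2), Sum.inr (u (Nat.unpair x.1).2, (toT x.2.headI).2.1,
          (toT x.2.tail.headI).2.2)]) ∨
      ((Nat.unpair x.1).1 = 3 ∧ x.2 = [Sum.inr (u (Nat.unpair (Nat.unpair x.1).2).1,
        (toT x.2.headI).2.1, u ((Nat.unpair (Nat.unpair x.1).2).2 +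
          NC (Nat.unpair (Nat.unpair x.1).2).1 (toT x.2.headI).2.1))]) ∨
      ((Nat.unpair x.1).1 = 4 ∧ x.2 = (x.2.map toN).map Sum.inl ∧
        Qc (Nat.unpair (Nat.unpair x.1).2, x.2.map toN))) := by
    refine cp_or (cp_and (cp_eq hk (Computable.const 0)) (cp_eq Computable.snd ?_))
      (cp_or (cp_and (cp_eq hk (Computable.const 1)) (cp_eq Computable.snd ?_))
      (cp_or (cp_and (cp_eq hk (Computable.const 2)) (cp_eq Computable.snd ?_))
      (cp_or (cp_and (cp_eq hk (Computable.const 3)) (cp_eq Computable.snd ?_))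
      (cp_and (cp_eq hk (Computable.const 4)) (cp_and (cp_eq Computable.snd hmapI) ?_)))))
    · exact hl1 _ (Computable.sumInl.comp (toN_comp.comp hd))
    · exact hl1 _ (Computable.sumInl.comp (hu.comp hp))
    · exact hl2 _ _ (hinr _ _ _ (hu.comp hp) hc1 he1) (hinr _ _ _ (hu.comp hp) hc1 he2)
    · refine hl1 _ (hinr _ _ _ (hu.comp hpi) hc1 (hu.comp ?_))
      have h1 := (hNC.comp (Computable.pair hpi hc1))
      have h2 := c_add hpm h1
      exact h2
    · exact cp_comp hQ (f := fun x : ℕ × List DD =>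
        (Nat.unpair (Nat.unpair x.1).2, x.2.map toN))
        (Computable.pair (Computable.unpair.comp hp) hmapN)
  refine cp_of_iff main ?_
  rintro ⟨idx, L⟩
  unfold VV
  simp only
  rcases hkk : (Nat.unpair idx).1 with _ | _ | _ | _ | _ | k
  · simp only [true_and, zero_ne_one, false_and, false_or, or_false, OfNat.zero_ne_ofNat]
    constructor
    · rintro ⟨y, rfl⟩; rfl
    · intro h; exact ⟨_, h⟩
  · simp
  · simp only [zero_add, Nat.reduceAdd, OfNat.ofNat_ne_zero, false_and, OfNat.ofNat_ne_one,
      true_and, Nat.reduceEqDiff, or_false, false_or]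
    constructor
    · rintro ⟨c, e, e', rfl⟩; rfl
    · intro h; exact ⟨_, _, _, h⟩
  · simp only [zero_add, Nat.reduceAdd, OfNat.ofNat_ne_zero, false_and, OfNat.ofNat_ne_one,
      true_and, Nat.reduceEqDiff, or_false, false_or]
    constructor
    · rintro ⟨c, rfl⟩; rfl
    · intro h; exact ⟨_, h⟩
  · simp only [zero_add, Nat.reduceAdd, OfNat.ofNat_ne_zero, false_and, OfNat.ofNat_ne_one,
      true_and, Nat.reduceEqDiff, false_or]
    have hmm : ∀ l : List ℕ, (l.map (Sum.inl : ℕ → DD)).map toN = l := by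
      intro l
      rw [List.map_map]
      conv_rhs => rw [← List.map_id l]
      rfl
    constructor
    · rintro ⟨l, rfl, h⟩
      rw [hmm]
      exact ⟨rfl, h⟩
    · rintro ⟨h1, h2⟩
      exact ⟨_, h1, h2⟩
  · simp only [false_iff, not_or, not_and]
    refine ⟨fun h => by omega, fun h => by omega, fun h => by omega, fun h => by omega,
      fun h => by omega⟩

end Pool.Agent.H494_SCM
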