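import Mathlib

/-! Definitions used in the statement about spectra of constructive models. -/

open FirstOrder Cardinal

namespace Pool.Agent.H494_SCM

/-- The purely relational language with relation symbols `0, 1, 2, ...`, the symbol `i` having
arity `ar i`. -/
def RL (ar : ℕ → ℕ) : FirstOrder.Language.{0, 0} :=
  ⟨fun _ => Empty, fun n => {i : ℕ // ar i = n}⟩

/-- `M` has a constructivization: it is isomorphic to a structure with universe `ℕ` whose atomic
diagram is computable (uniformly in the relation symbol). -/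
def HasConstr {ar : ℕ → ℕ} (M : Type) [(RL ar).Structure M] : Prop :=
  ∃ s : (RL ar).Structure ℕ,
    (ComputablePred fun p : ℕ × List ℕ =>
      ∃ h : ar p.1 = p.2.length, s.RelMap ⟨p.1, h⟩ p.2.get) ∧
    Nonempty (M ≃[RL ar] ℕ)

/-- Arithmetical sets of natural numbers: the closure of the computable ones under complement and
projection. -/
inductive IsArith : (ℕ → Prop) → Prop
  | comp {p : ℕ → Prop} : ComputablePred p → IsArith p
  | not {p : ℕ → Prop} : IsArith p → IsArith (fun x => ¬ p x)
  | ex {p : ℕ → Prop} : IsArith p → IsArith (fun x => ∃ y, p (Nat.pair x y))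

/-- `A` lists the countable models of `T` as in the theorem of Baldwin and Lachlan. -/
structure IsChain {ar : ℕ → ℕ} (T : (RL ar).Theory)
    (A : ℕ∞ → FirstOrder.Language.Theory.ModelType.{0, 0, 0} T) : Prop where
  /-- all members are countable -/
  countable : ∀ i, Countable (A i)
  /-- the first member is the prime model -/
  prime : ∀ N : FirstOrder.Language.Theory.ModelType.{0, 0, 0} T,
    Nonempty ((A 0) ↪ₑ[RL ar] N)
  /-- every member embeds elementarily in the last one -/
  le_top : ∀ i, Nonempty ((A i) ↪ₑ[RL ar] (A ⊤))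
  /-- each successor is a minimal proper elementary extension -/
  minimal : ∀ i : ℕ, ∃ f : (A i) ↪ₑ[RL ar] (A ((i + 1 : ℕ) : ℕ∞)),
    Set.range f ≠ Set.univ ∧
    ∀ S : (RL ar).ElementarySubstructure (A ((i + 1 : ℕ) : ℕ∞)),
      Set.range f ⊆ (S : Set (A ((i + 1 : ℕ) : ℕ∞))) →
        (S : Set (A ((i + 1 : ℕ) : ℕ∞))) = Set.range f ∨
        (S : Set (A ((i + 1 : ℕ) : ℕ∞))) = Set.univ
  /-- the last member is saturated -/
  saturated : ∀ (N : FirstOrder.Language.Theory.ModelType.{0, 0, 0} T)
    (f : (A ⊤) ↪ₑ[RL ar] N) (n : ℕ) (a : Fin n → (A ⊤)) (b : N),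
    ∃ c : (A ⊤), ∀ φ : (RL ar).Formula (Fin (n + 1)),
      φ.Realize (Fin.snoc (f ∘ a) b : Fin (n + 1) → N) ↔
        φ.Realize (Fin.snoc a c : Fin (n + 1) → (A ⊤))
  /-- every countable model is isomorphic to exactly one member -/
  unique : ∀ N : FirstOrder.Language.Theory.ModelType.{0, 0, 0} T, Countable N →
    ∃! i, Nonempty (N ≃[RL ar] (A i))

end Pool.Agent.H494_SCM
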