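import Pool.Agent.H494_SCM.Iter

/-! Explicit recodings of the rows of the base family. -/

namespace Pool.Agent.H494_SCM

/-- requirements on a recoding of a row -/
structure EncOK (p : Par) (u : ℕ ↪ ℕ) (i : ℕ) (NC : ℕ → ℕ) (enc : ℕ × ℕ → ℕ × ℕ) : Prop where
  bij : Function.Bijective enc
  cl : ∀ a w a' w', cls p u i a a' ↔ (enc (a, w)).1 = (enc (a', w')).1
  lb : ∀ m a w, lab p u i m a w ↔ (enc (a, w)).2 = u (m + NC (enc (a, w)).1)

/-- the recoding of mark indices in a normal class -/
def fN (l N t : ℕ) : ℕ := if t < l then N + t else if t < l + N then t - l else t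

/-- its inverse -/
def gN (l N t : ℕ) : ℕ := if t < N then t + l else if t < l + N then t - N else t

theorem gN_fN (l N t : ℕ) : gN l N (fN l N t) = t := by
  unfold gN fN
  split_ifs <;> omega

theorem fN_gN (l N t : ℕ) : fN l N (gN l N t) = t := by
  unfold gN fN
  split_ifs <;> omega

theorem fN_eq (l N t m : ℕ) : fN l N t = m + N ↔ (l ≤ m ∧ t = m + N) ∨ (m < l ∧ t = m) := by
  unfold fN
  split_ifs <;> omega

/-- recoding of classes, with a shift `δ` -/
def cm (n0 l : ℕ) : ℕ :=
  Nat.pair (Nat.unpair l).1 ((Nat.unpair l).2 - (if (Nat.unpair l).1 = 0 then 2 else 0) +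
    (if (Nat.unpair l).1 + 1 = n0 then 1 else 0))

/-- inverse of the recoding of classes -/
def cm' (n0 l : ℕ) : ℕ :=
  Nat.pair (Nat.unpair l).1 ((Nat.unpair l).2 - (if (Nat.unpair l).1 + 1 = n0 then 1 else 0) +
    (if (Nat.unpair l).1 = 0 then 2 else 0))

theorem unpair_lt_two {l : ℕ} (h : (Nat.unpair l).1 = 0) (h2 : (Nat.unpair l).2 < 2) : l < 2 := by
  rw [← Nat.pair_unpair l, h]
  interval_cases (Nat.unpair l).2
  · decide
  · decide

theorem lt_two_unpair {l : ℕ} (h : l < 2) : (Nat.unpair l).1 = 0 ∧ (Nat.unpair l).2 < 2 := by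
  interval_cases l
  · simp
  · have : Nat.unpair 1 = (0, 1) := by
      have := Nat.unpair_pair 0 1
      simpa [Nat.pair] using this
    rw [this]; simp

theorem cm_fst (n0 l : ℕ) : (Nat.unpair (cm n0 l)).1 = (Nat.unpair l).1 := by
  unfold cm; rw [Nat.unpair_pair]

theorem cm'_fst (n0 l : ℕ) : (Nat.unpair (cm' n0 l)).1 = (Nat.unpair l).1 := by
  unfold cm'; rw [Nat.unpair_pair]

theorem cm'_cm (n0 l : ℕ) (hl : 2 ≤ l) : cm' n0 (cm n0 l) = l := by
  have h1 : (Nat.unpair l).1 = 0 → 2 ≤ (Nat.unpair l).2 := by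
    intro h
    by_contra h2
    have := unpair_lt_two h (by omega)
    omega
  unfold cm'
  rw [cm_fst]
  conv_rhs => rw [← Nat.pair_unpair l]
  congr 1
  unfold cm
  rw [Nat.unpair_pair]
  simp only
  split_ifs <;> omega

theorem cm_cm' (n0 l : ℕ) (hl : ∀ n, n0 = n + 1 → l ≠ Nat.pair n 0) : cm n0 (cm' n0 l) = l := by
  have h1 : (Nat.unpair l).1 + 1 = n0 → 1 ≤ (Nat.unpair l).2 := by
    intro h
    by_contra h2
    apply hl _ h.symm
    conv_lhs => rw [← Nat.pair_unpair l]
    congr 1
    omega
  unfold cm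
  rw [cm'_fst]
  conv_rhs => rw [← Nat.pair_unpair l]
  congr 1
  unfold cm'
  rw [Nat.unpair_pair]
  simp only
  split_ifs <;> omega

theorem two_le_cm' (n0 l : ℕ) (hl : ∀ n, n0 = n + 1 → l ≠ Nat.pair n 0) : 2 ≤ cm' n0 l := by
  by_contra h
  have h1 := lt_two_unpair (l := cm' n0 l) (by omega)
  rw [cm'_fst] at h1
  have h2 := h1.2
  unfold cm' at h2
  rw [Nat.unpair_pair] at h2
  simp only [h1.1, if_true] at h2
  omega

theorem cm_ne (n l : ℕ) (hl : 2 ≤ l) : cm (n + 1) l ≠ Nat.pair n 0 := by
  intro h
  have h1 := congrArg Nat.unpair h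
  unfold cm at h1
  rw [Nat.unpair_pair, Nat.unpair_pair] at h1
  simp only [Prod.mk.injEq] at h1
  obtain ⟨h2, h3⟩ := h1
  rw [h2] at h3
  simp at h3

theorem NN_cm (i n0 l : ℕ) : NN i (cm n0 l) = NN i l := by
  unfold NN; rw [cm_fst]

theorem NN_cm' (i n0 l : ℕ) : NN i (cm' n0 l) = NN i l := by
  unfold NN; rw [cm'_fst]

/-! ### finitely many generic points -/

/-- number of additional unlabelled elements of a class -/
def NCf (j i c : ℕ) : ℕ := if c < j then 0 else NN i (c - j)

/-- recoding for bit zero -/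
def encf0 (j i : ℕ) (x : ℕ × ℕ) : ℕ × ℕ :=
  (x.1, if x.2 < j ∨ x.1 < j then x.2 else fN (x.1 - j) (NN i (x.1 - j)) (x.2 - j) + j)

/-- recoding for bit one; `n0` satisfies `skip (kk i) n0 = j` -/
def encf1 (j i n0 : ℕ) (x : ℕ × ℕ) : ℕ × ℕ :=
  if x.1 < j then x else
  if x.1 = j then (Nat.pair n0 0 + j, if x.2 < j then x.2 else 2 * x.2) else
  if x.1 = j + 1 then (Nat.pair n0 0 + j, if x.2 < j then x.2 + j else 2 * x.2 + 1) else
  (cm (n0 + 1) (x.1 - j) + j,
    if x.2 < j then x.2 else fN (x.1 - j) (NN i (x.1 - j)) (x.2 - j) + j)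

theorem lab0_iff (p : Par) (u : ℕ ↪ ℕ) (i m l w : ℕ) (hb : p.bit i → u l ≠ u 0 ∧ u l ≠ u 1) :
    lab p u i m (u l) w ↔ (l ≤ m ∧ w = u (m + NN i l)) ∨ (m < l ∧ w = u m) := by
  unfold lab
  constructor
  · rintro (⟨h1, h2, _⟩ | ⟨h1, h2, _⟩ | ⟨_, ⟨l', h1, h2, h3⟩ | ⟨h1, h2⟩⟩)
    · exact absurd h2 (hb h1).1
    · exact absurd h2 (hb h1).2
    · have := u.injective h2
      subst this
      exact Or.inl ⟨h1, h3⟩
    · right
      refine ⟨?_, h2⟩
      by_contra h3
      exact h1 l (by omega) rfl
  · intro h
    right; right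
    refine ⟨hb, ?_⟩
    rcases h with ⟨h1, h2⟩ | ⟨h1, h2⟩
    · exact Or.inl ⟨l, h1, rfl, h2⟩
    · right
      refine ⟨fun l' hl' h => ?_, h2⟩
      have := u.injective h
      omega

theorem lab_generic_iff (p : Par) (u : ℕ ↪ ℕ) (i m a w : ℕ) (ha : ∀ t, a ≠ u t) :
    lab p u i m a w ↔ w = u m := by
  unfold lab
  constructor
  · rintro (⟨h1, h2, _⟩ | ⟨h1, h2, _⟩ | ⟨_, ⟨l', h1, h2, h3⟩ | ⟨h1, h2⟩⟩)
    · exact absurd h2 (ha 0)
    · exact absurd h2 (ha 1)
    · exact absurd h2 (ha l')
    · exact h2
  · intro h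
    right; right
    exact ⟨fun _ => ⟨ha 0, ha 1⟩, Or.inr ⟨fun l _ => ha l, h⟩⟩

theorem lab_u0_iff (p : Par) (u : ℕ ↪ ℕ) (i m w : ℕ) (hb : p.bit i) :
    lab p u i m (u 0) w ↔ ∃ t, m = 2 * t ∧ w = u t := by
  unfold lab
  constructor
  · rintro (⟨_, _, t, _, h3, h4⟩ | ⟨_, h2, _⟩ | ⟨h, _⟩)
    · exact ⟨t, h3, h4⟩
    · exact absurd (u.injective h2) (by omega)
    · exact absurd rfl (h hb).1
  · rintro ⟨t, h1, h2⟩
    exact Or.inl ⟨hb, rfl, t, by omega, h1, h2⟩

theorem lab_u1_iff (p : Par) (u : ℕ ↪ ℕ) (i m w : ℕ) (hb : p.bit i) :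
    lab p u i m (u 1) w ↔ ∃ t, m = 2 * t + 1 ∧ w = u t := by
  unfold lab
  constructor
  · rintro (⟨_, h2, _⟩ | ⟨_, _, t, _, h3, h4⟩ | ⟨h, _⟩)
    · exact absurd (u.injective h2) (by omega)
    · exact ⟨t, h3, h4⟩
    · exact absurd rfl (h hb).2
  · rintro ⟨t, h1, h2⟩
    exact Or.inr (Or.inl ⟨hb, rfl, t, by omega, h1, h2⟩)

theorem encOK_f0 (p : Par) (j i : ℕ) (hb : ¬ p.bit i) :
    EncOK p (mark (j : ℕ∞)) i (NCf j i) (encf0 j i) where
  bij := by
    constructor
    · rintro ⟨a, w⟩ ⟨a', w'⟩ h
      simp only [encf0, Prod.mk.injEq] at h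
      obtain ⟨rfl, h⟩ := h
      have e1 := gN_fN (a - j) (NN i (a - j)) (w - j)
      have e2 := gN_fN (a - j) (NN i (a - j)) (w' - j)
      split_ifs at h with h1 h2 h2
      · rw [h]
      · exfalso; omega
      · exfalso; omega
      · have h3 : fN (a - j) (NN i (a - j)) (w - j) = fN (a - j) (NN i (a - j)) (w' - j) := by omega
        rw [h3, e2] at e1
        have : w = w' := by omega
        rw [this]
    · rintro ⟨c, e⟩
      by_cases h : e < j ∨ c < j
      · exact ⟨(c, e), by simp [encf0, h]⟩
      · refine ⟨(c, gN (c - j) (NN i (c - j)) (e - j) + j), ?_⟩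
        have h1 : ¬ (gN (c - j) (NN i (c - j)) (e - j) + j < j ∨ c < j) := by omega
        simp only [encf0]
        rw [if_neg h1, Nat.add_sub_cancel, fN_gN]
        congr 1
        omega
  cl := by
    intro a w a' w'
    unfold cls
    simp only [encf0]
    constructor
    · rintro (h | h)
      · exact h
      · exact absurd h.1 hb
    · exact Or.inl
  lb := by
    intro m a w
    by_cases ha : a < j
    · rw [lab_generic_iff _ _ _ _ _ _ (fun t => by rw [mark_coe]; omega)]
      simp only [encf0, NCf, ha, or_true, if_true, Nat.add_zero]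
    · obtain ⟨l, rfl⟩ : ∃ l, a = l + j := ⟨a - j, by omega⟩
      have h1 := lab0_iff p (mark (j : ℕ∞)) i m l w (fun h => absurd h hb)
      rw [mark_coe, mark_coe, mark_coe] at h1
      rw [h1, mark_coe]
      have h2 : ¬ (l + j < j) := by omega
      simp only [encf0, NCf, h2, or_false, if_false, Nat.add_sub_cancel]
      by_cases hw : w < j
      · rw [if_pos hw]
        omega
      · rw [if_neg hw]
        have h3 := fN_eq l (NN i l) (w - j) m
        have h4 : fN l (NN i l) (w - j) + j = m + NN i l + j ↔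
          fN l (NN i l) (w - j) = m + NN i l := by omega
        rw [h4, h3]
        omega

theorem encOK_f1 (p : Par) (j i n0 : ℕ) (hb : p.bit i) (hn0 : skip (Nat.unpair i).1 n0 = j) :
    EncOK p (mark (j : ℕ∞)) i (NCf j i) (encf1 j i n0) := by
  have hNN : NN i (Nat.pair n0 0) = j := by
    unfold NN
    rw [Nat.unpair_pair]
    exact hn0
  -- values of the recoding
  have v0 : ∀ a w, a < j → encf1 j i n0 (a, w) = (a, w) := by
    intro a w h
    simp [encf1, h]
  have v1 : ∀ w, encf1 j i n0 (j, w) = (Nat.pair n0 0 + j, if w < j then w else 2 * w) := by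
    intro w
    simp [encf1]
  have v2 : ∀ w, encf1 j i n0 (j + 1, w) =
      (Nat.pair n0 0 + j, if w < j then w + j else 2 * w + 1) := by
    intro w
    simp [encf1]
  have v3 : ∀ l w, 2 ≤ l → encf1 j i n0 (l + j, w) = (cm (n0 + 1) l + j,
      if w < j then w else fN l (NN i l) (w - j) + j) := by
    intro l w hl
    have h1 : ¬ (l + j < j) := by omega
    have h2 : ¬ (l + j = j) := by omega
    have h3 : ¬ (l + j = j + 1) := by omega
    simp only [encf1, h1, h2, h3, if_false, Nat.add_sub_cancel]
  have hcases : ∀ a, a < j ∨ a = j ∨ a = j + 1 ∨ ∃ l, 2 ≤ l ∧ a = l + j := by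
    intro a
    by_cases h : a < j
    · exact Or.inl h
    · by_cases h2 : a = j
      · exact Or.inr (Or.inl h2)
      · by_cases h3 : a = j + 1
        · exact Or.inr (Or.inr (Or.inl h3))
        · exact Or.inr (Or.inr (Or.inr ⟨a - j, by omega, by omega⟩))
  -- first coordinates
  have hcm : ∀ l l', 2 ≤ l → 2 ≤ l' → cm (n0 + 1) l = cm (n0 + 1) l' → l = l' := by
    intro l l' h h' he
    rw [← cm'_cm (n0 + 1) l h, he, cm'_cm (n0 + 1) l' h']
  constructor
  · constructor
    · rintro ⟨a, w⟩ ⟨a', w'⟩ h
      rcases hcases a with ha | rfl | rfl | ⟨l, hl, rfl⟩ <;>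
        rcases hcases a' with ha' | rfl | rfl | ⟨l', hl', rfl⟩
      · rw [v0 _ _ ha, v0 _ _ ha'] at h; exact h
      · rw [v0 _ _ ha, v1] at h
        simp only [Prod.mk.injEq] at h; omega
      · rw [v0 _ _ ha, v2] at h
        simp only [Prod.mk.injEq] at h; omega
      · rw [v0 _ _ ha, v3 _ _ hl'] at h
        simp only [Prod.mk.injEq] at h; omega
      · rw [v0 _ _ ha', v1] at h
        simp only [Prod.mk.injEq] at h; omega
      · rw [v1, v1] at h
        simp only [Prod.mk.injEq, true_and] at h
        have : w = w' := by split_ifs at h <;> omega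
        rw [this]
      · rw [v1, v2] at h
        simp only [Prod.mk.injEq, true_and] at h
        exfalso
        split_ifs at h <;> omega
      · rw [v1, v3 _ _ hl'] at h
        simp only [Prod.mk.injEq] at h
        exfalso
        exact cm_ne n0 l' hl' (by omega)
      · rw [v0 _ _ ha', v2] at h
        simp only [Prod.mk.injEq] at h; omega
      · rw [v1, v2] at h
        simp only [Prod.mk.injEq, true_and] at h
        exfalso
        split_ifs at h <;> omega
      · rw [v2, v2] at h
        simp only [Prod.mk.injEq, true_and] at h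
        have : w = w' := by split_ifs at h <;> omega
        rw [this]
      · rw [v2, v3 _ _ hl'] at h
        simp only [Prod.mk.injEq] at h
        exfalso
        exact cm_ne n0 l' hl' (by omega)
      · rw [v0 _ _ ha', v3 _ _ hl] at h
        simp only [Prod.mk.injEq] at h; omega
      · rw [v1, v3 _ _ hl] at h
        simp only [Prod.mk.injEq] at h
        exfalso
        exact cm_ne n0 l hl (by omega)
      · rw [v2, v3 _ _ hl] at h
        simp only [Prod.mk.injEq] at h
        exfalso
        exact cm_ne n0 l hl (by omega)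
      · rw [v3 _ _ hl, v3 _ _ hl'] at h
        simp only [Prod.mk.injEq] at h
        obtain ⟨h1, h2⟩ := h
        have h3 := hcm l l' hl hl' (by omega)
        subst h3
        have e1 := gN_fN l (NN i l) (w - j)
        have e2 := gN_fN l (NN i l) (w' - j)
        have : w = w' := by
          split_ifs at h2 with h4 h5 h5
          · exact h2
          · omega
          · omega
          · have h3 : fN l (NN i l) (w - j) = fN l (NN i l) (w' - j) := by omega
            rw [h3, e2] at e1
            omega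
        rw [this]
    · rintro ⟨c, e⟩
      by_cases hc : c < j
      · exact ⟨(c, e), v0 c e hc⟩
      · by_cases hc0 : c = Nat.pair n0 0 + j
        · subst hc0
          by_cases h1 : e < j
          · exact ⟨(j, e), by rw [v1, if_pos h1]⟩
          · by_cases h2 : e < 2 * j
            · exact ⟨(j + 1, e - j), by
                rw [v2, if_pos (by omega)]
                congr 1; omega⟩
            · rcases Nat.mod_two_eq_zero_or_one e with h3 | h3
              · exact ⟨(j, e / 2), by
                  rw [v1, if_neg (by omega)]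
                  congr 1; omega⟩
              · exact ⟨(j + 1, e / 2), by
                  rw [v2, if_neg (by omega)]
                  congr 1; omega⟩
        · have hne : ∀ n, n0 + 1 = n + 1 → c - j ≠ Nat.pair n 0 := by
            intro n hn
            have : n = n0 := by omega
            subst this
            omega
          have h1 := two_le_cm' (n0 + 1) (c - j) hne
          have h2 := cm_cm' (n0 + 1) (c - j) hne
          by_cases h3 : e < j
          · refine ⟨(cm' (n0 + 1) (c - j) + j, e), ?_⟩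
            rw [v3 _ _ h1, if_pos h3, h2, show c - j + j = c by omega]
          · refine ⟨(cm' (n0 + 1) (c - j) + j, gN (cm' (n0 + 1) (c - j))
              (NN i (cm' (n0 + 1) (c - j))) (e - j) + j), ?_⟩
            rw [v3 _ _ h1, if_neg (by omega), h2, Nat.add_sub_cancel, fN_gN,
              show c - j + j = c by omega, show e - j + j = e by omega]
  · intro a w a' w'
    unfold cls
    rw [mark_coe, mark_coe]
    have e0 : (0 + j = j) := by omega
    have e1 : (1 + j = j + 1) := by omega
    rw [e0, e1]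
    rcases hcases a with ha | rfl | rfl | ⟨l, hl, rfl⟩ <;>
      rcases hcases a' with ha' | rfl | rfl | ⟨l', hl', rfl⟩
    · rw [v0 _ _ ha, v0 _ _ ha']
      simp only [hb, true_and]
      omega
    · rw [v0 _ _ ha, v1]
      simp only [hb, true_and]
      omega
    · rw [v0 _ _ ha, v2]
      simp only [hb, true_and]
      omega
    · rw [v0 _ _ ha, v3 _ _ hl']
      simp only [hb, true_and]
      omega
    · rw [v0 _ _ ha', v1]
      simp only [hb, true_and]
      omega
    · rw [v1, v1]; simp
    · rw [v1, v2]; simp [hb]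
    · rw [v1, v3 _ _ hl']
      simp only [hb, true_and]
      have := cm_ne n0 l' hl'
      omega
    · rw [v0 _ _ ha', v2]
      simp only [hb, true_and]
      omega
    · rw [v1, v2]; simp [hb]
    · rw [v2, v2]; simp
    · rw [v2, v3 _ _ hl']
      simp only [hb, true_and]
      have := cm_ne n0 l' hl'
      omega
    · rw [v0 _ _ ha', v3 _ _ hl]
      simp only [hb, true_and]
      omega
    · rw [v1, v3 _ _ hl]
      simp only [hb, true_and]
      have := cm_ne n0 l hl
      omega
    · rw [v2, v3 _ _ hl]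
      simp only [hb, true_and]
      have := cm_ne n0 l hl
      omega
    · rw [v3 _ _ hl, v3 _ _ hl']
      simp only [hb, true_and]
      constructor
      · intro h
        have : l = l' := by omega
        rw [this]
      · intro h
        have := hcm l l' hl hl' (by omega)
        omega
  · intro m a w
    rcases hcases a with ha | ha | ha | ⟨l, hl, ha⟩
    · rw [lab_generic_iff _ _ _ _ _ _ (fun t => by rw [mark_coe]; omega), v0 _ _ ha]
      simp only [NCf, ha, if_true, Nat.add_zero]
    · have h1 := lab_u0_iff p (mark (j : ℕ∞)) i m w hb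
      rw [mark_coe] at h1
      subst ha
      rw [show (0 + a = a) by omega] at h1
      rw [h1, v1]
      have h2 : ¬ (Nat.pair n0 0 + a < a) := by omega
      simp only [NCf, h2, if_false, Nat.add_sub_cancel, hNN, mark_coe]
      constructor
      · rintro ⟨t, rfl, rfl⟩
        rw [if_neg (by omega)]
        omega
      · intro h
        split_ifs at h with h3
        · omega
        · exact ⟨w - a, by omega, by omega⟩
    · have h1 := lab_u1_iff p (mark (j : ℕ∞)) i m w hb
      rw [mark_coe] at h1
      subst ha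
      rw [show (1 + j = j + 1) by omega] at h1
      rw [h1, v2]
      have h2 : ¬ (Nat.pair n0 0 + j < j) := by omega
      simp only [NCf, h2, if_false, Nat.add_sub_cancel, hNN, mark_coe]
      constructor
      · rintro ⟨t, rfl, rfl⟩
        rw [if_neg (by omega)]
        omega
      · intro h
        split_ifs at h with h3
        · omega
        · exact ⟨w - j, by omega, by omega⟩
    · subst ha
      have h1 := lab0_iff p (mark (j : ℕ∞)) i m l w (fun _ => by
        rw [mark_coe, mark_coe, mark_coe]; omega)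
      rw [mark_coe, mark_coe, mark_coe] at h1
      rw [h1, mark_coe, v3 _ _ hl]
      have h2 : ¬ (cm (n0 + 1) l + j < j) := by omega
      simp only [NCf, h2, if_false, Nat.add_sub_cancel, NN_cm]
      by_cases hw : w < j
      · rw [if_pos hw]
        omega
      · rw [if_neg hw]
        have h3 := fN_eq l (NN i l) (w - j) m
        have h4 : fN l (NN i l) (w - j) + j = m + NN i l + j ↔
          fN l (NN i l) (w - j) = m + NN i l := by omega
        rw [h4, h3]
        omega

end Pool.Agent.H494_SCM
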