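import Pool.Agent.H494_SCM.Enc

/-! Explicit recodings of the rows: infinitely many generic points. -/

namespace Pool.Agent.H494_SCM

/-- number of additional unlabelled elements of a class -/
def NCo (i c : ℕ) : ℕ := if c % 2 = 1 then 0 else NN i (c / 2)

/-- recoding for bit zero -/
def enco0 (i : ℕ) (x : ℕ × ℕ) : ℕ × ℕ :=
  (x.1, if x.2 % 2 = 1 ∨ x.1 % 2 = 1 then x.2 else 2 * fN (x.1 / 2) (NN i (x.1 / 2)) (x.2 / 2))

/-- recoding for bit one -/
def enco1 (i : ℕ) (x : ℕ × ℕ) : ℕ × ℕ :=
  if x.1 % 2 = 1 then (x.1 + 2, x.2) else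
  if x.1 = 0 then (1, if x.2 % 2 = 0 then 2 * x.2 else 2 * x.2 - 1) else
  if x.1 = 2 then (1, if x.2 % 2 = 0 then 2 * x.2 + 2 else 2 * x.2 + 1) else
  (2 * cm 0 (x.1 / 2), if x.2 % 2 = 1 then x.2 else
    2 * fN (x.1 / 2) (NN i (x.1 / 2)) (x.2 / 2))

theorem encOK_o0 (p : Par) (i : ℕ) (hb : ¬ p.bit i) :
    EncOK p (mark ⊤) i (NCo i) (enco0 i) where
  bij := by
    constructor
    · rintro ⟨a, w⟩ ⟨a', w'⟩ h
      simp only [enco0, Prod.mk.injEq] at h
      obtain ⟨rfl, h⟩ := h
      have e1 := gN_fN (a / 2) (NN i (a / 2)) (w / 2)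
      have e2 := gN_fN (a / 2) (NN i (a / 2)) (w' / 2)
      split_ifs at h with h1 h2 h2
      · rw [h]
      · exfalso; omega
      · exfalso; omega
      · have h3 : fN (a / 2) (NN i (a / 2)) (w / 2) = fN (a / 2) (NN i (a / 2)) (w' / 2) := by
          omega
        rw [h3, e2] at e1
        have : w = w' := by omega
        rw [this]
    · rintro ⟨c, e⟩
      by_cases h : e % 2 = 1 ∨ c % 2 = 1
      · exact ⟨(c, e), by simp [enco0, h]⟩
      · refine ⟨(c, 2 * gN (c / 2) (NN i (c / 2)) (e / 2)), ?_⟩
        have h1 : ¬ (2 * gN (c / 2) (NN i (c / 2)) (e / 2) % 2 = 1 ∨ c % 2 = 1) := by omega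
        have h2 : 2 * gN (c / 2) (NN i (c / 2)) (e / 2) / 2 =
          gN (c / 2) (NN i (c / 2)) (e / 2) := by omega
        simp only [enco0]
        rw [if_neg h1, h2, fN_gN]
        congr 1
        omega
  cl := by
    intro a w a' w'
    unfold cls
    simp only [enco0]
    constructor
    · rintro (h | h)
      · exact h
      · exact absurd h.1 hb
    · exact Or.inl
  lb := by
    intro m a w
    by_cases ha : a % 2 = 1
    · rw [lab_generic_iff _ _ _ _ _ _ (fun t => by rw [mark_top]; omega)]
      simp only [enco0, NCo, ha, or_true, if_true, Nat.add_zero]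
    · obtain ⟨l, rfl⟩ : ∃ l, a = 2 * l := ⟨a / 2, by omega⟩
      have h1 := lab0_iff p (mark ⊤) i m l w (fun h => absurd h hb)
      rw [mark_top, mark_top, mark_top] at h1
      rw [h1, mark_top]
      have h5 : 2 * l / 2 = l := by omega
      simp only [enco0, NCo, ha, or_false, if_false, h5]
      by_cases hw : w % 2 = 1
      · rw [if_pos hw]
        omega
      · rw [if_neg hw]
        have h3 := fN_eq l (NN i l) (w / 2) m
        have h4 : 2 * fN l (NN i l) (w / 2) = 2 * (m + NN i l) ↔
          fN l (NN i l) (w / 2) = m + NN i l := by omega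
        rw [h4, h3]
        omega

theorem encOK_o1 (p : Par) (i : ℕ) (hb : p.bit i) :
    EncOK p (mark ⊤) i (NCo i) (enco1 i) := by
  -- values of the recoding
  have v0 : ∀ a w, a % 2 = 1 → enco1 i (a, w) = (a + 2, w) := by
    intro a w h
    simp [enco1, h]
  have v1 : ∀ w, enco1 i (0, w) = (1, if w % 2 = 0 then 2 * w else 2 * w - 1) := by
    intro w
    simp [enco1]
  have v2 : ∀ w, enco1 i (2, w) = (1, if w % 2 = 0 then 2 * w + 2 else 2 * w + 1) := by
    intro w
    simp [enco1]
  have v3 : ∀ l w, 2 ≤ l → enco1 i (2 * l, w) = (2 * cm 0 l,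
      if w % 2 = 1 then w else 2 * fN l (NN i l) (w / 2)) := by
    intro l w hl
    have h1 : ¬ (2 * l % 2 = 1) := by omega
    have h2 : ¬ (2 * l = 0) := by omega
    have h3 : ¬ (2 * l = 2) := by omega
    have h4 : 2 * l / 2 = l := by omega
    simp only [enco1, h1, h2, h3, if_false, h4]
  have hcases : ∀ a, a % 2 = 1 ∨ a = 0 ∨ a = 2 ∨ ∃ l, 2 ≤ l ∧ a = 2 * l := by
    intro a
    by_cases h : a % 2 = 1
    · exact Or.inl h
    · by_cases h2 : a = 0
      · exact Or.inr (Or.inl h2)
      · by_cases h3 : a = 2
        · exact Or.inr (Or.inr (Or.inl h3))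
        · exact Or.inr (Or.inr (Or.inr ⟨a / 2, by omega, by omega⟩))
  have hcm : ∀ l l', 2 ≤ l → 2 ≤ l' → cm 0 l = cm 0 l' → l = l' := by
    intro l l' h h' he
    rw [← cm'_cm 0 l h, he, cm'_cm 0 l' h']
  constructor
  · constructor
    · rintro ⟨a, w⟩ ⟨a', w'⟩ h
      rcases hcases a with ha | rfl | rfl | ⟨l, hl, rfl⟩ <;>
        rcases hcases a' with ha' | rfl | rfl | ⟨l', hl', rfl⟩
      · rw [v0 _ _ ha, v0 _ _ ha'] at h
        simp only [Prod.mk.injEq] at h
        rw [h.2, show a = a' by omega]
      · rw [v0 _ _ ha, v1] at h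
        simp only [Prod.mk.injEq] at h; omega
      · rw [v0 _ _ ha, v2] at h
        simp only [Prod.mk.injEq] at h; omega
      · rw [v0 _ _ ha, v3 _ _ hl'] at h
        simp only [Prod.mk.injEq] at h; omega
      · rw [v0 _ _ ha', v1] at h
        simp only [Prod.mk.injEq] at h; omega
      · rw [v1, v1] at h
        simp only [Prod.mk.injEq, true_and] at h
        have : w = w' := by split_ifs at h <;> omega
        rw [this]
      · rw [v1, v2] at h
        simp only [Prod.mk.injEq, true_and] at h
        exfalso
        split_ifs at h <;> omega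
      · rw [v1, v3 _ _ hl'] at h
        simp only [Prod.mk.injEq] at h
        omega
      · rw [v0 _ _ ha', v2] at h
        simp only [Prod.mk.injEq] at h; omega
      · rw [v1, v2] at h
        simp only [Prod.mk.injEq, true_and] at h
        exfalso
        split_ifs at h <;> omega
      · rw [v2, v2] at h
        simp only [Prod.mk.injEq, true_and] at h
        have : w = w' := by split_ifs at h <;> omega
        rw [this]
      · rw [v2, v3 _ _ hl'] at h
        simp only [Prod.mk.injEq] at h
        omega
      · rw [v0 _ _ ha', v3 _ _ hl] at h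
        simp only [Prod.mk.injEq] at h; omega
      · rw [v1, v3 _ _ hl] at h
        simp only [Prod.mk.injEq] at h
        omega
      · rw [v2, v3 _ _ hl] at h
        simp only [Prod.mk.injEq] at h
        omega
      · rw [v3 _ _ hl, v3 _ _ hl'] at h
        simp only [Prod.mk.injEq] at h
        obtain ⟨h1, h2⟩ := h
        have h3 := hcm l l' hl hl' (by omega)
        subst h3
        have e1 := gN_fN l (NN i l) (w / 2)
        have e2 := gN_fN l (NN i l) (w' / 2)
        have : w = w' := by
          split_ifs at h2 with h4 h5 h5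
          · exact h2
          · omega
          · omega
          · have h3 : fN l (NN i l) (w / 2) = fN l (NN i l) (w' / 2) := by omega
            rw [h3, e2] at e1
            omega
        rw [this]
    · rintro ⟨c, e⟩
      by_cases hc : c % 2 = 1
      · by_cases hc0 : c = 1
        · subst hc0
          have h4 : e % 4 = 0 ∨ e % 4 = 1 ∨ e % 4 = 2 ∨ e % 4 = 3 := by omega
          rcases h4 with h4 | h4 | h4 | h4
          · exact ⟨(0, e / 2), by
              rw [v1, if_pos (by omega)]
              congr 1; omega⟩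
          · exact ⟨(0, e / 2 + 1), by
              rw [v1, if_neg (by omega)]
              congr 1; omega⟩
          · exact ⟨(2, e / 2 - 1), by
              rw [v2, if_pos (by omega)]
              congr 1; omega⟩
          · exact ⟨(2, e / 2), by
              rw [v2, if_neg (by omega)]
              congr 1; omega⟩
        · exact ⟨(c - 2, e), by
            rw [v0 _ _ (by omega)]
            congr 1; omega⟩
      · have hne : ∀ n, 0 = n + 1 → c / 2 ≠ Nat.pair n 0 := by
          intro n hn; omega
        have h1 := two_le_cm' 0 (c / 2) hne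
        have h2 := cm_cm' 0 (c / 2) hne
        by_cases h3 : e % 2 = 1
        · refine ⟨(2 * cm' 0 (c / 2), e), ?_⟩
          rw [v3 _ _ h1, if_pos h3, h2, show 2 * (c / 2) = c by omega]
        · refine ⟨(2 * cm' 0 (c / 2), 2 * gN (cm' 0 (c / 2))
              (NN i (cm' 0 (c / 2))) (e / 2)), ?_⟩
          have h4 : 2 * gN (cm' 0 (c / 2)) (NN i (cm' 0 (c / 2))) (e / 2) / 2 =
            gN (cm' 0 (c / 2)) (NN i (cm' 0 (c / 2))) (e / 2) := by omega
          rw [v3 _ _ h1, if_neg (by omega), h2, h4, fN_gN, show 2 * (c / 2) = c by omega,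
            show 2 * (e / 2) = e by omega]
  · intro a w a' w'
    unfold cls
    rw [mark_top, mark_top]
    have e0 : (2 * 0 = 0) := by omega
    have e1 : (2 * 1 = 2) := by omega
    rw [e0, e1]
    rcases hcases a with ha | rfl | rfl | ⟨l, hl, rfl⟩ <;>
      rcases hcases a' with ha' | rfl | rfl | ⟨l', hl', rfl⟩
    · rw [v0 _ _ ha, v0 _ _ ha']
      simp only [hb, true_and]
      omega
    · rw [v0 _ _ ha, v1]
      simp only [hb, true_and]
      omega
    · rw [v0 _ _ ha, v2]
      simp only [hb, true_and]
      omega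
    · rw [v0 _ _ ha, v3 _ _ hl']
      simp only [hb, true_and]
      omega
    · rw [v0 _ _ ha', v1]
      simp only [hb, true_and]
      omega
    · rw [v1, v1]; simp
    · rw [v1, v2]; simp [hb]
    · rw [v1, v3 _ _ hl']
      simp only [hb, true_and]
      omega
    · rw [v0 _ _ ha', v2]
      simp only [hb, true_and]
      omega
    · rw [v1, v2]; simp [hb]
    · rw [v2, v2]; simp
    · rw [v2, v3 _ _ hl']
      simp only [hb, true_and]
      omega
    · rw [v0 _ _ ha', v3 _ _ hl]
      simp only [hb, true_and]
      omega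
    · rw [v1, v3 _ _ hl]
      simp only [hb, true_and]
      omega
    · rw [v2, v3 _ _ hl]
      simp only [hb, true_and]
      omega
    · rw [v3 _ _ hl, v3 _ _ hl']
      simp only [hb, true_and]
      constructor
      · intro h
        have : l = l' := by omega
        rw [this]
      · intro h
        have := hcm l l' hl hl' (by omega)
        omega
  · intro m a w
    rcases hcases a with ha | ha | ha | ⟨l, hl, ha⟩
    · rw [lab_generic_iff _ _ _ _ _ _ (fun t => by rw [mark_top]; omega), v0 _ _ ha]
      have h2 : (a + 2) % 2 = 1 := by omega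
      simp only [NCo, h2, if_true, Nat.add_zero]
    · have h1 := lab_u0_iff p (mark ⊤) i m w hb
      rw [mark_top] at h1
      subst ha
      rw [show (2 * 0 = 0) by omega] at h1
      rw [h1, v1]
      have h2 : 1 % 2 = 1 := by omega
      simp only [NCo, h2, if_true, Nat.add_zero, mark_top]
      constructor
      · rintro ⟨t, rfl, rfl⟩
        rw [if_pos (by omega)]
      · intro h
        split_ifs at h with h3
        · exact ⟨w / 2, by omega, by omega⟩
        · omega
    · have h1 := lab_u1_iff p (mark ⊤) i m w hb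
      rw [mark_top] at h1
      subst ha
      rw [show (2 * 1 = 2) by omega] at h1
      rw [h1, v2]
      have h2 : 1 % 2 = 1 := by omega
      simp only [NCo, h2, if_true, Nat.add_zero, mark_top]
      constructor
      · rintro ⟨t, rfl, rfl⟩
        rw [if_pos (by omega)]
        omega
      · intro h
        split_ifs at h with h3
        · exact ⟨w / 2, by omega, by omega⟩
        · omega
    · subst ha
      have h1 := lab0_iff p (mark ⊤) i m l w (fun _ => by
        rw [mark_top, mark_top, mark_top]; omega)
      rw [mark_top, mark_top, mark_top] at h1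
      rw [h1, mark_top, v3 _ _ hl]
      have h2 : ¬ (2 * cm 0 l % 2 = 1) := by omega
      have h5 : 2 * cm 0 l / 2 = cm 0 l := by omega
      simp only [NCo, h2, if_false, h5, NN_cm]
      by_cases hw : w % 2 = 1
      · rw [if_pos hw]
        omega
      · rw [if_neg hw]
        have h3 := fN_eq l (NN i l) (w / 2) m
        have h4 : 2 * fN l (NN i l) (w / 2) = 2 * (m + NN i l) ↔
          fN l (NN i l) (w / 2) = m + NN i l := by omega
        rw [h4, h3]
        omega

end Pool.Agent.H494_SCM
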