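import Pool.Agent.H494_SCM.BasePres
import Pool.Agent.H494_SCM.EncOmega

/-! Computability of the recodings and the resulting presentations. -/

namespace Pool.Agent.H494_SCM

section

variable {α : Type} [Primcodable α]

theorem c_skip {f g : α → ℕ} (hf : Computable f) (hg : Computable g) :
    Computable (fun a => skip (f a) (g a)) := by
  unfold skip
  have h1 := c_add hg (Computable.const (α := α) 1)
  exact c_ite (cp_lt hg hf) hg h1

theorem c_NN {f g : α → ℕ} (hf : Computable f) (hg : Computable g) :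
    Computable (fun a => NN (f a) (g a)) := by
  unfold NN
  exact c_skip (c_up1 hf) (c_up1 hg)

theorem c_fN {l N t : α → ℕ} (hl : Computable l) (hN : Computable N) (ht : Computable t) :
    Computable (fun a => fN (l a) (N a) (t a)) := by
  unfold fN
  have h1 := c_add hN ht
  have h2 := c_add hl hN
  have h3 := c_sub ht hl
  exact c_ite (cp_lt ht hl) h1 (c_ite (cp_lt ht h2) h3 ht)

theorem c_cm {f g : α → ℕ} (hf : Computable f) (hg : Computable g) :
    Computable (fun a => cm (f a) (g a)) := by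
  unfold cm
  have h0 := c_up1 hg
  have h1 := c_up2 hg
  have h2 : Computable (fun a => if (Nat.unpair (g a)).1 = 0 then 2 else 0) :=
    c_ite (cp_eq h0 (Computable.const 0)) (Computable.const 2) (Computable.const 0)
  have h3 := c_add h0 (Computable.const (α := α) 1)
  have h4 : Computable (fun a => if (Nat.unpair (g a)).1 + 1 = f a then 1 else 0) :=
    c_ite (cp_eq h3 hf) (Computable.const 1) (Computable.const 0)
  exact c_pair h0 (c_add (c_sub h1 h2) h4)

end

/-! ### finitely many generic points -/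

theorem mark_coe_comp (j : ℕ) : Computable (mark (j : ℕ∞)) := by
  have h := c_add (Computable.id (α := ℕ)) (Computable.const (α := ℕ) j)
  exact h.of_eq (fun t => (mark_coe j t).symm)

theorem NCf_comp (j : ℕ) : Computable (fun x : ℕ × ℕ => NCf j x.1 x.2) := by
  unfold NCf
  have h1 := c_NN (Computable.fst (α := ℕ) (β := ℕ))
    (c_sub Computable.snd (Computable.const (α := ℕ × ℕ) j))
  exact c_ite (cp_lt Computable.snd (Computable.const j)) (Computable.const 0) h1

section

variable (j : ℕ)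

theorem encf0_comp : Computable (fun x : ℕ × (ℕ × ℕ) => encf0 j x.1 x.2) := by
  unfold encf0
  have ha : Computable (fun x : ℕ × (ℕ × ℕ) => x.2.1) := Computable.fst.comp Computable.snd
  have hw : Computable (fun x : ℕ × (ℕ × ℕ) => x.2.2) := Computable.snd.comp Computable.snd
  have hj : Computable (fun _ : ℕ × (ℕ × ℕ) => j) := Computable.const j
  have h1 := c_sub ha hj
  have h2 := c_sub hw hj
  have h3 := c_NN (Computable.fst (α := ℕ) (β := ℕ × ℕ)) h1
  have h4 := c_add (c_fN h1 h3 h2) hj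
  have h5 := c_ite (cp_or (cp_lt hw hj) (cp_lt ha hj)) hw h4
  exact Computable.pair ha h5

/-- parameter of the recoding -/
def n0f (i : ℕ) : ℕ := if j < (Nat.unpair i).1 then j else j - 1

theorem skip_n0f (i : ℕ) (h : (Nat.unpair i).1 ≠ j) : skip (Nat.unpair i).1 (n0f j i) = j := by
  unfold skip n0f
  split_ifs <;> omega

theorem encf1_comp : Computable (fun x : ℕ × (ℕ × ℕ) => encf1 j x.1 (n0f j x.1) x.2) := by
  have hi : Computable (fun x : ℕ × (ℕ × ℕ) => x.1) := Computable.fst
  have ha : Computable (fun x : ℕ × (ℕ × ℕ) => x.2.1) := Computable.fst.comp Computable.snd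
  have hw : Computable (fun x : ℕ × (ℕ × ℕ) => x.2.2) := Computable.snd.comp Computable.snd
  have hj : Computable (fun _ : ℕ × (ℕ × ℕ) => j) := Computable.const j
  have hc0 : Computable (fun _ : ℕ × (ℕ × ℕ) => (0 : ℕ)) := Computable.const 0
  have hc1 : Computable (fun _ : ℕ × (ℕ × ℕ) => (1 : ℕ)) := Computable.const 1
  have hc2 : Computable (fun _ : ℕ × (ℕ × ℕ) => (2 : ℕ)) := Computable.const 2
  have hn0 : Computable (fun x : ℕ × (ℕ × ℕ) => n0f j x.1) := by
    unfold n0f
    have h1 := c_up1 hi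
    have h2 := c_sub hj hc1
    exact c_ite (cp_lt hj h1) hj h2
  have h1 := c_sub ha hj
  have h2 := c_sub hw hj
  have h3 := c_NN hi h1
  have h4 := c_add (c_fN h1 h3 h2) hj
  have h5 := c_ite (cp_lt hw hj) hw h4
  have h6 := c_add (c_cm (c_add hn0 hc1) h1) hj
  have h7 := Computable.pair h6 h5
  have h8 := c_add (c_pair hn0 hc0) hj
  have h9 := c_ite (cp_lt hw hj) (c_add hw hj) (c_add (c_mul hc2 hw) hc1)
  have h10 := Computable.pair h8 h9
  have h11 := c_ite (cp_lt hw hj) hw (c_mul hc2 hw)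
  have h12 := Computable.pair h8 h11
  have h13 := c_ite (cp_eq ha (c_add hj hc1)) h10 h7
  have h14 := c_ite (cp_eq ha hj) h12 h13
  have h15 := c_ite (cp_lt ha hj) (Computable.snd (α := ℕ) (β := ℕ × ℕ)) h14
  exact h15.of_eq (fun x => rfl)

theorem pres_finite (p : Par) (hbit : ∀ i, p.bit i → (Nat.unpair i).1 ≠ j)
    (hQ : ComputablePred (fun x : (ℕ × ℕ) × List ℕ => x.2.length = x.1.1 + 1 ∧ x.2.Nodup ∧
      ∃ s, p.st x.1.1 x.1.2 = some s ∧ ∀ t < s, (mark (j : ℕ∞)) t ∉ x.2)) {m : ℕ}
    (hm : LP m p.bit) :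
    Pres bar ((base p).str (mark (j : ℕ∞))) (fun H => LP m H) := by
  refine pres_base p (mark (j : ℕ∞)) (mark_coe_comp j) (fun x => x - j) ?_ ?_ (NCf j)
    (NCf_comp j) (encf0 j) (fun i => encf1 j i (n0f j i)) (encf0_comp j) (encf1_comp j)
    ?_ ?_ hQ hm
  · exact c_sub Computable.id (Computable.const j)
  · intro t
    rw [mark_coe]; omega
  · intro i hb
    exact encOK_f0 p j i hb
  · intro i hb
    exact encOK_f1 p j i _ hb (skip_n0f j i (hbit i hb))

end

/-! ### infinitely many generic points -/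

theorem mark_top_comp : Computable (mark ⊤) := by
  have h := c_mul (Computable.const (α := ℕ) 2) (Computable.id (α := ℕ))
  exact h.of_eq (fun t => (mark_top t).symm)

theorem NCo_comp : Computable (fun x : ℕ × ℕ => NCo x.1 x.2) := by
  unfold NCo
  have hc1 : Computable (fun _ : ℕ × ℕ => (1 : ℕ)) := Computable.const 1
  have hc2 : Computable (fun _ : ℕ × ℕ => (2 : ℕ)) := Computable.const 2
  have h1 := c_NN (Computable.fst (α := ℕ) (β := ℕ)) (c_div Computable.snd hc2)
  have h2 := c_mod (Computable.snd (α := ℕ) (β := ℕ)) hc2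
  exact c_ite (cp_eq h2 hc1) (Computable.const 0) h1

theorem enco0_comp : Computable (fun x : ℕ × (ℕ × ℕ) => enco0 x.1 x.2) := by
  unfold enco0
  have hi : Computable (fun x : ℕ × (ℕ × ℕ) => x.1) := Computable.fst
  have ha : Computable (fun x : ℕ × (ℕ × ℕ) => x.2.1) := Computable.fst.comp Computable.snd
  have hw : Computable (fun x : ℕ × (ℕ × ℕ) => x.2.2) := Computable.snd.comp Computable.snd
  have hc1 : Computable (fun _ : ℕ × (ℕ × ℕ) => (1 : ℕ)) := Computable.const 1
  have hc2 : Computable (fun _ : ℕ × (ℕ × ℕ) => (2 : ℕ)) := Computable.const 2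
  have h1 := c_div ha hc2
  have h2 := c_div hw hc2
  have h3 := c_NN hi h1
  have h4 := c_mul hc2 (c_fN h1 h3 h2)
  have h5 := c_ite (cp_or (cp_eq (c_mod hw hc2) hc1) (cp_eq (c_mod ha hc2) hc1)) hw h4
  exact Computable.pair ha h5

theorem enco1_comp : Computable (fun x : ℕ × (ℕ × ℕ) => enco1 x.1 x.2) := by
  have hi : Computable (fun x : ℕ × (ℕ × ℕ) => x.1) := Computable.fst
  have ha : Computable (fun x : ℕ × (ℕ × ℕ) => x.2.1) := Computable.fst.comp Computable.snd
  have hw : Computable (fun x : ℕ × (ℕ × ℕ) => x.2.2) := Computable.snd.comp Computable.snd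
  have hc0 : Computable (fun _ : ℕ × (ℕ × ℕ) => (0 : ℕ)) := Computable.const 0
  have hc1 : Computable (fun _ : ℕ × (ℕ × ℕ) => (1 : ℕ)) := Computable.const 1
  have hc2 : Computable (fun _ : ℕ × (ℕ × ℕ) => (2 : ℕ)) := Computable.const 2
  have h1 := c_div ha hc2
  have h2 := c_div hw hc2
  have h3 := c_NN hi h1
  have h4 := c_mul hc2 (c_fN h1 h3 h2)
  have h5 := c_ite (cp_eq (c_mod hw hc2) hc1) hw h4
  have h6 := Computable.pair (c_mul hc2 (c_cm hc0 h1)) h5
  have h7 := c_ite (cp_eq (c_mod hw hc2) hc0) (c_add (c_mul hc2 hw) hc2)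
    (c_add (c_mul hc2 hw) hc1)
  have h8 := Computable.pair hc1 h7
  have h9 := c_ite (cp_eq (c_mod hw hc2) hc0) (c_mul hc2 hw) (c_sub (c_mul hc2 hw) hc1)
  have h10 := Computable.pair hc1 h9
  have h11 := c_ite (cp_eq ha hc2) h8 h6
  have h12 := c_ite (cp_eq ha hc0) h10 h11
  have h13 := c_ite (cp_eq (c_mod ha hc2) hc1) (Computable.pair (c_add ha hc2) hw) h12
  exact h13.of_eq (fun x => rfl)

theorem pres_omega (p : Par)
    (hQ : ComputablePred (fun x : (ℕ × ℕ) × List ℕ => x.2.length = x.1.1 + 1 ∧ x.2.Nodup ∧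
      ∃ s, p.st x.1.1 x.1.2 = some s ∧ ∀ t < s, (mark ⊤) t ∉ x.2)) {m : ℕ}
    (hm : LP m p.bit) :
    Pres bar ((base p).str (mark ⊤)) (fun H => LP m H) := by
  refine pres_base p (mark ⊤) mark_top_comp (fun x => x / 2) ?_ ?_ NCo
    NCo_comp enco0 enco1 enco0_comp enco1_comp
    ?_ ?_ hQ hm
  · exact c_div Computable.id (Computable.const 2)
  · intro t
    rw [mark_top]; omega
  · intro i hb
    exact encOK_o0 p i hb
  · intro i hb
    exact encOK_o1 p i hb

end Pool.Agent.H494_SCM
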