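import Pool.Agent.H494_SCM.UDef

/-! Families of structures parametrized by sets with marks. -/

open FirstOrder Cardinal FirstOrder.Language

namespace Pool.Agent.H494_SCM

/-- a finitary family of structures, functorial for injections -/
structure Fam where
  F : Type → Type
  map : ∀ {U U' : Type}, (U ↪ U') → F U → F U'
  map_id : ∀ {U : Type} (x : F U), map (Function.Embedding.refl U) x = x
  map_comp : ∀ {U U' U'' : Type} (f : U ↪ U') (g : U' ↪ U'') (x : F U),
    map g (map f x) = map (f.trans g) x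
  map_inj : ∀ {U U' : Type} (f : U ↪ U'), Function.Injective (map f)
  supp : ∀ {U : Type}, F U → Finset U
  supp_map : ∀ {U U' : Type} (f : U ↪ U') (x : F U), supp (map f x) = (supp x).map f
  map_congr : ∀ {U U' : Type} (f g : U ↪ U') (x : F U), (∀ a ∈ supp x, f a = g a) →
    map f x = map g x
  exists_map : ∀ {U U' : Type} (f : U ↪ U') (y : F U'), (∀ a ∈ supp y, a ∈ Set.range f) →
    ∃ x, map f x = y
  faithful : ∀ {U U' : Type} (f g : U ↪ U'), (∀ x, map f x = map g x) → f = g
  R : ∀ {U : Type}, List (F U) → Prop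
  V : ∀ {U : Type}, (ℕ ↪ U) → ℕ → List (F U) → Prop
  K : ℕ → ℕ
  R_nat : ∀ {U U' : Type} (f : U ↪ U') (L : List (F U)), R (L.map (map f)) ↔ R L
  V_nat : ∀ {U U' : Type} (f : U ↪ U') (u : ℕ ↪ U) (u' : ℕ ↪ U') (i : ℕ) (L : List (F U)),
    (∀ t < K i, f (u t) = u' t) → (V u' i (L.map (map f)) ↔ V u i L)

namespace Fam

variable (G : Fam)

/-- the structure as a family of list predicates -/
def str {U : Type} (u : ℕ ↪ U) : ℕ → List (G.F U) → Prop
  | 0 => G.R
  | i + 1 => G.V u i

/-- the structure as a type -/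
abbrev Car (ar : ℕ → ℕ) {U : Type} (u : ℕ ↪ U) : Type := Mk ar (G.str u)

theorem str_nat {U U' : Type} (f : U ↪ U') (u : ℕ ↪ U) (u' : ℕ ↪ U') (i : ℕ) (L : List (G.F U))
    (h : ∀ t < G.K (i - 1), f (u t) = u' t) : G.str u' i (L.map (G.map f)) ↔ G.str u i L := by
  cases i with
  | zero => exact G.R_nat f L
  | succ i => exact G.V_nat f u u' i L h

/-- the action on carriers -/
def mp (ar : ℕ → ℕ) {U U' : Type} (u : ℕ ↪ U) (u' : ℕ ↪ U') (f : U ↪ U') :
    G.Car ar u → G.Car ar u' := G.map f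

theorem mp_inj (ar : ℕ → ℕ) {U U' : Type} (u : ℕ ↪ U) (u' : ℕ ↪ U') (f : U ↪ U') :
    Function.Injective (G.mp ar u u' f) := G.map_inj f

theorem rel_mp (ar : ℕ → ℕ) {U U' : Type} (u : ℕ ↪ U) (u' : ℕ ↪ U') (f : U ↪ U') (i : ℕ)
    (L : List (G.Car ar u)) (h : ∀ t < G.K (i - 1), f (u t) = u' t) :
    rel ar (G.Car ar u') i (L.map (G.mp ar u u' f)) ↔ rel ar (G.Car ar u) i L := by
  rw [rel_Mk, rel_Mk, List.length_map]
  exact and_congr_right fun _ => G.str_nat f u u' i L h

theorem inv_bounded (ar : ℕ → ℕ) {α : Type} {n : ℕ} (φ : (RL ar).BoundedFormula α n) :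
    ∃ k : ℕ, ∀ (U : Type) (u : ℕ ↪ U) (σ : Equiv.Perm U), (∀ t < k, σ (u t) = u t) →
      ∀ (v : α → G.Car ar u) (xs : Fin n → G.Car ar u),
        φ.Realize (G.mp ar u u σ.toEmbedding ∘ v) (G.mp ar u u σ.toEmbedding ∘ xs) ↔
          φ.Realize v xs := by
  have hterm : ∀ {m : ℕ} (t : (RL ar).Term (α ⊕ Fin m)), ∃ x, t = Term.var x := by
    intro m t
    cases t with
    | var x => exact ⟨x, rfl⟩
    | func f ts => exact f.elim
  have hval : ∀ (U : Type) (u : ℕ ↪ U) (σ : Equiv.Perm U) {m : ℕ}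
      (v : α → G.Car ar u) (xs : Fin m → G.Car ar u) (t : (RL ar).Term (α ⊕ Fin m)),
      t.realize (Sum.elim (G.mp ar u u σ.toEmbedding ∘ v) (G.mp ar u u σ.toEmbedding ∘ xs)) =
        G.mp ar u u σ.toEmbedding (t.realize (Sum.elim v xs)) := by
    intro U u σ m v xs t
    obtain ⟨x, rfl⟩ := hterm t
    cases x <;> rfl
  induction φ with
  | falsum => exact ⟨0, fun U u σ _ v xs => Iff.rfl⟩
  | equal t₁ t₂ =>
    refine ⟨0, fun U u σ _ v xs => ?_⟩
    simp only [BoundedFormula.Realize]
    rw [hval, hval]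
    exact (G.mp_inj ar u u σ.toEmbedding).eq_iff
  | rel R ts =>
    rename_i m l
    obtain ⟨i, hi⟩ := R
    refine ⟨G.K (i - 1), fun U u σ hσ v xs => ?_⟩
    simp only [BoundedFormula.Realize]
    have h1 : (fun i => (ts i).realize (Sum.elim (G.mp ar u u σ.toEmbedding ∘ v)
        (G.mp ar u u σ.toEmbedding ∘ xs))) =
        (G.mp ar u u σ.toEmbedding) ∘ (fun i => (ts i).realize (Sum.elim v xs)) := by
      funext k; exact hval U u σ v xs (ts k)
    rw [h1]
    have := G.rel_mp ar u u σ.toEmbedding i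
      (List.ofFn (fun k => (ts k).realize (Sum.elim v xs))) hσ
    rw [List.map_ofFn, rel_ofFn hi, rel_ofFn hi] at this
    exact this
  | imp φ ψ ih1 ih2 =>
    obtain ⟨k1, h1⟩ := ih1
    obtain ⟨k2, h2⟩ := ih2
    refine ⟨max k1 k2, fun U u σ hσ v xs => ?_⟩
    have a1 := h1 U u σ (fun t ht => hσ t (lt_of_lt_of_le ht (le_max_left _ _))) v xs
    have a2 := h2 U u σ (fun t ht => hσ t (lt_of_lt_of_le ht (le_max_right _ _))) v xs
    exact imp_congr a1 a2
  | all φ ih =>
    rename_i m
    obtain ⟨k, h⟩ := ih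
    refine ⟨k, fun U u σ hσ v xs => ?_⟩
    have key : ∀ a : G.Car ar u,
        (G.mp ar u u σ.toEmbedding) ∘ (Fin.snoc xs a : Fin (m+1) → G.Car ar u) =
        Fin.snoc (G.mp ar u u σ.toEmbedding ∘ xs) (G.mp ar u u σ.toEmbedding a) := by
      intro a
      funext b
      refine Fin.lastCases ?_ (fun b => ?_) b
      · simp
      · simp
    have hsurj : ∀ b : G.Car ar u, ∃ a : G.Car ar u, G.mp ar u u σ.toEmbedding a = b := by
      intro b
      refine ⟨G.map σ.symm.toEmbedding b, ?_⟩
      have h1 := G.map_comp σ.symm.toEmbedding σ.toEmbedding b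
      have h2 : (σ.symm.toEmbedding).trans (σ.toEmbedding) = Function.Embedding.refl U := by
        ext x; simp
      rw [h2, G.map_id] at h1
      exact h1
    constructor
    · intro H a
      have := H (G.mp ar u u σ.toEmbedding a)
      rw [← key a] at this
      exact (h U u σ hσ v _).1 this
    · intro H b
      obtain ⟨a, rfl⟩ := hsurj b
      rw [← key a]
      exact (h U u σ hσ v _).2 (H a)

end Fam

/-- a permutation moving a finite set into an infinite one -/
theorem exists_perm {U : Type*} (D : Finset U) (I : Set U) (hI : I.Infinite) :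
    ∃ σ : Equiv.Perm U, (∀ x ∈ D, σ x ∈ I) ∧ ∀ x, x ∉ D → x ∉ I → σ x = x := by
  classical
  induction D using Finset.induction_on with
  | empty => exact ⟨1, by simp, by simp⟩
  | insert a D ha ih =>
    obtain ⟨σ, h1, h2⟩ := ih
    obtain ⟨b, hbI, hb⟩ := hI.exists_notMem_finset (D.image σ ∪ {σ a})
    simp only [Finset.mem_union, Finset.mem_image, Finset.mem_singleton, not_or, not_exists,
      not_and] at hb
    refine ⟨Equiv.swap (σ a) b * σ, ?_, ?_⟩
    · intro x hx
      rcases Finset.mem_insert.1 hx with rfl | hx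
      · simpa using hbI
      · have e1 : σ x ≠ σ a := by
          intro h; exact ha (σ.injective h ▸ hx)
        have e2 : σ x ≠ b := fun h => hb.1 x hx h
        simp only [Equiv.Perm.mul_apply]
        rw [Equiv.swap_apply_of_ne_of_ne e1 e2]
        exact h1 x hx
    · intro x hx hxI
      have hxa : x ≠ a := fun h => hx (by simp [h])
      have hxD : x ∉ D := fun h => hx (by simp [h])
      have e := h2 x hxD hxI
      simp only [Equiv.Perm.mul_apply]
      rw [e]
      apply Equiv.swap_apply_of_ne_of_ne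
      · intro h
        apply hxa
        apply σ.injective
        rw [e, h]
      · intro h
        exact hxI (h ▸ hbI)

namespace Fam

variable (G : Fam)

/-- the structure embedding induced by a marks preserving injection -/
def emb (ar : ℕ → ℕ) {U U' : Type} (u : ℕ ↪ U) (u' : ℕ ↪ U') (f : U ↪ U')
    (h : ∀ t, f (u t) = u' t) : G.Car ar u ↪[RL ar] G.Car ar u' :=
  mkEmb (ar := ar) (G.mp ar u u' f) (G.mp_inj ar u u' f)
    (fun i L _ => G.rel_mp ar u u' f i L (fun t _ => h t))

theorem tv (ar : ℕ → ℕ) {U U' : Type} (u : ℕ ↪ U) (u' : ℕ ↪ U') (f : U ↪ U')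
    (h : ∀ t, f (u t) = u' t) :
    ∃ g : G.Car ar u ↪ₑ[RL ar] G.Car ar u', ∀ x, g x = G.mp ar u u' f x := by
  classical
  refine ⟨(G.emb ar u u' f h).toElementaryEmbedding ?_, fun x => rfl⟩
  intro n φ x a hφ
  obtain ⟨k, hk⟩ := G.inv_bounded ar φ
  let P : Finset U' := (Finset.range k).image u' ∪
    Finset.univ.biUnion (fun i => G.supp (G.map f (x i)))
  have hPr : ∀ p ∈ P, p ∈ Set.range f := by
    intro p hp
    simp only [P, Finset.mem_union, Finset.mem_image, Finset.mem_range, Finset.mem_biUnion,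
      Finset.mem_univ, true_and] at hp
    rcases hp with ⟨t, _, rfl⟩ | ⟨i, hi⟩
    · exact ⟨u t, h t⟩
    · rw [G.supp_map] at hi
      obtain ⟨y, _, rfl⟩ := Finset.mem_map.1 hi
      exact ⟨y, rfl⟩
  have hinf : (Set.range f \ (P : Set U')).Infinite := by
    apply Set.Infinite.sdiff
    · have : Infinite U := Infinite.of_injective u u.injective
      exact Set.infinite_range_of_injective f.injective
    · exact P.finite_toSet
  obtain ⟨σ, h1, h2⟩ := exists_perm (G.supp a \ P) _ hinf
  have hσP : ∀ p ∈ P, σ p = p := by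
    intro p hp
    apply h2
    · simp [hp]
    · intro hh; exact hh.2 hp
  have hsupp : ∀ s ∈ G.supp (G.map σ.toEmbedding a), s ∈ Set.range f := by
    intro s hs
    rw [G.supp_map] at hs
    obtain ⟨y, hy, rfl⟩ := Finset.mem_map.1 hs
    by_cases hyP : y ∈ P
    · show σ y ∈ _
      rw [hσP y hyP]; exact hPr y hyP
    · exact (h1 y (by simp [hy, hyP])).1
  obtain ⟨b, hb⟩ := G.exists_map f _ hsupp
  refine ⟨b, ?_⟩
  have hfix : ∀ t < k, σ (u' t) = u' t := by
    intro t ht
    apply hσP
    simp only [P, Finset.mem_union, Finset.mem_image, Finset.mem_range]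
    left; exact ⟨t, ht, rfl⟩
  have := (hk U' u' σ hfix default
    (Fin.snoc ((G.emb ar u u' f h) ∘ x) a)).2 hφ
  have e1 : (G.mp ar u' u' σ.toEmbedding) ∘
      (Fin.snoc ((G.emb ar u u' f h) ∘ x) a : Fin (n + 1) → G.Car ar u') =
      Fin.snoc ((G.emb ar u u' f h) ∘ x) (G.emb ar u u' f h b) := by
    funext i
    refine Fin.lastCases ?_ (fun i => ?_) i
    · rw [Function.comp, Fin.snoc_last, Fin.snoc_last]
      exact hb.symm
    · rw [Function.comp, Fin.snoc_castSucc, Fin.snoc_castSucc]
      show G.map σ.toEmbedding (G.map f (x i)) = G.map f (x i)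
      rw [G.map_comp]
      apply G.map_congr
      intro a' ha'
      show σ (f a') = f a'
      apply hσP
      simp only [P, Finset.mem_union, Finset.mem_biUnion, Finset.mem_univ, true_and]
      right
      refine ⟨i, ?_⟩
      rw [G.supp_map]
      exact Finset.mem_map.2 ⟨a', ha', rfl⟩
  rw [e1] at this
  have e2 : ∀ v w : Empty → G.Car ar u', v = w := fun v w => funext fun x => x.elim
  rw [e2 default _]
  exact this

end Fam

end Pool.Agent.H494_SCM
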