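import Pool.Agent.H494_SCM.StepsAB
import Pool.Agent.H494_SCM.BaseGood

/-! Iterating the extension step. -/

open FirstOrder Cardinal FirstOrder.Language

namespace Pool.Agent.H494_SCM

/-- iterated arities -/
def arIter : ℕ → (ℕ → ℕ) → (ℕ → ℕ)
  | 0, ar => ar
  | (M + 1), ar => arIter M (arMk ar)

/-- iterated extensions -/
noncomputable def famIter : ℕ → (ℕ → ℕ) → Fam → Fam
  | 0, _, G => G
  | (M + 1), ar, G => famIter M (arMk ar) (famMk (ar 0) G)

theorem good_iter (M : ℕ) : ∀ {ar : ℕ → ℕ} {G : Fam}, Good ar G →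
    Good (arIter M ar) (famIter M ar G) := by
  induction M with
  | zero => intro ar G h; exact h
  | succ M ih => intro ar G h; exact ih (good_mk h)

theorem computable_arMk {ar : ℕ → ℕ} (h : Computable ar) : Computable (arMk ar) := by
  have h1 : Computable (fun i : ℕ => Nat.casesOn (motive := fun _ => ℕ) i (ar 0 + 1)
      (fun j => Nat.casesOn (motive := fun _ => ℕ) j 1 (fun k => ar (k + 1)))) := by
    refine Computable.nat_casesOn Computable.id (Computable.const _) ?_
    have h2 : Computable (fun j : ℕ => Nat.casesOn (motive := fun _ => ℕ) j 1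
        (fun k => ar (k + 1))) :=
      Computable.nat_casesOn Computable.id (Computable.const _)
        ((h.comp (Computable.succ.comp Computable.snd)))
    exact h2.comp Computable.snd
  refine h1.of_eq ?_
  intro i
  match i with
  | 0 => rfl
  | 1 => rfl
  | (i + 2) => rfl

theorem computable_arIter (M : ℕ) : ∀ {ar : ℕ → ℕ}, Computable ar → Computable (arIter M ar) := by
  induction M with
  | zero => intro ar h; exact h
  | succ M ih => intro ar h; exact ih (computable_arMk h)

theorem const_mk {n : ℕ} (hn : 1 ≤ n) {B : Type} (s : ℕ → List B → Prop)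
    (b : B ⊕ {L : List B // L.length = n ∧ ¬ s 0 L}) :
    ¬ mkStr n s 0 (List.replicate (n + 1) b) := by
  rintro ⟨⟨y, hy⟩, h⟩
  obtain ⟨m, rfl⟩ : ∃ m, n = m + 1 := ⟨n - 1, by omega⟩
  rw [List.replicate_succ, List.replicate_succ] at h
  obtain ⟨h1, h2⟩ := List.cons.inj h
  cases y with
  | nil => simp at hy
  | cons a y =>
    rw [List.map_cons] at h2
    have h3 := (List.cons.inj h2).1
    rw [h3] at h1
    exact Sum.inl_ne_inr h1

theorem pres_iter (m : ℕ) : ∀ {ar : ℕ → ℕ} {G : Fam} {U : Type} (u : ℕ ↪ U), 1 ≤ ar 0 →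
    (∀ b, ¬ G.str u 0 (List.replicate (ar 0) b)) → Pres ar (G.str u) (fun H => LP m H) →
    Pres (arIter (2 * m) ar) ((famIter (2 * m) ar G).str u) (fun H => ComputablePred H) := by
  induction m with
  | zero => intro ar G U u _ _ h; exact h
  | succ m ih =>
    intro ar G U u har hc h
    have h1 : Pres (arMk ar) ((famMk (ar 0) G).str u) (fun H => CoLP m H) := stepA har hc h
    have har1 : 1 ≤ arMk ar 0 := by show 1 ≤ ar 0 + 1; omega
    have hc1 : ∀ b, ¬ (famMk (ar 0) G).str u 0 (List.replicate (arMk ar 0) b) :=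
      fun b => const_mk har (G.str u) b
    have h2 : Pres (arMk (arMk ar)) ((famMk (arMk ar 0) (famMk (ar 0) G)).str u)
      (fun H => LP m H) := stepB har1 hc1 h1
    have har2 : 1 ≤ arMk (arMk ar) 0 := by show 1 ≤ arMk ar 0 + 1; omega
    have hc2 : ∀ b, ¬ (famMk (arMk ar 0) (famMk (ar 0) G)).str u 0
        (List.replicate (arMk (arMk ar) 0) b) :=
      fun b => const_mk har1 ((famMk (ar 0) G).str u) b
    exact ih u har2 hc2 h2

theorem hasConstr_of_pres {ar : ℕ → ℕ} (har : Computable ar) {B : Type} {s : ℕ → List B → Prop}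
    (h : Pres ar s (fun H => ComputablePred H)) : HasConstr (ar := ar) (Mk ar s) := by
  obtain ⟨e, V, H, hV, hH, hVs, hHs⟩ := h
  let s' : ℕ → List ℕ → Prop := fun i L => (i = 0 ∧ H L) ∨ (i ≠ 0 ∧ V (i - 1, L))
  refine ⟨instMk ar s', ?_, ⟨mkEquiv (M := Mk ar s) (N := Mk ar s') e ?_⟩⟩
  · have h1 : ComputablePred (fun p : ℕ × List ℕ => ar p.1 = p.2.length ∧ s' p.1 p.2) := by
      refine cp_and (cp_eq (har.comp Computable.fst) (Computable.list_length.comp Computable.snd))
        (cp_or (cp_and (cp_eq Computable.fst (Computable.const 0))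
          (cp_comp hH Computable.snd)) (cp_and (cp_not (cp_eq Computable.fst (Computable.const 0)))
          (cp_comp hV (f := fun p : ℕ × List ℕ => (p.1 - 1, p.2)) ?_)))
      exact Computable.pair (Computable.pred.comp Computable.fst) Computable.snd
    refine cp_of_iff h1 ?_
    rintro ⟨i, L⟩
    have h2 : ∀ h : ar i = L.length,
        @FirstOrder.Language.Structure.RelMap (RL ar) ℕ (instMk ar s') _ ⟨i, h⟩ L.get ↔
          s' i L := by
      intro h
      show s' i (List.ofFn L.get) ↔ s' i L
      rw [List.ofFn_get]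
    constructor
    · rintro ⟨h, h3⟩
      exact ⟨h, (h2 h).1 h3⟩
    · rintro ⟨h, h3⟩
      exact ⟨h, (h2 h).2 h3⟩
  · intro i L hL
    have h3 : s' i (List.map e L) ↔ s i L := by
      cases i with
      | zero =>
        simp only [s', ne_eq, not_true_eq_false, false_and, or_false, true_and]
        exact (hHs L hL).symm
      | succ i =>
        have hne : ((i + 1 = 0) ↔ False) := by simp
        simp only [s', hne, false_and, false_or, ne_eq, not_false_eq_true, true_and,
          Nat.add_sub_cancel]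
        exact (hVs i L hL).symm
    rw [rel_Mk, rel_Mk]
    exact and_congr (Iff.of_eq (congrArg (· = ar i) (List.length_map _))) h3

/-- from a constructivization to a computable relation -/
theorem exists_of_hasConstr {ar : ℕ → ℕ} {M : Type} [(RL ar).Structure M]
    (h : HasConstr (ar := ar) M) :
    ∃ (e : M ≃ ℕ) (D : ℕ × List ℕ → Prop), ComputablePred D ∧
      ∀ i (L : List M), rel ar M i L ↔ D (i, L.map e) := by
  obtain ⟨s, hs, ⟨e⟩⟩ := h
  refine ⟨e.toEquiv, _, hs, ?_⟩
  intro i L
  rw [← rel_equiv e i L]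
  constructor
  · intro h1
    have hlen := rel_length h1
    refine ⟨hlen.symm, ?_⟩
    rw [← rel_ofFn hlen.symm, List.ofFn_get]
    exact h1
  · rintro ⟨h1, h2⟩
    rw [← rel_ofFn h1, List.ofFn_get] at h2
    exact h2

end Pool.Agent.H494_SCM
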