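import Pool.Agent.H494_SCM.Defs

/-! Iterated limits of computable predicates. -/

open Filter

namespace Pool.Agent.H494_SCM

/-! ### closure properties of computable predicates -/

section comp

variable {α β : Type*} [Primcodable α] [Primcodable β]

theorem cp_iff {p : α → Prop} :
    ComputablePred p ↔ ∃ f : α → Bool, Computable f ∧ ∀ a, p a ↔ f a = true := by
  rw [ComputablePred.computable_iff]
  constructor
  · rintro ⟨f, hf, rfl⟩; exact ⟨f, hf, fun a => Iff.rfl⟩
  · rintro ⟨f, hf, h⟩; exact ⟨f, hf, funext fun a => propext (h a)⟩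

theorem cp_comp {p : α → Prop} (hp : ComputablePred p) {f : β → α} (hf : Computable f) :
    ComputablePred (fun b => p (f b)) := by
  obtain ⟨g, hg, h⟩ := cp_iff.1 hp
  exact cp_iff.2 ⟨_, hg.comp hf, fun b => h (f b)⟩

theorem cp_and {p q : α → Prop} (hp : ComputablePred p) (hq : ComputablePred q) :
    ComputablePred (fun a => p a ∧ q a) := by
  obtain ⟨f, hf, h⟩ := cp_iff.1 hp
  obtain ⟨g, hg, h'⟩ := cp_iff.1 hq
  refine cp_iff.2 ⟨_, Primrec.and.to_comp.comp hf hg, fun a => ?_⟩
  rw [h, h']; simp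

theorem cp_or {p q : α → Prop} (hp : ComputablePred p) (hq : ComputablePred q) :
    ComputablePred (fun a => p a ∨ q a) := by
  obtain ⟨f, hf, h⟩ := cp_iff.1 hp
  obtain ⟨g, hg, h'⟩ := cp_iff.1 hq
  refine cp_iff.2 ⟨_, Primrec.or.to_comp.comp hf hg, fun a => ?_⟩
  rw [h, h']; simp

theorem cp_not {p : α → Prop} (hp : ComputablePred p) : ComputablePred (fun a => ¬ p a) :=
  hp.not

theorem cp_const (c : Prop) : ComputablePred (fun _ : α => c) := by
  by_cases hc : c
  · exact cp_iff.2 ⟨fun _ => true, Computable.const true, fun a => by simp [hc]⟩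
  · exact cp_iff.2 ⟨fun _ => false, Computable.const false, fun a => by simp [hc]⟩

theorem cp_of_iff {p q : α → Prop} (hp : ComputablePred p) (h : ∀ a, q a ↔ p a) :
    ComputablePred q := hp.of_eq (fun a => (h a).symm)

theorem cp_eq [DecidableEq β] {f g : α → β} (hf : Computable f) (hg : Computable g) :
    ComputablePred (fun a => f a = g a) := by
  have h : Primrec₂ (fun a b : β => decide (a = b)) := PrimrecRel.decide Primrec.eq
  refine cp_iff.2 ⟨_, h.to_comp.comp hf hg, fun a => ?_⟩
  simp

theorem cp_lt {f g : α → ℕ} (hf : Computable f) (hg : Computable g) :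
    ComputablePred (fun a => f a < g a) := by
  have h : Primrec₂ (fun a b : ℕ => decide (a < b)) := PrimrecRel.decide Primrec.nat_lt
  refine cp_iff.2 ⟨_, h.to_comp.comp hf hg, fun a => ?_⟩
  simp

theorem cp_le {f g : α → ℕ} (hf : Computable f) (hg : Computable g) :
    ComputablePred (fun a => f a ≤ g a) := by
  have h : Primrec₂ (fun a b : ℕ => decide (a ≤ b)) := PrimrecRel.decide Primrec.nat_le
  refine cp_iff.2 ⟨_, h.to_comp.comp hf hg, fun a => ?_⟩
  simp

theorem cp_ball {p : α × ℕ → Prop} (hp : ComputablePred p) :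
    ComputablePred (fun x : α × ℕ => ∀ t < x.2, p (x.1, t)) := by
  obtain ⟨f, hf, h⟩ := cp_iff.1 hp
  refine cp_iff.2 ⟨fun x => Nat.rec (motive := fun _ => Bool) true
    (fun t r => r && f (x.1, t)) x.2, ?_, ?_⟩
  · have h1 : Computable₂ (fun (x : α × ℕ) (tr : ℕ × Bool) => (tr.2 && f (x.1, tr.1))) :=
      Primrec.and.to_comp.comp (Computable.snd.comp Computable.snd)
        (hf.comp (Computable.pair (Computable.fst.comp Computable.fst)
          (Computable.fst.comp Computable.snd)))
    exact Computable.nat_rec Computable.snd (Computable.const true) h1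
  · rintro ⟨a, b⟩
    simp only
    induction b with
    | zero => simp
    | succ b ih =>
      simp only [Bool.and_eq_true]
      rw [← ih, ← h]
      constructor
      · intro hh
        exact ⟨fun t ht => hh t (by omega), hh b (by omega)⟩
      · rintro ⟨h1, h2⟩ t ht
        rcases Nat.lt_succ_iff_lt_or_eq.1 ht with ht | rfl
        · exact h1 t ht
        · exact h2

theorem cp_bex {p : α × ℕ → Prop} (hp : ComputablePred p) :
    ComputablePred (fun x : α × ℕ => ∃ t < x.2, p (x.1, t)) := by
  refine cp_of_iff (cp_not (cp_ball (cp_not hp))) ?_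
  intro a
  push Not
  rfl

end comp

/-- iterated limits of computable predicates -/
def LP : (m : ℕ) → {α : Type} → [Primcodable α] → (α → Prop) → Prop
  | 0, _, _, p => ComputablePred p
  | (m + 1), α, _, p =>
    ∃ q : α × ℕ → Prop, LP m q ∧ ∀ a, ∀ᶠ s in atTop, (q (a, s) ↔ p a)

namespace LP

variable {α β : Type} [Primcodable α] [Primcodable β]

theorem zero_iff {p : α → Prop} : LP 0 p ↔ ComputablePred p := Iff.rfl

theorem succ_iff {m : ℕ} {p : α → Prop} : LP (m + 1) p ↔
    ∃ q : α × ℕ → Prop, LP m q ∧ ∀ a, ∀ᶠ s in atTop, (q (a, s) ↔ p a) := Iff.rfl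

theorem of_iff {m : ℕ} {p q : α → Prop} (hp : LP m p) (h : ∀ a, q a ↔ p a) : LP m q := by
  have : q = p := funext fun a => propext (h a)
  rw [this]; exact hp

theorem comp {m : ℕ} : ∀ {α β : Type} [Primcodable α] [Primcodable β] {p : α → Prop}
    (_ : LP m p) {f : β → α} (_ : Computable f), LP m (fun b => p (f b)) := by
  induction m with
  | zero => intro α β _ _ p hp f hf; exact cp_comp hp hf
  | succ m ih =>
    intro α β _ _ p hp f hf
    obtain ⟨q, hq, h⟩ := hp
    refine ⟨fun x : β × ℕ => q (f x.1, x.2), ?_, fun b => h (f b)⟩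
    exact ih hq (Computable.pair (hf.comp Computable.fst) Computable.snd)

theorem of_cp {m : ℕ} : ∀ {α : Type} [Primcodable α] {p : α → Prop} (_ : ComputablePred p),
    LP m p := by
  induction m with
  | zero => intro α _ p hp; exact hp
  | succ m ih =>
    intro α _ p hp
    exact ⟨fun x => p x.1, ih (cp_comp hp Computable.fst), fun a => by simp⟩

theorem mono {m : ℕ} {p : α → Prop} (hp : LP m p) : LP (m + 1) p :=
  ⟨fun x => p x.1, hp.comp Computable.fst, fun a => by simp⟩

theorem not {m : ℕ} : ∀ {α : Type} [Primcodable α] {p : α → Prop} (_ : LP m p),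
    LP m (fun a => ¬ p a) := by
  induction m with
  | zero => intro α _ p hp; exact cp_not hp
  | succ m ih =>
    intro α _ p hp
    obtain ⟨q, hq, h⟩ := hp
    exact ⟨fun x => ¬ q x, ih hq, fun a => (h a).mono (fun s hs => not_congr hs)⟩

theorem and {m : ℕ} : ∀ {α : Type} [Primcodable α] {p p' : α → Prop} (_ : LP m p)
    (_ : LP m p'), LP m (fun a => p a ∧ p' a) := by
  induction m with
  | zero => intro α _ p p' hp hp'; exact cp_and hp hp'
  | succ m ih =>
    intro α _ p p' hp hp'
    obtain ⟨q, hq, h⟩ := hp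
    obtain ⟨q', hq', h'⟩ := hp'
    exact ⟨fun x => q x ∧ q' x, ih hq hq', fun a => by
      filter_upwards [h a, h' a] with s h1 h2
      exact and_congr h1 h2⟩

theorem or {m : ℕ} {p p' : α → Prop} (hp : LP m p) (hp' : LP m p') :
    LP m (fun a => p a ∨ p' a) := by
  refine (hp.not.and hp'.not).not.of_iff (fun a => ?_)
  tauto

theorem ball {m : ℕ} : ∀ {α : Type} [Primcodable α] {p : α × ℕ → Prop} (_ : LP m p),
    LP m (fun x : α × ℕ => ∀ t < x.2, p (x.1, t)) := by
  induction m with
  | zero => intro α _ p hp; exact cp_ball hp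
  | succ m ih =>
    intro α _ p hp
    obtain ⟨q, hq, h⟩ := hp
    have h1 : LP m (fun y : (α × ℕ) × ℕ => q ((y.1.1, y.2), y.1.2)) :=
      hq.comp (Computable.pair (Computable.pair (Computable.fst.comp Computable.fst)
        Computable.snd) (Computable.snd.comp Computable.fst))
    have h2 := ih h1
    refine ⟨fun x : (α × ℕ) × ℕ => ∀ t < x.1.2, q ((x.1.1, t), x.2), ?_, ?_⟩
    · have h3 : Computable (fun x : (α × ℕ) × ℕ => (((x.1.1, x.2), x.1.2) : (α × ℕ) × ℕ)) :=
        Computable.pair (Computable.pair (Computable.fst.comp Computable.fst)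
          Computable.snd) (Computable.snd.comp Computable.fst)
      exact h2.comp h3
    · rintro ⟨a, b⟩
      have h4 : ∀ᶠ s in atTop, ∀ t ∈ Finset.range b, (q ((a, t), s) ↔ p (a, t)) := by
        rw [Filter.eventually_all_finset]
        intro t _
        exact h (a, t)
      filter_upwards [h4] with s hs
      apply forall_congr'; intro t
      apply imp_congr_right; intro ht
      exact hs t (Finset.mem_range.2 ht)

theorem bex {m : ℕ} {p : α × ℕ → Prop} (hp : LP m p) :
    LP m (fun x : α × ℕ => ∃ t < x.2, p (x.1, t)) := by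
  refine hp.not.ball.not.of_iff (fun a => ?_)
  push Not
  rfl

theorem ex {m : ℕ} {p : α × ℕ → Prop} (hp : LP m p) : LP (m + 1) (fun a => ∃ y, p (a, y)) := by
  refine ⟨fun x : α × ℕ => ∃ t < x.2, p (x.1, t), hp.bex, fun a => ?_⟩
  by_cases h : ∃ y, p (a, y)
  · obtain ⟨y, hy⟩ := h
    filter_upwards [eventually_gt_atTop y] with s hs
    exact iff_of_true ⟨y, hs, hy⟩ ⟨y, hy⟩
  · refine Filter.Eventually.of_forall (fun s => iff_of_false ?_ h)
    rintro ⟨t, _, ht⟩
    exact h ⟨t, ht⟩

theorem mono_le {m m' : ℕ} (h : m ≤ m') {p : α → Prop} (hp : LP m p) : LP m' p := by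
  induction h with
  | refl => exact hp
  | step _ ih => exact ih.mono

end LP

theorem LP_of_arith {p : ℕ → Prop} (hp : IsArith p) : ∃ m, LP m p := by
  induction hp with
  | comp h => exact ⟨0, h⟩
  | not _ ih =>
    obtain ⟨m, hm⟩ := ih
    exact ⟨m, hm.not⟩
  | ex _ ih =>
    obtain ⟨m, hm⟩ := ih
    refine ⟨m + 1, ?_⟩
    exact LP.ex (hm.comp (f := fun x : ℕ × ℕ => Nat.pair x.1 x.2)
      (Primrec₂.natPair.to_comp.comp Computable.fst Computable.snd))

/-- co-enumerable relative to a class -/
def CoLP (m : ℕ) {α : Type} [Primcodable α] (p : α → Prop) : Prop :=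
  ∃ q : α × ℕ → Prop, LP m q ∧ ∀ a, (p a ↔ ∀ t, q (a, t))

end Pool.Agent.H494_SCM
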