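import Pool.Agent.H494_SCM.NonComp
import Pool.Agent.H494_SCM.EncComp

/-! The main theorem. -/

open Nat.Partrec (Code)
open FirstOrder Cardinal FirstOrder.Language

namespace Pool.Agent.H494_SCM

theorem bar_comp : Computable bar := by
  have h1 : Computable (fun idx : ℕ => if (Nat.unpair idx).1 = 2 then 2 else
      if (Nat.unpair idx).1 = 4 then (Nat.unpair (Nat.unpair idx).2).1 + 1 else 1) := by
    have a0 := c_up1 (Computable.id (α := ℕ))
    have a1 := c_up1 (c_up2 (Computable.id (α := ℕ)))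
    have k1 : Computable (fun _ : ℕ => (1 : ℕ)) := Computable.const 1
    have k2 : Computable (fun _ : ℕ => (2 : ℕ)) := Computable.const 2
    have k4 : Computable (fun _ : ℕ => (4 : ℕ)) := Computable.const 4
    have a2 := c_add a1 k1
    have a3 := c_ite (cp_eq a0 k4) a2 k1
    exact c_ite (cp_eq a0 k2) k2 a3
  have h2 : Computable (fun i : ℕ => Nat.casesOn (motive := fun _ => ℕ) i 4
      (fun idx => if (Nat.unpair idx).1 = 2 then 2 else
      if (Nat.unpair idx).1 = 4 then (Nat.unpair (Nat.unpair idx).2).1 + 1 else 1)) :=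
    Computable.nat_casesOn Computable.id (Computable.const _) (h1.comp Computable.snd)
  refine h2.of_eq ?_
  intro i
  cases i with
  | zero => rfl
  | succ idx =>
    show (if (Nat.unpair idx).1 = 2 then 2 else
      if (Nat.unpair idx).1 = 4 then (Nat.unpair (Nat.unpair idx).2).1 + 1 else 1) =
      bar (idx + 1)
    unfold bar
    rcases hk : (Nat.unpair idx).1 with _ | _ | _ | _ | _ | k <;> simp [hk]

theorem const_base (p : Par) (u : ℕ ↪ ℕ) (b : (base p).F ℕ) :
    ¬ (base p).str u 0 (List.replicate (bar 0) b) := by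
  rintro ⟨r, a, w, h⟩
  have h1 : [b, b, b, b] = ([Sum.inr (r, a, w), Sum.inl r, Sum.inl a, Sum.inl w] :
    List (ℕ ⊕ ℕ × ℕ × ℕ)) := h
  have h2 := (List.cons.inj h1).1
  have h3 := (List.cons.inj (List.cons.inj h1).2).1
  exact Sum.inl_ne_inr (h3.symm.trans h2)

theorem hasConstr_congr {ar : ℕ → ℕ} {M N : Type} [(RL ar).Structure M] [(RL ar).Structure N]
    (e : M ≃[RL ar] N) : HasConstr (ar := ar) M ↔ HasConstr (ar := ar) N := by
  constructor
  · rintro ⟨s, hs, ⟨f⟩⟩
    exact ⟨s, hs, ⟨f.comp e.symm⟩⟩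
  · rintro ⟨s, hs, ⟨f⟩⟩
    exact ⟨s, hs, ⟨f.comp e⟩⟩

theorem main (X : Set ℕ∞) (hX : IsArith (fun n : ℕ => (n : ℕ∞) ∈ X)) :
    ∃ ar : ℕ → ℕ, Computable ar ∧ ∃ T : (RL ar).Theory, T.IsComplete ∧
      Cardinal.Categorical (ℵ₁ : Cardinal.{0}) T ∧ ¬ Cardinal.Categorical (ℵ₀ : Cardinal.{0}) T ∧
      ∃ A : ℕ∞ → FirstOrder.Language.Theory.ModelType.{0, 0, 0} T, IsChain T A ∧
        ∀ i : ℕ∞, HasConstr (ar := ar) (A i) ↔ i ∈ X := by
  classical
  obtain ⟨m0, hm0⟩ := LP_of_arith hX
  let m := max m0 3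
  let M := 2 * m
  let bit : ℕ → Prop := fun i => ¬ (((Nat.unpair i).1 : ℕ∞) ∈ X) ∧ zset (Nat.unpair i).2
  have hbit : LP m bit := by
    have h1 : LP m (fun n : ℕ => (n : ℕ∞) ∈ X) := hm0.mono_le (le_max_left _ _)
    have h2 : LP m zset := zset_LP.mono_le (le_max_right _ _)
    have h3 := (h1.comp (c_up1 (Computable.id (α := ℕ)))).not
    have h4 := h2.comp (c_up2 (Computable.id (α := ℕ)))
    exact h3.and h4
  have hst : ∃ st : ℕ → ℕ → Option ℕ, StOK st ∧ (⊤ ∈ X → st = fun _ _ => none) ∧
      (⊤ ∉ X → ∀ c : Code, (∀ τ, (Code.eval c (inp M (Encodable.encode c) τ)).Dom) →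
      ∀ τ, (st (Encodable.encode c) τ ≠ none ↔
        0 ∈ Code.eval c (inp M (Encodable.encode c) τ))) := by
    by_cases hT : ⊤ ∈ X
    · exact ⟨fun _ _ => none, stOK_none, fun _ => rfl, fun h => absurd hT h⟩
    · obtain ⟨st, h1, h2⟩ := exists_st (inp M) (inp_comp M)
      exact ⟨st, h1, fun h => absurd h hT, fun _ => h2⟩
  obtain ⟨st, hst1, hst2, hst3⟩ := hst
  let p : Par := ⟨bit, st⟩
  have hbar : Computable (arIter M bar) := computable_arIter M bar_comp
  have hG : Good (arIter M bar) (famIter M bar (base p)) := good_iter M (good_base p)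
  obtain ⟨T, hT1, hT2, hT3, A, hA, hiso⟩ := chain_of_good hG
  refine ⟨arIter M bar, hbar, T, hT1, hT2, hT3, A, hA, ?_⟩
  have hpos : ∀ u : ℕ ↪ ℕ, Pres bar ((base p).str u) (fun H => LP m H) →
      HasConstr (ar := arIter M bar) ((famIter M bar (base p)).Car (arIter M bar) u) := by
    intro u hu
    have h1 := pres_iter m u (by show 1 ≤ 4; omega) (const_base p u) hu
    exact hasConstr_of_pres hbar h1
  intro i
  obtain ⟨e⟩ := hiso i
  rw [hasConstr_congr e]
  clear e
  induction i using ENat.recTopCoe with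
  | top =>
    constructor
    · intro h
      by_contra hcon
      exact not_constr_omega p M (hst3 hcon) h
    · intro h
      apply hpos
      refine pres_omega p ?_ hbit
      refine cp_of_iff (cp_const False) ?_
      intro x
      simp only [iff_false, not_and, not_exists]
      intro _ _ s hs _
      have h1 : p.st = fun _ _ => none := hst2 h
      rw [h1] at hs
      exact absurd hs (by simp)
  | coe j =>
    constructor
    · intro h
      by_contra hcon
      refine not_constr_finite p j ?_ M h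
      intro n
      show (¬ (((Nat.unpair (Nat.pair j n)).1 : ℕ∞) ∈ X) ∧
        zset (Nat.unpair (Nat.pair j n)).2) ↔ zset n
      rw [Nat.unpair_pair]
      exact and_iff_right hcon
    · intro h
      apply hpos
      refine pres_finite j p ?_ ?_ hbit
      · rintro i ⟨h1, _⟩ h2
        rw [h2] at h1
        exact h1 h
      · refine cp_of_iff (hQ_finite st hst1 j) ?_
        intro x
        simp only [mark_coe]
        exact Iff.rfl

end Pool.Agent.H494_SCM
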