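import Pool.Agent.H494_SCM.Chain

/-! The extension step: a relation becomes definable by an existential formula over a new sort. -/

open FirstOrder Cardinal FirstOrder.Language

namespace Pool.Agent.H494_SCM

/-- arities after the extension step -/
def arMk (ar : ℕ → ℕ) : ℕ → ℕ
  | 0 => ar 0 + 1
  | 1 => 1
  | (i + 2) => ar (i + 1)

/-- old relations in the extension -/
def mkV {B W : Type} (v : ℕ → List B → Prop) : ℕ → List (B ⊕ W) → Prop
  | 0 => fun L' => ∃ b, L' = [Sum.inl b]
  | (i + 1) => fun L' => ∃ L : List B, L' = L.map Sum.inl ∧ v i L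

/-- the extension of a structure -/
def mkStr (n : ℕ) {B : Type} (s : ℕ → List B → Prop) :
    ℕ → List (B ⊕ {L : List B // L.length = n ∧ ¬ s 0 L}) → Prop
  | 0 => fun L' => ∃ y : {L : List B // L.length = n ∧ ¬ s 0 L},
      L' = Sum.inr y :: y.1.map Sum.inl
  | (i + 1) => mkV (fun i => s (i + 1)) i

theorem map_sum_inl {A B A' B' : Type*} (f : A → A') (g : B → B') :
    ∀ (L' : List (A ⊕ B)) (L : List A'), L'.map (Sum.map f g) = L.map Sum.inl →
      ∃ L0 : List A, L' = L0.map Sum.inl ∧ L0.map f = L
  | [], L, h => by
    refine ⟨[], rfl, ?_⟩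
    cases L with
    | nil => rfl
    | cons a L => simp at h
  | (x :: L'), L, h => by
    cases L with
    | nil => simp at h
    | cons a L =>
      simp only [List.map_cons, List.cons.injEq] at h
      obtain ⟨L0, h1, h2⟩ := map_sum_inl f g L' L h.2
      cases x with
      | inl x =>
        simp only [Sum.map_inl, Sum.inl.injEq] at h
        exact ⟨x :: L0, by simp [h1], by simp [h.1, h2]⟩
      | inr x => simp at h

theorem exists_map_list {A B : Type*} (f : A → B) :
    ∀ L : List B, (∀ x ∈ L, ∃ y, f y = x) → ∃ L0 : List A, L0.map f = L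
  | [], _ => ⟨[], rfl⟩
  | (x :: L), h => by
    obtain ⟨L0, h0⟩ := exists_map_list f L (fun x hx => h x (List.mem_cons_of_mem _ hx))
    obtain ⟨y, hy⟩ := h x (List.mem_cons_self)
    exact ⟨y :: L0, by simp [h0, hy]⟩

open Classical in
/-- the extension step for families -/
noncomputable def famMk (n : ℕ) (G : Fam) : Fam where
  F U := G.F U ⊕ {L : List (G.F U) // L.length = n ∧ ¬ G.R L}
  map f := Sum.map (G.map f) (fun y => ⟨y.1.map (G.map f), by
    rw [List.length_map]; exact y.2.1, fun h => y.2.2 ((G.R_nat f y.1).1 h)⟩)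
  map_id := by
    rintro U (x | ⟨y, hy⟩)
    · simp [G.map_id]
    · simp only [Sum.map_inr, Sum.inr.injEq, Subtype.mk.injEq]
      conv_rhs => rw [← List.map_id y]
      apply List.map_congr_left
      intro a _
      exact G.map_id a
  map_comp := by
    rintro U U' U'' f g (x | ⟨y, hy⟩)
    · simp [G.map_comp]
    · simp only [Sum.map_inr, Sum.inr.injEq, Subtype.mk.injEq, List.map_map]
      apply List.map_congr_left
      intro a _
      exact G.map_comp f g a
  map_inj := by
    intro U U' f
    apply Function.Injective.sumMap (G.map_inj f)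
    intro y y' h
    simp only [Subtype.mk.injEq] at h
    exact Subtype.ext (List.map_injective_iff.2 (G.map_inj f) h)
  supp := fun x => match x with
    | Sum.inl x => G.supp x
    | Sum.inr y => y.1.toFinset.biUnion G.supp
  supp_map := by
    rintro U U' f (x | ⟨y, hy⟩)
    · exact G.supp_map f x
    · ext a
      simp only [Sum.map_inr, Finset.mem_biUnion, List.mem_toFinset, List.mem_map,
        Finset.mem_map]
      constructor
      · rintro ⟨_, ⟨b, hb, rfl⟩, hab⟩
        rw [G.supp_map] at hab
        obtain ⟨c, hc, rfl⟩ := Finset.mem_map.1 hab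
        exact ⟨c, ⟨b, hb, hc⟩, rfl⟩
      · rintro ⟨c, ⟨b, hb, hc⟩, rfl⟩
        refine ⟨_, ⟨b, hb, rfl⟩, ?_⟩
        rw [G.supp_map]
        exact Finset.mem_map.2 ⟨c, hc, rfl⟩
  map_congr := by
    rintro U U' f g (x | ⟨y, hy⟩) h
    · simp only [Sum.map_inl, Sum.inl.injEq]
      exact G.map_congr f g x h
    · simp only [Sum.map_inr, Sum.inr.injEq, Subtype.mk.injEq]
      apply List.map_congr_left
      intro a ha
      apply G.map_congr
      intro b hb
      apply h
      simp only [Finset.mem_biUnion, List.mem_toFinset]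
      exact ⟨a, ha, hb⟩
  exists_map := by
    rintro U U' f (x | ⟨y, hy⟩) h
    · obtain ⟨x', rfl⟩ := G.exists_map f x h
      exact ⟨Sum.inl x', rfl⟩
    · obtain ⟨L0, rfl⟩ := exists_map_list (G.map f) y (fun x hx => G.exists_map f x (by
        intro a ha
        apply h
        simp only [Finset.mem_biUnion, List.mem_toFinset]
        exact ⟨x, hx, ha⟩))
      refine ⟨Sum.inr ⟨L0, by simpa using hy.1, fun h => hy.2 ((G.R_nat f L0).2 h)⟩, rfl⟩
  faithful := by
    intro U U' f g h
    apply G.faithful
    intro x
    have := h (Sum.inl x)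
    simpa using this
  R L' := ∃ y : {L : List (G.F _) // L.length = n ∧ ¬ G.R L}, L' = Sum.inr y :: y.1.map Sum.inl
  V u := mkV (G.V u)
  K i := match i with
    | 0 => 0
    | (i + 1) => G.K i
  R_nat := by
    intro U U' f L'
    have hinj : Function.Injective (Sum.map (G.map f)
        (fun y : {L : List (G.F U) // L.length = n ∧ ¬ G.R L} =>
          (⟨y.1.map (G.map f), by rw [List.length_map]; exact y.2.1,
            fun h => y.2.2 ((G.R_nat f y.1).1 h)⟩ :
              {L : List (G.F U') // L.length = n ∧ ¬ G.R L}))) := by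
      apply Function.Injective.sumMap (G.map_inj f)
      intro y y' h
      simp only [Subtype.mk.injEq] at h
      exact Subtype.ext (List.map_injective_iff.2 (G.map_inj f) h)
    constructor
    · rintro ⟨y', hy'⟩
      cases L' with
      | nil => simp at hy'
      | cons w L'' =>
        cases w with
        | inl x => simp at hy'
        | inr y =>
          refine ⟨y, ?_⟩
          apply List.map_injective_iff.2 hinj
          rw [hy']
          simp only [List.map_cons, Sum.map_inr, List.cons.injEq, Sum.inr.injEq] at hy'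
          rw [← hy'.1]
          simp [List.map_map, Function.comp_def]
    · rintro ⟨y, rfl⟩
      refine ⟨⟨y.1.map (G.map f), by rw [List.length_map]; exact y.2.1,
            fun h => y.2.2 ((G.R_nat f y.1).1 h)⟩, ?_⟩
      simp [List.map_map, Function.comp_def]
  V_nat := by
    intro U U' f u u' i L' h
    cases i with
    | zero =>
      constructor
      · rintro ⟨b, hb⟩
        obtain ⟨L0, h1, h2⟩ := map_sum_inl _ _ L' [b] hb
        cases L0 with
        | nil => simp at h2
        | cons x L0 =>
          simp only [List.map_cons, List.cons.injEq, List.map_eq_nil_iff] at h2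
          rw [h2.2] at h1
          exact ⟨x, h1⟩
      · rintro ⟨b, rfl⟩
        exact ⟨G.map f b, rfl⟩
    | succ i =>
      constructor
      · rintro ⟨L, h1, h2⟩
        obtain ⟨L0, h3, h4⟩ := map_sum_inl _ _ L' L h1
        refine ⟨L0, h3, ?_⟩
        rw [← G.V_nat f u u' i L0 h, h4]
        exact h2
      · rintro ⟨L, rfl, h2⟩
        refine ⟨L.map (G.map f), ?_, (G.V_nat f u u' i L h).2 h2⟩
        simp [List.map_map, Function.comp_def]

theorem famMk_str (n : ℕ) (G : Fam) {U : Type} (u : ℕ ↪ U) :
    (famMk n G).str u = mkStr n (G.str u) := rfl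

end Pool.Agent.H494_SCM
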