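import Pool.Agent.H494_SCM.Marker

/-! The extension step preserves goodness. -/

open FirstOrder Cardinal FirstOrder.Language

namespace Pool.Agent.H494_SCM

variable {ar : ℕ → ℕ}

/-- one-variable universal quantification -/
theorem UDef.all1 {n : ℕ} {P : ∀ (M : Type) [(RL ar).Structure M], (Fin (n + 1) → M) → Prop}
    (hP : UDef ar (Fin (n + 1)) P) :
    UDef ar (Fin n) (fun M _ v => ∀ x : M, P M (Fin.snoc v x)) := by
  have h1 := (hP.relabel (Fin.snoc (fun i => Sum.inl i) (Sum.inr ()) :
    Fin (n + 1) → Fin n ⊕ Unit)).all (α := Fin n) (β := Unit)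
  refine h1.of_iff ?_
  intro M _ v
  have key : ∀ w : Unit → M, (Sum.elim v w ∘ (Fin.snoc (fun i => Sum.inl i) (Sum.inr ()) :
    Fin (n + 1) → Fin n ⊕ Unit)) = Fin.snoc v (w ()) := by
    intro w
    rw [Fin.comp_snoc]
    rfl
  constructor
  · intro h x
    have := h (fun _ => x)
    rw [key] at this
    exact this
  · intro h w
    rw [key]
    exact h (w ())

theorem rel_emb {M N : Type} [(RL ar).Structure M] [(RL ar).Structure N] (f : M ↪ₑ[RL ar] N)
    (i : ℕ) (L : List M) : rel ar N i (L.map f) ↔ rel ar M i L := by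
  by_cases hL : L.length = ar i
  · obtain ⟨x, rfl⟩ := exists_ofFn L hL
    rw [List.map_ofFn, rel_ofFn rfl, rel_ofFn rfl]
    exact f.map_rel _ _
  · constructor
    · intro h; exact absurd (by simpa using rel_length h) hL
    · intro h; exact absurd (rel_length h) hL

/-- the interpreted structure inside a structure for the extended language -/
def coreS (ar : ℕ → ℕ) (N : Type) [(RL (arMk ar)).Structure N] :
    ℕ → List {x : N // rel (arMk ar) N 1 [x]} → Prop
  | 0 => fun L => ¬ ∃ w, rel (arMk ar) N 0 (w :: L.map Subtype.val)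
  | (i + 1) => fun L => rel (arMk ar) N (i + 2) (L.map Subtype.val)

/-- the interpreted structure -/
abbrev Core (ar : ℕ → ℕ) (N : Type) [(RL (arMk ar)).Structure N] : Type := Mk ar (coreS ar N)

/-- inclusion of the interpreted structure -/
def cval {N : Type} [(RL (arMk ar)).Structure N] : Core ar N → N :=
  fun x => Subtype.val (p := fun x : N => rel (arMk ar) N 1 [x]) x

theorem cval_inj {N : Type} [(RL (arMk ar)).Structure N] :
    Function.Injective (cval (ar := ar) (N := N)) :=
  fun _ _ h => Subtype.ext h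

theorem cval_prop {N : Type} [(RL (arMk ar)).Structure N] (x : Core ar N) :
    rel (arMk ar) N 1 [cval x] := Subtype.prop (p := fun x : N => rel (arMk ar) N 1 [x]) x

theorem exists_cval {N : Type} [(RL (arMk ar)).Structure N] (x : N) (h : rel (arMk ar) N 1 [x]) :
    ∃ y : Core ar N, cval y = x := ⟨(⟨x, h⟩ : {x : N // rel (arMk ar) N 1 [x]}), rfl⟩

theorem rel_core_zero {N : Type} [(RL (arMk ar)).Structure N] (L : List (Core ar N)) :
    rel ar (Core ar N) 0 L ↔ L.length = ar 0 ∧ ¬ ∃ w, rel (arMk ar) N 0 (w :: L.map cval) :=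
  rel_Mk _ _ _

theorem rel_core_succ {N : Type} [(RL (arMk ar)).Structure N] (i : ℕ) (L : List (Core ar N)) :
    rel ar (Core ar N) (i + 1) L ↔ rel (arMk ar) N (i + 2) (L.map cval) := by
  refine (rel_Mk _ _ _).trans ?_
  constructor
  · exact fun h => h.2
  · intro h
    refine ⟨?_, h⟩
    have := rel_length h
    rw [List.length_map] at this
    exact this

theorem translate {n : ℕ} (φ : (RL ar).BoundedFormula Empty n) :
    ∃ P : ∀ (M : Type) [(RL (arMk ar)).Structure M], (Fin n → M) → Prop,
      UDef (arMk ar) (Fin n) P ∧ ∀ (N : Type) [(RL (arMk ar)).Structure N] (y : Fin n → Core ar N),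
        P N (cval ∘ y) ↔ φ.Realize default y := by
  have hterm : ∀ {m : ℕ} (t : (RL ar).Term (Empty ⊕ Fin m)), ∃ x : Fin m,
      t = Term.var (Sum.inr x) := by
    intro m t
    cases t with
    | var x =>
      cases x with
      | inl x => exact x.elim
      | inr x => exact ⟨x, rfl⟩
    | func f ts => exact f.elim
  induction φ with
  | falsum => exact ⟨_, UDef.fls, fun N _ y => Iff.rfl⟩
  | equal t₁ t₂ =>
    obtain ⟨x₁, rfl⟩ := hterm t₁
    obtain ⟨x₂, rfl⟩ := hterm t₂
    exact ⟨_, UDef.eq x₁ x₂, fun N _ y => cval_inj.eq_iff⟩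
  | rel R ts =>
    rename_i m l
    obtain ⟨i, hi⟩ := R
    choose g hg using fun k => hterm (ts k)
    have hval : ∀ (N : Type) [(RL (arMk ar)).Structure N] (y : Fin m → Core ar N),
        (BoundedFormula.rel (L := RL ar) (⟨i, hi⟩ : (RL ar).Relations l) ts).Realize default y ↔
          rel ar (Core ar N) i ((List.ofFn g).map y) := by
      intro N _ y
      simp only [BoundedFormula.Realize]
      rw [← rel_ofFn hi, List.map_ofFn]
      apply Iff.of_eq
      congr 2
      funext k
      rw [hg k]
      rfl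
    cases i with
    | zero =>
      refine ⟨_, UDef.not (UDef.ex (β := Unit) (UDef.rel 0
        (Sum.inr () :: (List.ofFn g).map Sum.inl))), fun N _ y => ?_⟩
      rw [hval, rel_core_zero]
      have h1 : (List.map y (List.ofFn g)).length = ar 0 := by simp [hi]
      rw [iff_true_intro h1, true_and]
      apply not_congr
      constructor
      · rintro ⟨w, hw⟩
        refine ⟨w (), ?_⟩
        convert hw using 1
        simp [List.map_map, Function.comp_def]
      · rintro ⟨w, hw⟩
        refine ⟨fun _ => w, ?_⟩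
        convert hw using 1
        simp [List.map_map, Function.comp_def]
    | succ i =>
      refine ⟨_, UDef.rel (i + 2) (List.ofFn g), fun N _ y => ?_⟩
      rw [hval, rel_core_succ, List.map_map]
  | imp φ ψ ih1 ih2 =>
    obtain ⟨P, hP, h1⟩ := ih1
    obtain ⟨Q, hQ, h2⟩ := ih2
    exact ⟨_, hP.imp hQ, fun N _ y => imp_congr (h1 N y) (h2 N y)⟩
  | all φ ih =>
    rename_i m
    obtain ⟨P, hP, h⟩ := ih
    have hO : UDef (arMk ar) (Fin (m + 1)) (fun M _ v => rel (arMk ar) M 1 [v (Fin.last m)]) :=
      (UDef.rel 1 [Fin.last m]).of_iff (fun M _ v => Iff.rfl)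
    refine ⟨_, UDef.all1 (hO.imp hP), fun N _ y => ?_⟩
    simp only [Fin.snoc_last]
    constructor
    · intro H x
      have := H (cval x) (cval_prop x)
      rw [← Fin.comp_snoc] at this
      exact (h N _).1 this
    · intro H x hx
      obtain ⟨z, rfl⟩ := exists_cval x hx
      rw [← Fin.comp_snoc]
      exact (h N _).2 (H z)

theorem core_equiv {N N' : Type} [(RL (arMk ar)).Structure N] [(RL (arMk ar)).Structure N']
    (h : N ≅[RL (arMk ar)] N') : Core ar N ≅[RL ar] Core ar N' := by
  rw [elementarilyEquivalent_iff]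
  intro φ
  obtain ⟨P, hP, h1⟩ := translate (ar := ar) φ
  have h2 := h1 N default
  have h3 := h1 N' default
  have e : UDef (arMk ar) Empty (fun M _ _ => P M Fin.elim0) := by
    refine (hP.relabel (β := Empty) Fin.elim0).of_iff (fun M _ v => ?_)
    rw [show v ∘ Fin.elim0 = (Fin.elim0 : Fin 0 → M) from Subsingleton.elim _ _]
  have h4 := e.transfer h Empty.elim Empty.elim
  have h5 : (cval ∘ (default : Fin 0 → Core ar N)) = Fin.elim0 := Subsingleton.elim _ _
  have h6 : (cval ∘ (default : Fin 0 → Core ar N')) = Fin.elim0 := Subsingleton.elim _ _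
  rw [h5] at h2
  rw [h6] at h3
  exact h2.symm.trans (h4.trans h3)

theorem core_emb {N N' : Type} [(RL (arMk ar)).Structure N] [(RL (arMk ar)).Structure N']
    (f : N ↪ₑ[RL (arMk ar)] N') :
    ∃ g : Core ar N ↪ₑ[RL ar] Core ar N', ∀ x, cval (g x) = f (cval x) := by
  have h0 : ∀ x : Core ar N, ∃ y : Core ar N', cval y = f (cval x) := by
    intro x
    apply exists_cval
    have := (rel_emb f 1 [cval x]).2 (cval_prop x)
    exact this
  choose g hg using h0
  refine ⟨⟨g, ?_⟩, hg⟩
  intro n φ x
  have h1 : φ.Realize x ↔ (BoundedFormula.relabel (fun i => Sum.inr i) φ :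
      (RL ar).BoundedFormula Empty (n + 0)).Realize default (x : Fin n → Core ar N) := by
    rw [BoundedFormula.realize_relabel]
    simp only [Nat.add_zero, Fin.castAdd_zero, Fin.cast_refl, Function.comp_id,
      Fin.natAdd_zero]
    rw [Formula.Realize, iff_iff_eq]
    congr 1
    exact Subsingleton.elim _ _
  have h2 : φ.Realize (g ∘ x) ↔ (BoundedFormula.relabel (fun i => Sum.inr i) φ :
      (RL ar).BoundedFormula Empty (n + 0)).Realize default (g ∘ x : Fin n → Core ar N') := by
    rw [BoundedFormula.realize_relabel]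
    simp only [Nat.add_zero, Fin.castAdd_zero, Fin.cast_refl, Function.comp_id,
      Fin.natAdd_zero]
    rw [Formula.Realize, iff_iff_eq]
    congr 1
    exact Subsingleton.elim _ _
  obtain ⟨P, hP, h3⟩ := translate (ar := ar)
    (BoundedFormula.relabel (fun i => Sum.inr i) φ : (RL ar).BoundedFormula Empty (n + 0))
  rw [h1, h2, ← h3, ← h3]
  have h4 : (cval ∘ (g ∘ x : Fin n → Core ar N')) = f ∘ (cval ∘ x) := by
    funext i
    exact hg (x i)
  have h5 := hP.emb f (cval ∘ x)
  rw [h4]
  exact h5

/-- isomorphic structures have isomorphic extensions -/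
theorem mkStr_congr {B B' : Type} (s : ℕ → List B → Prop) (s' : ℕ → List B' → Prop) (e : B ≃ B')
    (h : ∀ i L, List.length L = ar i → (s' i (L.map e) ↔ s i L)) :
    Nonempty (Mk (arMk ar) (mkStr (ar 0) s) ≃[RL (arMk ar)] Mk (arMk ar) (mkStr (ar 0) s')) := by
  let W := {L : List B // L.length = ar 0 ∧ ¬ s 0 L}
  let W' := {L : List B' // L.length = ar 0 ∧ ¬ s' 0 L}
  let f : W ≃ W' :=
    { toFun := fun y => ⟨y.1.map e, by rw [List.length_map]; exact y.2.1,
        fun hh => y.2.2 ((h 0 y.1 y.2.1).1 hh)⟩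
      invFun := fun y => ⟨y.1.map e.symm, by rw [List.length_map]; exact y.2.1, fun hh => by
        have h1 := h 0 (y.1.map e.symm) (by rw [List.length_map]; exact y.2.1)
        rw [List.map_map] at h1
        simp only [Equiv.self_comp_symm, List.map_id_fun, id_eq] at h1
        exact y.2.2 (h1.2 hh)⟩
      left_inv := fun y => by simp [List.map_map]
      right_inv := fun y => by simp [List.map_map] }
  refine ⟨mkEquiv (M := Mk (arMk ar) (mkStr (ar 0) s)) (N := Mk (arMk ar) (mkStr (ar 0) s'))
    (Equiv.sumCongr e f) ?_⟩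
  intro i L' hL'
  rw [rel_Mk, rel_Mk, List.length_map]
  apply and_congr_right
  intro _
  have hinj : Function.Injective (Equiv.sumCongr e f) := (Equiv.sumCongr e f).injective
  have hval : ∀ (y : W), (f y).1 = y.1.map e := fun y => rfl
  change mkStr (ar 0) s' i (List.map (Equiv.sumCongr e f) L') ↔ mkStr (ar 0) s i L'
  have hL2 : List.length L' = arMk ar i := hL'
  clear hL'
  revert hL2
  generalize hLL : (L' : List (B ⊕ W)) = L''
  intro hL'
  match i with
  | 0 =>
    constructor
    · rintro ⟨y', hy'⟩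
      obtain ⟨y, rfl⟩ := f.surjective y'
      refine ⟨y, ?_⟩
      apply List.map_injective_iff.2 hinj
      rw [hy', hval]
      simp [List.map_map, Function.comp_def]
    · rintro ⟨y, rfl⟩
      refine ⟨f y, ?_⟩
      rw [hval]
      simp [List.map_map, Function.comp_def]
  | 1 =>
    constructor
    · rintro ⟨b', hb'⟩
      obtain ⟨b, rfl⟩ := e.surjective b'
      refine ⟨b, ?_⟩
      apply List.map_injective_iff.2 hinj
      rw [hb']
      simp
    · rintro ⟨b, rfl⟩
      exact ⟨e b, by simp⟩
  | (i + 2) =>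
    constructor
    · rintro ⟨M, hM, hM2⟩
      have h1 := map_sum_inl e f L'' M (by rw [← hM]; rfl)
      obtain ⟨L0, rfl, rfl⟩ := h1
      refine ⟨L0, rfl, ?_⟩
      exact (h (i + 1) L0 ((List.length_map _).symm.trans hL')).1 hM2
    · rintro ⟨L0, rfl, h2⟩
      refine ⟨L0.map e, by simp [List.map_map, Function.comp_def], ?_⟩
      exact (h (i + 1) L0 ((List.length_map _).symm.trans hL')).2 h2

/-- the interpreted structure of an extension -/
theorem core_mk {B : Type} (s : ℕ → List B → Prop) :
    ∃ e : Mk ar s ≃[RL ar] Core ar (Mk (arMk ar) (mkStr (ar 0) s)),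
      ∀ x : B, cval (e x) = (Sum.inl x : B ⊕ {L : List B // L.length = ar 0 ∧ ¬ s 0 L}) := by
  let N := Mk (arMk ar) (mkStr (ar 0) s)
  have h1 : ∀ x : N, rel (arMk ar) N 1 [x] ↔
      ∃ b : B, x = (Sum.inl b : B ⊕ {L : List B // L.length = ar 0 ∧ ¬ s 0 L}) := by
    intro x
    rw [rel_Mk]
    constructor
    · rintro ⟨_, b, hb⟩
      exact ⟨b, (List.cons.inj hb).1⟩
    · rintro ⟨b, rfl⟩
      exact ⟨rfl, b, rfl⟩
  let f : B → Core ar N := fun b =>
    (⟨(Sum.inl b : B ⊕ {L : List B // L.length = ar 0 ∧ ¬ s 0 L}), (h1 _).2 ⟨b, rfl⟩⟩ :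
      {x : N // rel (arMk ar) N 1 [x]})
  have hf : ∀ b, cval (f b) = (Sum.inl b : B ⊕ {L : List B // L.length = ar 0 ∧ ¬ s 0 L}) :=
    fun b => rfl
  have hbij : Function.Bijective f := by
    constructor
    · intro a b hab
      have := congrArg cval hab
      rw [hf, hf] at this
      exact Sum.inl_injective this
    · intro y
      obtain ⟨b, hb⟩ := (h1 (cval y)).1 (cval_prop y)
      exact ⟨b, cval_inj (by rw [hf, hb])⟩
  have hmap : ∀ L : List B, (L.map f).map cval =
      (L.map (Sum.inl : B → B ⊕ {L : List B // L.length = ar 0 ∧ ¬ s 0 L})) := by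
    intro L
    rw [List.map_map]
    rfl
  refine ⟨mkEquiv (M := Mk ar s) (N := Core ar N) (Equiv.ofBijective f hbij) ?_, hf⟩
  intro i L hL
  have hL2 : List.length (L : List B) = ar i := hL
  have goal1 : rel ar (Core ar N) i (List.map f L) ↔ rel ar (Mk ar s) i L := by
    rw [rel_Mk s]
    cases i with
    | zero =>
      rw [rel_core_zero]
      apply and_congr
      · rw [List.length_map]; rfl
      · rw [not_iff_comm]
        constructor
        · intro hn
          refine ⟨(Sum.inr ⟨L, hL2, hn⟩ : B ⊕ {L : List B // L.length = ar 0 ∧ ¬ s 0 L}), ?_⟩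
          rw [rel_Mk]
          refine ⟨?_, ⟨L, hL2, hn⟩, ?_⟩
          · simp only [List.length_cons, List.length_map, arMk]
            exact congrArg (· + 1) hL2
          · rw [hmap]; rfl
        · rintro ⟨w, hw⟩ hs
          rw [rel_Mk] at hw
          obtain ⟨_, y, hy⟩ := hw
          rw [hmap] at hy
          have h2 := (List.cons.inj hy).2
          have h3 := List.map_injective_iff.2 Sum.inl_injective h2
          exact y.2.2 (h3 ▸ hs)
    | succ i =>
      rw [rel_core_succ, rel_Mk, hmap]
      constructor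
      · rintro ⟨h2, L0, h3, h4⟩
        have h5 := List.map_injective_iff.2 Sum.inl_injective h3
        subst h5
        exact ⟨hL2, h4⟩
      · rintro ⟨_, h4⟩
        exact ⟨(List.length_map _).trans hL2, L, rfl, h4⟩
  exact goal1

end Pool.Agent.H494_SCM
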