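import Pool.Agent.H494_SCM.MarkerGood

/-! The extension step preserves goodness: reconstruction. -/

open FirstOrder Cardinal FirstOrder.Language

namespace Pool.Agent.H494_SCM

variable {ar : ℕ → ℕ}

/-- axioms of extensions -/
structure MkAx (ar : ℕ → ℕ) (N : Type) [(RL (arMk ar)).Structure N] : Prop where
  a : ∀ (w : N) (y : Fin (ar 0) → N), rel (arMk ar) N 0 (w :: List.ofFn y) →
    ¬ rel (arMk ar) N 1 [w] ∧ ∀ k, rel (arMk ar) N 1 [y k]
  b : ∀ (w w' : N) (y : Fin (ar 0) → N), rel (arMk ar) N 0 (w :: List.ofFn y) →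
    rel (arMk ar) N 0 (w' :: List.ofFn y) → w = w'
  c : ∀ (w : N), ¬ rel (arMk ar) N 1 [w] → ∃ y : Fin (ar 0) → N,
    rel (arMk ar) N 0 (w :: List.ofFn y)
  d : ∀ (w : N) (y y' : Fin (ar 0) → N), rel (arMk ar) N 0 (w :: List.ofFn y) →
    rel (arMk ar) N 0 (w :: List.ofFn y') → ∀ k, y k = y' k
  e : ∀ (i : ℕ) (y : Fin (ar (i + 1)) → N), rel (arMk ar) N (i + 2) (List.ofFn y) →
    ∀ k, rel (arMk ar) N 1 [y k]

theorem MkAx.of_equiv {N N' : Type} [(RL (arMk ar)).Structure N] [(RL (arMk ar)).Structure N']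
    (h : N ≅[RL (arMk ar)] N') (hN : MkAx ar N) : MkAx ar N' := by
  constructor
  · have key : UDef (arMk ar) Empty (fun M _ _ => ∀ (w : Unit ⊕ Fin (ar 0) → M),
        rel (arMk ar) M 0 (w (Sum.inl ()) :: List.ofFn (fun k => w (Sum.inr k))) →
        ¬ rel (arMk ar) M 1 [w (Sum.inl ())] ∧ ∀ k, rel (arMk ar) M 1 [w (Sum.inr k)]) := by
      refine (UDef.all (α := Empty) (β := Unit ⊕ Fin (ar 0)) ((UDef.rel 0
        (Sum.inr (Sum.inl ()) :: List.ofFn (fun k => Sum.inr (Sum.inr k)))).imp
        ((UDef.rel 1 [Sum.inr (Sum.inl ())]).not.and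
          (UDef.forall_fin (fun k : Fin (ar 0) => UDef.rel 1 [Sum.inr (Sum.inr k)]))))).of_iff ?_
      intro M _ v
      simp only [List.map_cons, List.map_ofFn, Function.comp_def, Sum.elim_inr, List.map_nil]
    have h1 := (key.transfer h Empty.elim Empty.elim).1
      (fun w hw => hN.a _ _ hw)
    intro w y hw
    exact h1 (Sum.elim (fun _ => w) y) hw
  · have key : UDef (arMk ar) Empty (fun M _ _ => ∀ (w : Bool ⊕ Fin (ar 0) → M),
        rel (arMk ar) M 0 (w (Sum.inl true) :: List.ofFn (fun k => w (Sum.inr k))) →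
        rel (arMk ar) M 0 (w (Sum.inl false) :: List.ofFn (fun k => w (Sum.inr k))) →
        w (Sum.inl true) = w (Sum.inl false)) := by
      refine (UDef.all (α := Empty) (β := Bool ⊕ Fin (ar 0)) ((UDef.rel 0
        (Sum.inr (Sum.inl true) :: List.ofFn (fun k => Sum.inr (Sum.inr k)))).imp
        ((UDef.rel 0
        (Sum.inr (Sum.inl false) :: List.ofFn (fun k => Sum.inr (Sum.inr k)))).imp
        (UDef.eq (Sum.inr (Sum.inl true)) (Sum.inr (Sum.inl false)))))).of_iff ?_
      intro M _ v
      simp only [List.map_cons, List.map_ofFn, Function.comp_def, Sum.elim_inr]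
    have h1 := (key.transfer h Empty.elim Empty.elim).1
      (fun w hw hw' => hN.b _ _ _ hw hw')
    intro w w' y hw hw'
    exact h1 (Sum.elim (fun b => if b then w else w') y) hw hw'
  · have key : UDef (arMk ar) Empty (fun M _ _ => ∀ (w : Unit → M),
        ¬ rel (arMk ar) M 1 [w ()] → ∃ y : Fin (ar 0) → M,
        rel (arMk ar) M 0 (w () :: List.ofFn y)) := by
      refine (UDef.all (α := Empty) (β := Unit) ((UDef.rel 1 [Sum.inr ()]).not.imp
        (UDef.ex (α := Empty ⊕ Unit) (β := Fin (ar 0)) (UDef.rel 0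
          (Sum.inl (Sum.inr ()) :: List.ofFn (fun k => Sum.inr k)))))).of_iff ?_
      intro M _ v
      simp only [List.map_cons, List.map_ofFn, Function.comp_def, Sum.elim_inr, List.map_nil,
        Sum.elim_inl]
    have h1 := (key.transfer h Empty.elim Empty.elim).1
      (fun w hw => hN.c _ hw)
    intro w hw
    exact h1 (fun _ => w) hw
  · have key : UDef (arMk ar) Empty (fun M _ _ => ∀ (w : Unit ⊕ (Fin (ar 0) ⊕ Fin (ar 0)) → M),
        rel (arMk ar) M 0 (w (Sum.inl ()) :: List.ofFn (fun k => w (Sum.inr (Sum.inl k)))) →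
        rel (arMk ar) M 0 (w (Sum.inl ()) :: List.ofFn (fun k => w (Sum.inr (Sum.inr k)))) →
        ∀ k, w (Sum.inr (Sum.inl k)) = w (Sum.inr (Sum.inr k))) := by
      refine (UDef.all (α := Empty) (β := Unit ⊕ (Fin (ar 0) ⊕ Fin (ar 0))) ((UDef.rel 0
        (Sum.inr (Sum.inl ()) :: List.ofFn (fun k => Sum.inr (Sum.inr (Sum.inl k))))).imp
        ((UDef.rel 0
        (Sum.inr (Sum.inl ()) :: List.ofFn (fun k => Sum.inr (Sum.inr (Sum.inr k))))).imp
        (UDef.forall_fin (fun k : Fin (ar 0) => UDef.eq (Sum.inr (Sum.inr (Sum.inl k)))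
          (Sum.inr (Sum.inr (Sum.inr k)))))))).of_iff ?_
      intro M _ v
      simp only [List.map_cons, List.map_ofFn, Function.comp_def, Sum.elim_inr]
    have h1 := (key.transfer h Empty.elim Empty.elim).1
      (fun w hw hw' => hN.d _ _ _ hw hw')
    intro w y y' hw hw'
    exact h1 (Sum.elim (fun _ => w) (Sum.elim y y')) hw hw'
  · intro i
    have key : UDef (arMk ar) Empty (fun M _ _ => ∀ (y : Fin (ar (i + 1)) → M),
        rel (arMk ar) M (i + 2) (List.ofFn y) → ∀ k, rel (arMk ar) M 1 [y k]) := by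
      refine (UDef.all (α := Empty) (β := Fin (ar (i + 1))) ((UDef.rel (i + 2)
        (List.ofFn (fun k => Sum.inr k))).imp
          (UDef.forall_fin (fun k : Fin (ar (i + 1)) => UDef.rel 1 [Sum.inr k])))).of_iff ?_
      intro M _ v
      simp only [List.map_cons, List.map_ofFn, Function.comp_def, Sum.elim_inr, List.map_nil]
    exact (key.transfer h Empty.elim Empty.elim).1
      (fun w hw => hN.e _ _ hw)

theorem mkAx_mk {B : Type} (s : ℕ → List B → Prop) :
    MkAx ar (Mk (arMk ar) (mkStr (ar 0) s)) := by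
  let W := {L : List B // L.length = ar 0 ∧ ¬ s 0 L}
  let N := Mk (arMk ar) (mkStr (ar 0) s)
  have h1 : ∀ x : N, rel (arMk ar) N 1 [x] ↔ ∃ b : B, x = (Sum.inl b : B ⊕ W) := by
    intro x
    rw [rel_Mk]
    constructor
    · rintro ⟨_, b, hb⟩
      exact ⟨b, (List.cons.inj hb).1⟩
    · rintro ⟨b, rfl⟩
      exact ⟨rfl, b, rfl⟩
  have h0 : ∀ (w : N) (L : List N), rel (arMk ar) N 0 (w :: L) ↔ ∃ y : W,
      w = (Sum.inr y : B ⊕ W) ∧ L = (y.1.map Sum.inl : List (B ⊕ W)) := by
    intro w L
    rw [rel_Mk]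
    constructor
    · rintro ⟨_, y, hy⟩
      exact ⟨y, (List.cons.inj hy).1, (List.cons.inj hy).2⟩
    · rintro ⟨y, rfl, rfl⟩
      refine ⟨?_, y, rfl⟩
      have e1 : (List.map (Sum.inl : B → B ⊕ W) y.1).length = ar 0 :=
        (List.length_map _).trans y.2.1
      exact congrArg (· + 1) e1
  constructor
  · intro w y hw
    obtain ⟨z, rfl, hz⟩ := (h0 _ _).1 hw
    constructor
    · intro h
      obtain ⟨b, hb⟩ := (h1 _).1 h
      exact Sum.inr_ne_inl hb
    · intro k
      apply (h1 _).2
      have h2 : y k ∈ List.ofFn y := List.mem_ofFn.2 ⟨k, rfl⟩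
      rw [hz] at h2
      obtain ⟨b, _, hb⟩ := List.mem_map.1 h2
      exact ⟨b, hb.symm⟩
  · intro w w' y hw hw'
    obtain ⟨z, rfl, hz⟩ := (h0 _ _).1 hw
    obtain ⟨z', rfl, hz'⟩ := (h0 _ _).1 hw'
    rw [hz] at hz'
    have := List.map_injective_iff.2 Sum.inl_injective hz'
    rw [Subtype.ext this]
  · intro w hw
    have hw2 : ∃ z : W, w = (Sum.inr z : B ⊕ W) := by
      match hw3 : (w : B ⊕ W) with
      | Sum.inl b => exact absurd ((h1 _).2 ⟨b, rfl⟩) hw
      | Sum.inr z => exact ⟨z, rfl⟩
    obtain ⟨z, hz⟩ := hw2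
    obtain ⟨y, hy⟩ := exists_ofFn (z.1.map Sum.inl : List (B ⊕ W)) (n := ar 0)
      ((List.length_map _).trans z.2.1)
    refine ⟨y, (h0 _ _).2 ⟨z, hz, hy.symm⟩⟩
  · intro w y y' hw hw' k
    obtain ⟨z, rfl, hz⟩ := (h0 _ _).1 hw
    obtain ⟨z', hz2, hz'⟩ := (h0 _ _).1 hw'
    have h3 : z = z' := Sum.inr_injective hz2
    subst h3
    have h4 : List.ofFn y = List.ofFn y' := hz.trans hz'.symm
    rw [List.ofFn_injective h4]
  · intro i y hy k
    rw [rel_Mk] at hy
    obtain ⟨_, L, hL, _⟩ := hy
    apply (h1 _).2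
    have h2 : y k ∈ List.ofFn y := List.mem_ofFn.2 ⟨k, rfl⟩
    rw [hL] at h2
    obtain ⟨b, _, hb⟩ := List.mem_map.1 h2
    exact ⟨b, hb.symm⟩

theorem reconstruct {N : Type} [(RL (arMk ar)).Structure N] (hN : MkAx ar N) :
    Nonempty (Mk (arMk ar) (mkStr (ar 0) (coreS ar N)) ≃[RL (arMk ar)] N) := by
  classical
  let B := {x : N // rel (arMk ar) N 1 [x]}
  let W := {L : List B // L.length = ar 0 ∧ ¬ coreS ar N 0 L}
  have hW : ∀ y : W, ∃ w, rel (arMk ar) N 0 (w :: y.1.map Subtype.val) := by
    intro y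
    by_contra h
    exact y.2.2 h
  choose wit hwit using hW
  let g : B ⊕ W → N := Sum.elim Subtype.val wit
  have hlist : ∀ (w : N) (L : List N), L.length = ar 0 → rel (arMk ar) N 0 (w :: L) →
      ¬ rel (arMk ar) N 1 [w] ∧ ∀ x ∈ L, rel (arMk ar) N 1 [x] := by
    intro w L hL h
    obtain ⟨y, rfl⟩ := exists_ofFn L hL
    refine ⟨(hN.a w y h).1, ?_⟩
    intro x hx
    obtain ⟨k, rfl⟩ := List.mem_ofFn.1 hx
    exact (hN.a w y h).2 k
  have hg1 : ∀ x : B ⊕ W, rel (arMk ar) N 1 [g x] ↔ ∃ b, x = Sum.inl b := by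
    rintro (b | y)
    · exact ⟨fun _ => ⟨b, rfl⟩, fun _ => b.2⟩
    · constructor
      · intro h
        exact absurd h (hlist _ _ (by rw [List.length_map]; exact y.2.1) (hwit y)).1
      · rintro ⟨b, hb⟩; exact absurd hb Sum.inr_ne_inl
  have hinl : ∀ L' : List (B ⊕ W), (∀ x ∈ L'.map g, rel (arMk ar) N 1 [x]) →
      ∃ L0 : List B, L' = L0.map Sum.inl := by
    intro L'
    induction L' with
    | nil => intro _; exact ⟨[], rfl⟩
    | cons x L' ih =>
      intro h
      obtain ⟨L0, hL0⟩ := ih (fun y hy => h y (by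
        rw [List.map_cons]; exact List.mem_cons_of_mem _ hy))
      obtain ⟨b, hb⟩ := (hg1 x).1 (h (g x) (by simp))
      exact ⟨b :: L0, by rw [hL0, hb]; rfl⟩
  have huniq : ∀ (w : N) (L L1 : List N), L.length = ar 0 → L1.length = ar 0 →
      rel (arMk ar) N 0 (w :: L) → rel (arMk ar) N 0 (w :: L1) → L = L1 := by
    intro w L L1 h1 h2 h3 h4
    obtain ⟨y, rfl⟩ := exists_ofFn L h1
    obtain ⟨y1, rfl⟩ := exists_ofFn L1 h2
    congr 1
    funext k
    exact hN.d w y y1 h3 h4 k
  have huniq2 : ∀ (w w' : N) (L : List N), L.length = ar 0 →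
      rel (arMk ar) N 0 (w :: L) → rel (arMk ar) N 0 (w' :: L) → w = w' := by
    intro w w' L h1 h3 h4
    obtain ⟨y, rfl⟩ := exists_ofFn L h1
    exact hN.b w w' y h3 h4
  have hylen : ∀ y : W, (y.1.map Subtype.val).length = ar 0 := fun y => by
    rw [List.length_map]; exact y.2.1
  have hbij : Function.Bijective g := by
    constructor
    · rintro (b | y) (b' | y') h
      · rw [Subtype.ext h]
      · exfalso
        have := (hg1 (Sum.inl b)).2 ⟨b, rfl⟩
        rw [h] at this
        obtain ⟨c, hc⟩ := (hg1 _).1 this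
        exact Sum.inr_ne_inl hc
      · exfalso
        have := (hg1 (Sum.inl b')).2 ⟨b', rfl⟩
        rw [← h] at this
        obtain ⟨c, hc⟩ := (hg1 _).1 this
        exact Sum.inr_ne_inl hc
      · have h1 := hwit y
        have h2 := hwit y'
        have h3 : wit y = wit y' := h
        rw [← h3] at h2
        have h4 := huniq _ _ _ (hylen y) (hylen y') h1 h2
        have h5 := List.map_injective_iff.2 Subtype.val_injective h4
        rw [Subtype.ext h5]
    · intro x
      by_cases hx : rel (arMk ar) N 1 [x]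
      · exact ⟨Sum.inl ⟨x, hx⟩, rfl⟩
      · obtain ⟨y, hy⟩ := hN.c x hx
        obtain ⟨L, hL⟩ := exists_map_list (Subtype.val : B → N) (List.ofFn y) (fun z hz => by
          obtain ⟨k, rfl⟩ := List.mem_ofFn.1 hz
          exact ⟨⟨y k, (hN.a x y hy).2 k⟩, rfl⟩)
        have hlen : L.length = ar 0 := by
          have := congrArg List.length hL
          rw [List.length_map, List.length_ofFn] at this
          exact this
        rw [← hL] at hy
        refine ⟨Sum.inr ⟨L, hlen, fun h => h ⟨x, hy⟩⟩, ?_⟩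
        exact huniq2 _ _ _ (by rw [List.length_map]; exact hlen)
          (hwit ⟨L, hlen, fun h => h ⟨x, hy⟩⟩) hy
  have main : ∀ (i : ℕ) (L'' : List (B ⊕ W)), L''.length = arMk ar i →
      (rel (arMk ar) N i (L''.map g) ↔ mkStr (ar 0) (coreS ar N) i L'') := by
    intro i L'' hL2
    match i with
    | 0 =>
      cases L'' with
      | nil => simp [arMk] at hL2
      | cons w L =>
        have hLlen : L.length = ar 0 := by
          simp only [List.length_cons, arMk] at hL2
          omega
        constructor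
        · intro h
          have h1 := hlist (g w) (L.map g) (by rw [List.length_map]; exact hLlen) h
          obtain ⟨L0, rfl⟩ := hinl L h1.2
          rcases w with b | y
          · exact absurd b.2 h1.1
          · refine ⟨y, ?_⟩
            have h2 := hwit y
            have h3 := huniq _ _ _ (by rw [List.length_map]; exact hLlen) (hylen y) h h2
            rw [List.map_map] at h3
            have h5 : L0 = y.1 := List.map_injective_iff.2 Subtype.val_injective h3
            rw [h5]
        · rintro ⟨y, hy⟩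
          obtain ⟨h1, h2⟩ := List.cons.inj hy
          subst h1 h2
          have h2 := hwit y
          rw [List.map_cons, List.map_map]
          exact h2
    | 1 =>
      constructor
      · intro h
        cases L'' with
        | nil => simp [arMk] at hL2
        | cons w L =>
          cases L with
          | nil =>
            obtain ⟨b, hb⟩ := (hg1 w).1 h
            exact ⟨b, by rw [hb]⟩
          | cons _ _ => simp [arMk] at hL2
      · rintro ⟨b, rfl⟩
        exact b.2
    | (i + 2) =>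
      constructor
      · intro h
        have hL3 : (L''.map g).length = ar (i + 1) := (List.length_map _).trans hL2
        obtain ⟨y, hy⟩ := exists_ofFn (L''.map g) hL3
        have h1 : ∀ x ∈ L''.map g, rel (arMk ar) N 1 [x] := by
          intro x hx
          rw [hy] at h hx
          obtain ⟨k, rfl⟩ := List.mem_ofFn.1 hx
          exact hN.e i y h k
        obtain ⟨L0, rfl⟩ := hinl L'' h1
        refine ⟨L0, rfl, ?_⟩
        rw [List.map_map] at h
        exact h
      · rintro ⟨L0, rfl, h⟩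
        rw [List.map_map]
        exact h
  refine ⟨mkEquiv (M := Mk (arMk ar) (mkStr (ar 0) (coreS ar N))) (N := N)
    (Equiv.ofBijective g hbij) ?_⟩
  intro i L' hL'
  rw [rel_Mk]
  exact (main i L' hL').trans (iff_and_self.2 (fun _ => hL'))

theorem good_mk {G : Fam} (hG : Good ar G) : Good (arMk ar) (famMk (ar 0) G) where
  rigid := by
    intro U U' u u' h
    obtain ⟨h', hh'⟩ := core_emb (ar := ar) h
    obtain ⟨e, he⟩ := core_mk (ar := ar) (G.str u)
    obtain ⟨e', he'⟩ := core_mk (ar := ar) (G.str u')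
    let h0 : G.Car ar u ↪ₑ[RL ar] G.Car ar u' :=
      e'.symm.toElementaryEmbedding.comp (h'.comp e.toElementaryEmbedding)
    obtain ⟨g, hg1, hg2⟩ := hG.rigid u u' h0
    refine ⟨g, hg1, ?_⟩
    have key : ∀ x : G.F U, h (Sum.inl x : (famMk (ar 0) G).F U) =
        (Sum.inl (G.map g x) : (famMk (ar 0) G).F U') := by
      intro x
      have h1 := hh' (e x)
      have h2 := hg2 x
      have h3 : h0 x = e'.symm (h' (e x)) := rfl
      have h4 : e' (h0 x) = h' (e x) := by rw [h3, e'.apply_symm_apply]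
      have h5 : h (Sum.inl x : (famMk (ar 0) G).F U) = h (cval (e x)) :=
        congrArg h (he x).symm
      have h6 : cval (e' (h0 x)) = (Sum.inl (h0 x) : (famMk (ar 0) G).F U') := he' (h0 x)
      have h7 : (Sum.inl (h0 x) : (famMk (ar 0) G).F U') = Sum.inl (G.map g x) :=
        congrArg (Sum.inl : G.F U' → (famMk (ar 0) G).F U') h2
      exact h5.trans (h1.symm.trans ((congrArg cval h4).symm.trans (h6.trans h7)))
    intro x
    match x with
    | Sum.inl x => exact key x
    | Sum.inr y =>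
      have h1 : rel (arMk ar) ((famMk (ar 0) G).Car (arMk ar) u) 0
          ((Sum.inr y : (famMk (ar 0) G).F U) :: (y.1.map Sum.inl)) := by
        refine (rel_Mk _ _ _).2 ⟨?_, y, rfl⟩
        have e1 : (List.map (Sum.inl : G.F U → (famMk (ar 0) G).F U) y.1).length = ar 0 :=
          (List.length_map _).trans y.2.1
        exact congrArg (· + 1) e1
      have h2 := (rel_emb h _ _).2 h1
      obtain ⟨_, y', hy'⟩ := (rel_Mk _ _ _).1 h2
      obtain ⟨h3, h4⟩ := List.cons.inj hy'
      have h5 : y'.1 = y.1.map (G.map g) := by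
        apply List.map_injective_iff.2
          (Sum.inl_injective : Function.Injective (Sum.inl : G.F U' → (famMk (ar 0) G).F U'))
        refine h4.symm.trans ?_
        refine (List.map_map).trans ?_
        refine Eq.trans ?_ (List.map_map).symm
        exact List.map_congr_left (fun a _ => key a)
      refine h3.trans ?_
      have h6 : y' = (⟨y.1.map (G.map g), by rw [List.length_map]; exact y.2.1,
        fun h => y.2.2 ((G.R_nat g y.1).1 h)⟩ : {L : List (G.F U') // L.length = ar 0 ∧ ¬ G.R L}) :=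
        Subtype.ext h5
      rw [h6]
      rfl
  classif := by
    intro N _ hN
    have hax : MkAx ar N := MkAx.of_equiv hN (mkAx_mk (ar := ar) (G.str _))
    obtain ⟨r⟩ := reconstruct hax
    obtain ⟨e, _⟩ := core_mk (ar := ar) (G.str (Function.Embedding.refl ℕ))
    have h1 : (G.Car ar (Function.Embedding.refl ℕ)) ≅[RL ar] Core ar N := by
      have h2 := core_equiv (ar := ar) hN
      exact e.toElementaryEmbedding.elementarilyEquivalent.trans h2
    obtain ⟨U, u, ⟨k⟩⟩ := hG.classif (Core ar N) h1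
    refine ⟨U, u, ?_⟩
    obtain ⟨m⟩ := mkStr_congr (ar := ar) (coreS ar N) (G.str u) k.toEquiv (by
      intro i L hL
      have h3 := rel_equiv k i L
      rw [rel_Mk, rel_Mk] at h3
      have h4 : List.length (List.map k L) = ar i := (List.length_map _).trans hL
      constructor
      · intro h5
        exact (h3.1 ⟨h4, h5⟩).2
      · intro h5
        exact (h3.2 ⟨hL, h5⟩).2)
    exact ⟨m.comp r.symm⟩
  card := by
    intro U _
    have h1 : #(G.F U) = #U := hG.card U
    have h2 : Infinite (G.F U) := by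
      rw [Cardinal.infinite_iff, h1]
      exact Cardinal.aleph0_le_mk U
    have h3 : #({L : List (G.F U) // L.length = ar 0 ∧ ¬ G.R L}) ≤ #U := by
      refine (Cardinal.mk_subtype_le _).trans ?_
      rw [Cardinal.mk_list_eq_mk, h1]
    show #(G.F U ⊕ {L : List (G.F U) // L.length = ar 0 ∧ ¬ G.R L}) = #U
    rw [Cardinal.mk_sum, Cardinal.lift_id, Cardinal.lift_id, h1]
    exact Cardinal.add_eq_left (Cardinal.aleph0_le_mk U) h3

end Pool.Agent.H494_SCM
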