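import Pool.Agent.H494_SCM.Diag
import Pool.Agent.H494_SCM.Enc

/-! Non-constructivity arguments. -/

open Nat.Partrec (Code)
open FirstOrder Cardinal FirstOrder.Language

namespace Pool.Agent.H494_SCM

/-! ### visible relations of iterated extensions -/

/-- inclusion of the base in the iterated extension -/
noncomputable def inc : (M : ℕ) → (ar : ℕ → ℕ) → (G : Fam) → {U : Type} → G.F U → (famIter M ar G).F U
  | 0, _, _, _, x => x
  | (M + 1), ar, G, U, x => inc M (arMk ar) (famMk (ar 0) G) (Sum.inl x : (famMk (ar 0) G).F U)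

theorem inc_inj (M : ℕ) : ∀ (ar : ℕ → ℕ) (G : Fam) {U : Type},
    Function.Injective (inc M ar G (U := U)) := by
  induction M with
  | zero => intro ar G U x y h; exact h
  | succ M ih =>
    intro ar G U x y h
    exact Sum.inl_injective (ih (arMk ar) (famMk (ar 0) G) h)

theorem ar_iter (M : ℕ) : ∀ (ar : ℕ → ℕ) (i : ℕ), arIter M ar (i + 1 + M) = ar (i + 1) := by
  induction M with
  | zero => intro ar i; rfl
  | succ M ih =>
    intro ar i
    have h : i + 1 + (M + 1) = (i + 1) + 1 + M := by omega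
    rw [h]
    exact ih (arMk ar) (i + 1)

theorem vis_iter (M : ℕ) : ∀ (ar : ℕ → ℕ) (G : Fam) {U : Type} (u : ℕ ↪ U) (i : ℕ)
    (L' : List ((famIter M ar G).F U)), (famIter M ar G).str u (i + 1 + M) L' ↔
      ∃ L : List (G.F U), L' = L.map (inc M ar G) ∧ G.str u (i + 1) L := by
  induction M with
  | zero =>
    intro ar G U u i L'
    constructor
    · intro h
      exact ⟨L', by
        conv_lhs => rw [← List.map_id L']
        rfl, h⟩
    · rintro ⟨L, rfl, h⟩
      have : List.map (inc 0 ar G) L = L := by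
        conv_rhs => rw [← List.map_id L]
        rfl
      rw [this]; exact h
  | succ M ih =>
    intro ar G U u i L'
    have h : i + 1 + (M + 1) = (i + 1) + 1 + M := by omega
    rw [h]
    refine (ih (arMk ar) (famMk (ar 0) G) u (i + 1) L').trans ?_
    constructor
    · rintro ⟨L1, rfl, L, hL, h2⟩
      refine ⟨L, ?_, h2⟩
      rw [hL]
      exact List.map_map
    · rintro ⟨L, rfl, h2⟩
      exact ⟨L.map Sum.inl, List.map_map.symm, L, rfl, h2⟩

theorem vis_copy (p : Par) (u : ℕ ↪ ℕ) (M : ℕ)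
    (h : HasConstr (ar := arIter M bar) ((famIter M bar (base p)).Car (arIter M bar) u)) :
    ∃ (c : ℕ ⊕ ℕ × ℕ × ℕ → ℕ) (D : ℕ × List ℕ → Prop), Function.Injective c ∧
      ComputablePred D ∧ ∀ i l, D (i + 1 + M, l) ↔
        ∃ L : List (ℕ ⊕ ℕ × ℕ × ℕ), l = L.map c ∧ L.length = bar (i + 1) ∧ bV p u i L := by
  obtain ⟨e, D, hD, hrel⟩ := exists_of_hasConstr h
  refine ⟨fun x => e (inc M bar (base p) (U := ℕ) x), D, ?_, hD, ?_⟩
  · intro x y hxy
    exact inc_inj M bar (base p) (e.injective hxy)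
  · intro i l
    have h1 := hrel (i + 1 + M) (l.map e.symm)
    have h2 : (l.map e.symm).map e = l := by
      rw [List.map_map]; simp
    rw [h2] at h1
    rw [← h1, rel_Mk, ar_iter]
    have h3 := vis_iter M bar (base p) u i (l.map e.symm)
    constructor
    · rintro ⟨h4, h5⟩
      obtain ⟨L, hL, h6⟩ := h3.1 h5
      refine ⟨L, ?_, ?_, h6⟩
      · rw [← h2]
        have h7 := congrArg (List.map e) hL
        refine h7.trans ?_
        exact List.map_map
      · have h8 : List.length (l.map e.symm) = L.length :=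
          (congrArg List.length hL).trans (List.length_map _)
        exact h8.symm.trans h4
    · rintro ⟨L, rfl, h4, h5⟩
      have h6 : (List.map (fun x => e (inc M bar (base p) (U := ℕ) x)) L).map e.symm =
          L.map (inc M bar (base p)) := by
        refine (List.map_map).trans ?_
        exact List.map_congr_left (fun a _ => e.symm_apply_apply _)
      refine ⟨?_, ?_⟩
      · exact ((List.length_map _).trans (List.length_map _)).trans h4
      · exact h3.2 ⟨L, h6, h5⟩

/-! ### a set which is not of the third existential level -/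

/-- third level of the arithmetical hierarchy -/
def Sig3 (Z : ℕ → Prop) : Prop :=
  ∃ ρ : (ℕ × ℕ) × (ℕ × ℕ) → Prop, ComputablePred ρ ∧
    ∀ n, (Z n ↔ ∃ x, ∀ y, ∃ z, ρ ((n, x), (y, z)))

/-- the diagonal set -/
def zset (e : ℕ) : Prop :=
  ¬ ∃ x, ∀ y, ∃ z, 1 ∈ Code.eval (Denumerable.ofNat Code e)
    (Encodable.encode (((e, x), (y, z)) : (ℕ × ℕ) × (ℕ × ℕ)))

theorem zset_not_sig3 : ¬ Sig3 zset := by
  rintro ⟨ρ, hρ, h⟩
  obtain ⟨c, hc⟩ := exists_code_pred hρ
  have h1 := h (Encodable.encode c)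
  have h2 : ∀ a, ρ a ↔ 1 ∈ Code.eval c (Encodable.encode a) := by
    intro a
    rcases hc a with ⟨h3, h4⟩ | ⟨h3, h4⟩
    · rw [h4]; simp [h3]
    · rw [h4]; simp [h3]
  unfold zset at h1
  rw [Denumerable.ofNat_encode] at h1
  simp only [h2] at h1
  tauto

theorem zset_LP : LP 3 zset := by
  have h0 : ComputablePred (fun w : ((ℕ × ℕ) × ℕ) × ℕ =>
      Code.evaln (Nat.unpair w.2).2 (Denumerable.ofNat Code w.1.1.1)
        (Encodable.encode (((w.1.1.1, w.1.1.2), (w.1.2, (Nat.unpair w.2).1)) :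
          (ℕ × ℕ) × (ℕ × ℕ))) = some 1) := by
    refine cp_eq ?_ (Computable.const (some 1))
    have a1 : Computable (fun w : ((ℕ × ℕ) × ℕ) × ℕ => w.1.1.1) :=
      Computable.fst.comp (Computable.fst.comp Computable.fst)
    have a2 : Computable (fun w : ((ℕ × ℕ) × ℕ) × ℕ => w.1.1.2) :=
      Computable.snd.comp (Computable.fst.comp Computable.fst)
    have a3 : Computable (fun w : ((ℕ × ℕ) × ℕ) × ℕ => w.1.2) :=
      Computable.snd.comp Computable.fst
    have a4 := c_up1 (Computable.snd (α := (ℕ × ℕ) × ℕ) (β := ℕ))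
    have a5 := c_up2 (Computable.snd (α := (ℕ × ℕ) × ℕ) (β := ℕ))
    have a6 : Computable (fun w : ((ℕ × ℕ) × ℕ) × ℕ =>
        (((Nat.unpair w.2).2, Denumerable.ofNat Code w.1.1.1),
          Encodable.encode (((w.1.1.1, w.1.1.2), (w.1.2, (Nat.unpair w.2).1)) :
            (ℕ × ℕ) × (ℕ × ℕ)))) := by
      refine Computable.pair (Computable.pair a5 ((Computable.ofNat Code).comp a1)) ?_
      have a7 := Computable.encode.comp (Computable.pair (Computable.pair a1 a2)
        (Computable.pair a3 a4))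
      exact a7
    have a8 := Code.primrec_evaln.to_comp.comp a6
    exact a8
  have h1 := LP.ex (LP.zero_iff.2 h0)
  have h2 := LP.ex h1.not
  have h3 := LP.ex h2.not
  refine h3.not.of_iff ?_
  intro e
  unfold zset
  apply not_congr
  apply exists_congr; intro x
  rw [not_exists]
  apply forall_congr'; intro y
  rw [not_not]
  constructor
  · rintro ⟨z, hz⟩
    obtain ⟨k, hk⟩ := Code.evaln_complete.1 hz
    exact ⟨Nat.pair z k, by simp only [Nat.unpair_pair]; exact hk⟩
  · rintro ⟨w, hw⟩
    exact ⟨(Nat.unpair w).1, Code.evaln_sound hw⟩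

/-! ### finite models outside of the spectrum -/

/-- the unlabelled elements of a class -/
def unl (k i a : ℕ) : Finset ℕ :=
  if a < k then Finset.range k else
    Finset.range k ∪ Finset.Ico a (a + NN i (a - k))

theorem mem_unl (p : Par) (k i a w : ℕ) (hb : ¬ p.bit i) :
    (∀ m, ¬ lab p (mark (k : ℕ∞)) i m a w) ↔ w ∈ unl k i a := by
  unfold unl
  by_cases ha : a < k
  · rw [if_pos ha, Finset.mem_range]
    have h1 : ∀ m, lab p (mark (k : ℕ∞)) i m a w ↔ w = m + k := by
      intro m
      rw [lab_generic_iff _ _ _ _ _ _ (fun t => by rw [mark_coe]; omega), mark_coe]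
    simp only [h1]
    constructor
    · intro h
      by_contra hcon
      exact h (w - k) (by omega)
    · intro h m hm; omega
  · rw [if_neg ha, Finset.mem_union, Finset.mem_range, Finset.mem_Ico]
    obtain ⟨l, rfl⟩ : ∃ l, a = l + k := ⟨a - k, by omega⟩
    have h1 : ∀ m, lab p (mark (k : ℕ∞)) i m (l + k) w ↔
        (l ≤ m ∧ w = m + NN i l + k) ∨ (m < l ∧ w = m + k) := by
      intro m
      have := lab0_iff p (mark (k : ℕ∞)) i m l w (fun h => absurd h hb)
      rw [mark_coe, mark_coe, mark_coe] at this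
      exact this
    simp only [h1, Nat.add_sub_cancel]
    constructor
    · intro h
      by_contra hcon
      rcases Nat.lt_or_ge (w - k) l with h2 | h2
      · exact h (w - k) (by omega)
      · exact h (w - k - NN i l) (by omega)
    · intro h m hm
      omega

theorem card_unl (k n a : ℕ) : (unl k (Nat.pair k n) a).card ≠ 2 * k := by
  unfold unl
  by_cases ha : a < k
  · rw [if_pos ha, Finset.card_range]
    omega
  · rw [if_neg ha, Finset.card_union_of_disjoint]
    · rw [Finset.card_range, Nat.card_Ico]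
      have := NN_ne (Nat.pair k n) (a - k)
      rw [Nat.unpair_pair] at this
      simp only at this
      omega
    · rw [Finset.disjoint_left]
      intro x hx hx2
      rw [Finset.mem_range] at hx
      rw [Finset.mem_Ico] at hx2
      omega

theorem not_constr_finite (p : Par) (k : ℕ) (hbit : ∀ n, p.bit (Nat.pair k n) ↔ zset n) (M : ℕ) :
    ¬ HasConstr (ar := arIter M bar)
      ((famIter M bar (base p)).Car (arIter M bar) (mark (k : ℕ∞))) := by
  intro hcon
  obtain ⟨c, D, hc, hD, hvis⟩ := vis_copy p (mark (k : ℕ∞)) M hcon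
  apply zset_not_sig3
  let u := mark (k : ℕ∞)
  let eI : ℕ → ℕ := fun n => Nat.pair 2 (Nat.pair k n) + 1 + M
  let pI : ℕ → ℕ → ℕ := fun n m => Nat.pair 3 (Nat.pair (Nat.pair k n) m) + 1 + M
  have hE : ∀ n v w, D (eI n, [v, w]) ↔ ∃ a1 w1 a2 w2, v = c (Sum.inr (u (Nat.pair k n), a1, w1)) ∧
      w = c (Sum.inr (u (Nat.pair k n), a2, w2)) ∧ cls p u (Nat.pair k n) a1 a2 := by
    intro n v w
    rw [hvis]
    have harity : bar (Nat.pair 2 (Nat.pair k n) + 1) = 2 := by
      simp [bar, Nat.unpair_pair]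
    rw [harity]
    have hb : ∀ L, bV p u (Nat.pair 2 (Nat.pair k n)) L ↔ ∃ a w a' w',
        L = [Sum.inr (u (Nat.pair k n), a, w), Sum.inr (u (Nat.pair k n), a', w')] ∧
          cls p u (Nat.pair k n) a a' := by
      intro L
      unfold bV
      rw [Nat.unpair_pair]
      exact Iff.rfl
    constructor
    · rintro ⟨L, h1, _, h2⟩
      obtain ⟨a, w', a', w'', rfl, h3⟩ := (hb L).1 h2
      simp only [List.map_cons, List.map_nil, List.cons.injEq, and_true] at h1
      exact ⟨a, w', a', w'', h1.1, h1.2, h3⟩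
    · rintro ⟨a1, w1, a2, w2, rfl, rfl, h3⟩
      exact ⟨[Sum.inr (u (Nat.pair k n), a1, w1), Sum.inr (u (Nat.pair k n), a2, w2)], rfl, rfl,
        (hb _).2 ⟨_, _, _, _, rfl, h3⟩⟩
  have hP : ∀ n m w, D (pI n m, [w]) ↔ ∃ a1 w1, w = c (Sum.inr (u (Nat.pair k n), a1, w1)) ∧
      lab p u (Nat.pair k n) m a1 w1 := by
    intro n m w
    rw [hvis]
    have harity : bar (Nat.pair 3 (Nat.pair (Nat.pair k n) m) + 1) = 1 := by
      simp [bar, Nat.unpair_pair]
    rw [harity]
    have hb : ∀ L, bV p u (Nat.pair 3 (Nat.pair (Nat.pair k n) m)) L ↔ ∃ a w,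
        L = [Sum.inr (u (Nat.pair k n), a, w)] ∧ lab p u (Nat.pair k n) m a w := by
      intro L
      unfold bV
      rw [Nat.unpair_pair]
      simp only [Nat.unpair_pair]
    constructor
    · rintro ⟨L, h1, _, h2⟩
      obtain ⟨a, w', rfl, h3⟩ := (hb L).1 h2
      simp only [List.map_cons, List.map_nil, List.cons.injEq, and_true] at h1
      exact ⟨a, w', h1, h3⟩
    · rintro ⟨a1, w1, rfl, h3⟩
      exact ⟨[Sum.inr (u (Nat.pair k n), a1, w1)], rfl, rfl, (hb _).2 ⟨_, _, rfl, h3⟩⟩
  -- the third level description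
  have key : ∀ n, zset n ↔ ∃ (v : ℕ) (l : List ℕ), l.Nodup ∧ l.length = 2 * k ∧
      D (eI n, [v, v]) ∧ (∀ w ∈ l, D (eI n, [v, w]) ∧ ∀ m, ¬ D (pI n m, [w])) ∧
      ∀ w, D (eI n, [v, w]) → w ∈ l ∨ ∃ m, D (pI n m, [w]) := by
    intro n
    constructor
    · intro hz
      have hb : p.bit (Nat.pair k n) := (hbit n).2 hz
      let f0 : ℕ → ℕ := fun w => c (Sum.inr (u (Nat.pair k n), u 0, w))
      let f1 : ℕ → ℕ := fun w => c (Sum.inr (u (Nat.pair k n), u 1, w))
      have hf : ∀ a w a' w', c (Sum.inr (u (Nat.pair k n), a, w)) =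
          c (Sum.inr (u (Nat.pair k n), a', w')) ↔ a = a' ∧ w = w' := by
        intro a w a' w'
        rw [hc.eq_iff]
        simp
      have hu01 : u 0 ≠ u 1 := fun h => by
        have := u.injective h; omega
      refine ⟨f0 0, (List.range k).map f0 ++ (List.range k).map f1, ?_, ?_, ?_, ?_, ?_⟩
      · rw [List.nodup_append']
        refine ⟨?_, ?_, ?_⟩
        · exact List.Nodup.map (fun x y h => ((hf _ _ _ _).1 h).2) List.nodup_range
        · exact List.Nodup.map (fun x y h => ((hf _ _ _ _).1 h).2) List.nodup_range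
        · intro x hx hx'
          obtain ⟨y, _, hy⟩ := List.mem_map.1 hx
          obtain ⟨y', _, hy'⟩ := List.mem_map.1 hx'
          rw [← hy'] at hy
          exact hu01 ((hf _ _ _ _).1 hy).1
      · rw [List.length_append, List.length_map, List.length_map, List.length_range]; omega
      · rw [hE]
        exact ⟨_, _, _, _, rfl, rfl, Or.inl rfl⟩
      · intro w hw
        rcases List.mem_append.1 hw with hw | hw
        · obtain ⟨y, hy, rfl⟩ := List.mem_map.1 hw
          rw [List.mem_range] at hy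
          refine ⟨(hE _ _ _).2 ⟨_, _, _, _, rfl, rfl, Or.inl rfl⟩, ?_⟩
          intro m hm
          obtain ⟨a1, w1, h1, h2⟩ := (hP _ _ _).1 hm
          obtain ⟨rfl, rfl⟩ := (hf _ _ _ _).1 h1
          obtain ⟨t, _, ht⟩ := (lab_u0_iff p u _ _ _ hb).1 h2
          have ht' : y = t + k := ht.trans (mark_coe k t)
          omega
        · obtain ⟨y, hy, rfl⟩ := List.mem_map.1 hw
          rw [List.mem_range] at hy
          refine ⟨(hE _ _ _).2 ⟨_, _, _, _, rfl, rfl, Or.inr ⟨hb, Or.inl rfl, Or.inr rfl⟩⟩, ?_⟩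
          intro m hm
          obtain ⟨a1, w1, h1, h2⟩ := (hP _ _ _).1 hm
          obtain ⟨rfl, rfl⟩ := (hf _ _ _ _).1 h1
          obtain ⟨t, _, ht⟩ := (lab_u1_iff p u _ _ _ hb).1 h2
          have ht' : y = t + k := ht.trans (mark_coe k t)
          omega
      · intro w hw
        obtain ⟨a1, w1, a2, w2, h1, rfl, h3⟩ := (hE _ _ _).1 hw
        obtain ⟨rfl, rfl⟩ := (hf _ _ _ _).1 h1
        have h4 : a2 = u 0 ∨ a2 = u 1 := by
          rcases h3 with h3 | ⟨_, _, h3⟩
          · exact Or.inl h3.symm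
          · exact h3
        rcases h4 with rfl | rfl
        · by_cases hw2 : w2 < k
          · left
            exact List.mem_append.2 (Or.inl (List.mem_map.2 ⟨w2, List.mem_range.2 hw2, rfl⟩))
          · right
            refine ⟨2 * (w2 - k), (hP _ _ _).2 ⟨_, _, rfl, ?_⟩⟩
            rw [lab_u0_iff p u _ _ _ hb]
            refine ⟨w2 - k, rfl, ?_⟩
            rw [mark_coe]; omega
        · by_cases hw2 : w2 < k
          · left
            exact List.mem_append.2 (Or.inr (List.mem_map.2 ⟨w2, List.mem_range.2 hw2, rfl⟩))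
          · right
            refine ⟨2 * (w2 - k) + 1, (hP _ _ _).2 ⟨_, _, rfl, ?_⟩⟩
            rw [lab_u1_iff p u _ _ _ hb]
            refine ⟨w2 - k, rfl, ?_⟩
            rw [mark_coe]; omega
    · rintro ⟨v, l, hnd, hlen, hvv, hin, hout⟩
      by_contra hz
      have hb : ¬ p.bit (Nat.pair k n) := fun h => hz ((hbit n).1 h)
      obtain ⟨a, w0, a2, w2, hv, _, _⟩ := (hE _ _ _).1 hvv
      let f : ℕ → ℕ := fun w => c (Sum.inr (u (Nat.pair k n), a, w))
      have hfinj : Function.Injective f := by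
        intro x y h
        have := hc h
        simp only [Sum.inr.injEq, Prod.mk.injEq, true_and] at this
        exact this
      have hset : l.toFinset = (unl k (Nat.pair k n) a).image f := by
        ext x
        rw [List.mem_toFinset, Finset.mem_image]
        constructor
        · intro hx
          obtain ⟨h1, h2⟩ := hin x hx
          obtain ⟨a3, w3, a4, w4, h3, rfl, h5⟩ := (hE _ _ _).1 h1
          rw [hv] at h3
          have h6 := hc h3
          simp only [Sum.inr.injEq, Prod.mk.injEq, true_and] at h6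
          have h7 : a = a4 := by
            rcases h5 with h5 | ⟨h5, _⟩
            · rw [← h5]; exact h6.1
            · exact absurd h5 hb
          subst h7
          refine ⟨w4, ?_, rfl⟩
          rw [← mem_unl p k (Nat.pair k n) a w4 hb]
          intro m hm
          exact h2 m ((hP _ _ _).2 ⟨_, _, rfl, hm⟩)
        · rintro ⟨w, hw, rfl⟩
          rw [← mem_unl p k (Nat.pair k n) a w hb] at hw
          have h1 : D (eI n, [v, f w]) := (hE _ _ _).2 ⟨a, w0, a, w, hv, rfl, Or.inl rfl⟩
          rcases hout _ h1 with h2 | ⟨m, hm⟩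
          · exact h2
          · exfalso
            obtain ⟨a3, w3, h3, h4⟩ := (hP _ _ _).1 hm
            have h6 := hc h3
            simp only [Sum.inr.injEq, Prod.mk.injEq, true_and] at h6
            obtain ⟨rfl, rfl⟩ := h6
            exact hw m h4
      have hcard := congrArg Finset.card hset
      rw [List.toFinset_card_of_nodup hnd, hlen, Finset.card_image_of_injective _ hfinj] at hcard
      exact card_unl k n a hcard.symm
  -- computability of the matrix
  let V : ℕ → ℕ := fun x => (Denumerable.ofNat (ℕ × List ℕ) x).1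
  let Lx : ℕ → List ℕ := fun x => (Denumerable.ofNat (ℕ × List ℕ) x).2
  have hV : Computable V := Computable.fst.comp (Computable.ofNat _)
  have hLx : Computable Lx := Computable.snd.comp (Computable.ofNat _)
  refine ⟨fun q => (Lx q.1.2).Nodup ∧ (Lx q.1.2).length = 2 * k ∧
    D (eI q.1.1, [V q.1.2, V q.1.2]) ∧
    ((Nat.unpair q.2.1).1 ∈ Lx q.1.2 → (D (eI q.1.1, [V q.1.2, (Nat.unpair q.2.1).1]) ∧
      ¬ D (pI q.1.1 (Nat.unpair q.2.1).2, [(Nat.unpair q.2.1).1]))) ∧
    (D (eI q.1.1, [V q.1.2, (Nat.unpair q.2.1).1]) → (Nat.unpair q.2.1).1 ∈ Lx q.1.2 ∨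
      D (pI q.1.1 q.2.2, [(Nat.unpair q.2.1).1])), ?_, ?_⟩
  · have b1 : Computable (fun q : (ℕ × ℕ) × (ℕ × ℕ) => q.1.1) :=
      Computable.fst.comp Computable.fst
    have b2 : Computable (fun q : (ℕ × ℕ) × (ℕ × ℕ) => q.1.2) :=
      Computable.snd.comp Computable.fst
    have b3 : Computable (fun q : (ℕ × ℕ) × (ℕ × ℕ) => q.2.1) :=
      Computable.fst.comp Computable.snd
    have b4 : Computable (fun q : (ℕ × ℕ) × (ℕ × ℕ) => q.2.2) :=
      Computable.snd.comp Computable.snd
    have b5 := c_up1 b3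
    have b6 := c_up2 b3
    have b7 : Computable (fun q : (ℕ × ℕ) × (ℕ × ℕ) => V q.1.2) := hV.comp b2
    have b8 : Computable (fun q : (ℕ × ℕ) × (ℕ × ℕ) => Lx q.1.2) := hLx.comp b2
    have k1 : Computable (fun _ : (ℕ × ℕ) × (ℕ × ℕ) => (1 : ℕ)) := Computable.const 1
    have k2 : Computable (fun _ : (ℕ × ℕ) × (ℕ × ℕ) => (2 : ℕ)) := Computable.const 2
    have k3 : Computable (fun _ : (ℕ × ℕ) × (ℕ × ℕ) => (3 : ℕ)) := Computable.const 3
    have kk : Computable (fun _ : (ℕ × ℕ) × (ℕ × ℕ) => (k : ℕ)) := Computable.const k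
    have kM : Computable (fun _ : (ℕ × ℕ) × (ℕ × ℕ) => (M : ℕ)) := Computable.const M
    have d0 := c_pair kk b1
    have d1 := c_add (c_add (c_pair k2 d0) k1) kM
    have d1' : Computable (fun q : (ℕ × ℕ) × (ℕ × ℕ) => eI q.1.1) := d1
    have d2 := c_add (c_add (c_pair k3 (c_pair d0 b6)) k1) kM
    have d2' : Computable (fun q : (ℕ × ℕ) × (ℕ × ℕ) => pI q.1.1 (Nat.unpair q.2.1).2) := d2
    have d3 := c_add (c_add (c_pair k3 (c_pair d0 b4)) k1) kM
    have d3' : Computable (fun q : (ℕ × ℕ) × (ℕ × ℕ) => pI q.1.1 q.2.2) := d3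
    have nil : Computable (fun _ : (ℕ × ℕ) × (ℕ × ℕ) => ([] : List ℕ)) := Computable.const []
    have e1 : Computable (fun q : (ℕ × ℕ) × (ℕ × ℕ) => [(Nat.unpair q.2.1).1]) :=
      Computable.list_cons.comp b5 nil
    have e2 : Computable (fun q : (ℕ × ℕ) × (ℕ × ℕ) => [V q.1.2, (Nat.unpair q.2.1).1]) :=
      Computable.list_cons.comp b7 e1
    have e3 : Computable (fun q : (ℕ × ℕ) × (ℕ × ℕ) => [V q.1.2, V q.1.2]) :=
      Computable.list_cons.comp b7 (Computable.list_cons.comp b7 nil)
    have g1 := cp_comp cp_nodup b8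
    have g2 := cp_eq (Computable.list_length.comp b8) (Computable.const (2 * k))
    have g3 := cp_comp hD (Computable.pair d1' e3)
    have g4 := cp_mem b8 b5
    have g5 := cp_comp hD (Computable.pair d1' e2)
    have g6 := cp_comp hD (Computable.pair d2' e1)
    have g7 := cp_comp hD (Computable.pair d3' e1)
    have g8 := cp_and g1 (cp_and g2 (cp_and g3 (cp_and (cp_or (cp_not g4) (cp_and g5 (cp_not g6)))
      (cp_or (cp_not g5) (cp_or g4 g7)))))
    refine cp_of_iff g8 ?_
    intro q
    rw [imp_iff_not_or, imp_iff_not_or]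
  · intro n
    rw [key n]
    constructor
    · rintro ⟨v, l, h1, h2, h3, h4, h5⟩
      refine ⟨Encodable.encode ((v, l) : ℕ × List ℕ), ?_⟩
      have hVe : V (Encodable.encode ((v, l) : ℕ × List ℕ)) = v := by
        simp only [V, Denumerable.ofNat_encode]
      have hLe : Lx (Encodable.encode ((v, l) : ℕ × List ℕ)) = l := by
        simp only [Lx, Denumerable.ofNat_encode]
      intro y
      simp only [hVe, hLe]
      by_cases h6 : D (eI n, [v, (Nat.unpair y).1])
      · rcases h5 _ h6 with h7 | ⟨m, hm⟩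
        · exact ⟨0, h1, h2, h3, fun h => ⟨(h4 _ h).1, (h4 _ h).2 _⟩, fun _ => Or.inl h7⟩
        · exact ⟨m, h1, h2, h3, fun h => ⟨(h4 _ h).1, (h4 _ h).2 _⟩, fun _ => Or.inr hm⟩
      · exact ⟨0, h1, h2, h3, fun h => ⟨(h4 _ h).1, (h4 _ h).2 _⟩, fun h => absurd h h6⟩
    · rintro ⟨x, hx⟩
      obtain ⟨z0, h1, h2, h3, _, _⟩ := hx 0
      refine ⟨V x, Lx x, h1, h2, h3, ?_, ?_⟩
      · intro w hw
        refine ⟨?_, ?_⟩
        · obtain ⟨z, _, _, _, h4, _⟩ := hx (Nat.pair w 0)
          simp only [Nat.unpair_pair] at h4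
          exact (h4 hw).1
        · intro m
          obtain ⟨z, _, _, _, h4, _⟩ := hx (Nat.pair w m)
          simp only [Nat.unpair_pair] at h4
          exact (h4 hw).2
      · intro w hw
        obtain ⟨z, _, _, _, _, h5⟩ := hx (Nat.pair w 0)
        simp only [Nat.unpair_pair] at h5
        rcases h5 hw with h6 | h6
        · exact Or.inl h6
        · exact Or.inr ⟨z, h6⟩

/-! ### the saturated model -/

/-- the inputs used in the diagonalization -/
def inp (M e τ : ℕ) : ℕ :=
  Encodable.encode ((Nat.pair 4 (Nat.pair e τ) + 1 + M, Denumerable.ofNat (List ℕ) τ) :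
    ℕ × List ℕ)

theorem inp_comp (M : ℕ) : Computable (fun x : ℕ × ℕ => inp M x.1 x.2) := by
  have h1 := c_pair (Computable.fst (α := ℕ) (β := ℕ)) Computable.snd
  have h2 := c_add (c_add (c_pair (Computable.const (α := ℕ × ℕ) 4) h1)
    (Computable.const (α := ℕ × ℕ) 1)) (Computable.const (α := ℕ × ℕ) M)
  have h3 : Computable (fun x : ℕ × ℕ => Denumerable.ofNat (List ℕ) x.2) :=
    (Computable.ofNat (List ℕ)).comp Computable.snd
  have h4 := Computable.encode.comp (Computable.pair h2 h3)
  exact h4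

theorem not_constr_omega (p : Par) (M : ℕ)
    (hst : ∀ c : Code, (∀ τ, (Code.eval c (inp M (Encodable.encode c) τ)).Dom) →
      ∀ τ, (p.st (Encodable.encode c) τ ≠ none ↔
        0 ∈ Code.eval c (inp M (Encodable.encode c) τ))) :
    ¬ HasConstr (ar := arIter M bar)
      ((famIter M bar (base p)).Car (arIter M bar) (mark ⊤)) := by
  intro hcon
  obtain ⟨c0, D, hc, hD, hvis⟩ := vis_copy p (mark ⊤) M hcon
  obtain ⟨c, hcode⟩ := exists_code_pred hD
  let e := Encodable.encode c
  let l1 : List ℕ := (List.range (e + 1)).map (fun x => 2 * x + 1)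
  let l : List ℕ := l1.map (fun x => c0 (Sum.inl x))
  let τ := Encodable.encode l
  have hτ : Denumerable.ofNat (List ℕ) τ = l := Denumerable.ofNat_encode l
  have hdom : ∀ τ, (Code.eval c (inp M (Encodable.encode c) τ)).Dom := by
    intro τ'
    unfold inp
    rcases hcode (Nat.pair 4 (Nat.pair (Encodable.encode c) τ') + 1 + M,
      Denumerable.ofNat (List ℕ) τ') with ⟨_, h⟩ | ⟨_, h⟩
    · rw [h]; trivial
    · rw [h]; trivial
  have h1 := hst c hdom τ
  have h2 : D (Nat.pair 4 (Nat.pair e τ) + 1 + M, l) ↔ p.st e τ ≠ none := by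
    rw [hvis]
    constructor
    · rintro ⟨L, hL, _, hb⟩
      unfold bV at hb
      rw [Nat.unpair_pair] at hb
      simp only [Nat.unpair_pair] at hb
      obtain ⟨_, _, _, _, s, hs, _⟩ := hb
      rw [hs]; simp
    · intro h
      obtain ⟨s, hs⟩ := Option.ne_none_iff_exists'.1 h
      have hl1 : l1.length = e + 1 := by simp [l1]
      refine ⟨l1.map Sum.inl, ?_, ?_, ?_⟩
      · rw [List.map_map]; rfl
      · rw [List.length_map, hl1]
        simp [bar, Nat.unpair_pair]
      · unfold bV
        rw [Nat.unpair_pair]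
        simp only [Nat.unpair_pair]
        refine ⟨l1, rfl, hl1, ?_, s, hs, ?_⟩
        · exact List.Nodup.map (fun x y h => by simpa using h) List.nodup_range
        · intro t _ ht
          obtain ⟨x, _, hx⟩ := List.mem_map.1 ht
          rw [mark_top] at hx
          omega
  have h3 : D (Nat.pair 4 (Nat.pair e τ) + 1 + M, l) ↔ ¬ (0 ∈ Code.eval c (inp M e τ)) := by
    have h4 : inp M e τ = Encodable.encode ((Nat.pair 4 (Nat.pair e τ) + 1 + M, l) :
      ℕ × List ℕ) := by
      unfold inp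
      rw [hτ]
    rw [h4]
    rcases hcode (Nat.pair 4 (Nat.pair e τ) + 1 + M, l) with ⟨h5, h6⟩ | ⟨h5, h6⟩
    · rw [h6]; simp [h5]
    · rw [h6]; simp [h5]
  rw [h2, h1] at h3
  tauto

end Pool.Agent.H494_SCM
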