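import Pool.Agent.H494_SCM.LP
import Pool.Agent.H494_SCM.Marker

/-! Presentations and the two extension steps on presentations. -/

open Filter

namespace Pool.Agent.H494_SCM

/-- a presentation on `ℕ` with computable visible relations and hidden relation in a class -/
def Pres (ar : ℕ → ℕ) {B : Type} (s : ℕ → List B → Prop) (C : (List ℕ → Prop) → Prop) : Prop :=
  ∃ (e : B ≃ ℕ) (V : ℕ × List ℕ → Prop) (H : List ℕ → Prop), ComputablePred V ∧ C H ∧
    (∀ i L, List.length L = ar (i + 1) → (s (i + 1) L ↔ V (i, L.map e))) ∧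
    (∀ L, List.length L = ar 0 → (s 0 L ↔ H (L.map e)))

/-- first hotel -/
noncomputable def hA (r : ℕ → Prop) : ℕ → Option ℕ :=
  open Classical in fun q => match q with
  | 0 => if h : ∃ t, r t then some (Nat.find h) else none
  | q + 1 => if ∃ t < q + 1, r t then some (q + 1) else some q

theorem hA_none (r : ℕ → Prop) (q : ℕ) : hA r q = none ↔ q = 0 ∧ ∀ t, ¬ r t := by
  classical
  cases q with
  | zero =>
    unfold hA
    by_cases h : ∃ t, r t
    · simp only [h, dif_pos, reduceCtorEq, true_and, false_iff, not_forall, not_not]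
    · simp only [h, dif_neg, not_false_eq_true, true_and, true_iff]
      exact fun t ht => h ⟨t, ht⟩
  | succ q =>
    unfold hA
    simp only
    by_cases h : ∃ t < q + 1, r t
    · rw [if_pos h]; simp
    · rw [if_neg h]
      simp

theorem hA_some (r : ℕ → Prop) (q t' : ℕ) : hA r q = some t' ↔
    (q = 0 ∧ r t' ∧ ∀ t < t', ¬ r t) ∨ (q = t' + 1 ∧ ∀ t < t' + 1, ¬ r t) ∨
    (q = t' ∧ q ≠ 0 ∧ ∃ t < q, r t) := by
  classical
  cases q with
  | zero =>
    show (if h : ∃ t, r t then some (Nat.find h) else none) = some t' ↔ _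
    by_cases h : ∃ t, r t
    · rw [dif_pos h, Option.some.injEq, Nat.find_eq_iff]
      constructor
      · intro hh; exact Or.inl ⟨rfl, hh⟩
      · rintro (hh | hh | hh)
        · exact hh.2
        · exact absurd hh.1 (by omega)
        · exact absurd rfl hh.2.1
    · rw [dif_neg h]
      refine iff_of_false (by simp) ?_
      rintro (hh | hh | hh)
      · exact h ⟨_, hh.2.1⟩
      · exact absurd hh.1 (by omega)
      · exact absurd rfl hh.2.1
  | succ q =>
    unfold hA
    simp only
    by_cases h : ∃ t < q + 1, r t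
    · rw [if_pos h, Option.some.injEq]
      constructor
      · rintro rfl
        exact Or.inr (Or.inr ⟨rfl, by omega, h⟩)
      · rintro (hh | hh | hh)
        · exact absurd hh.1 (by omega)
        · exfalso
          obtain ⟨h1, h2⟩ := hh
          obtain ⟨t, ht, htr⟩ := h
          exact h2 t (by omega) htr
        · exact hh.1
    · rw [if_neg h, Option.some.injEq]
      constructor
      · rintro rfl
        refine Or.inr (Or.inl ⟨rfl, fun t ht hr => h ⟨t, ht, hr⟩⟩)
      · rintro (hh | hh | hh)
        · exact absurd hh.1 (by omega)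
        · omega
        · exact absurd hh.2.2 h

theorem hA_inj (r : ℕ → Prop) : Function.Injective (hA r) := by
  intro q q' h
  rcases hq : hA r q with _ | t
  · rw [hq] at h
    rw [((hA_none r q).1 hq).1, ((hA_none r q').1 h.symm).1]
  · rw [hq] at h
    have h1 := (hA_some r q t).1 hq
    have h2 := (hA_some r q' t).1 h.symm
    rcases h1 with ⟨a1, a2, a3⟩ | ⟨a1, a2⟩ | ⟨a1, a2, a3⟩ <;>
      rcases h2 with ⟨b1, b2, b3⟩ | ⟨b1, b2⟩ | ⟨b1, b2, b3⟩
    · omega
    · exact absurd a2 (b2 t (by omega))
    · obtain ⟨t', ht', hr⟩ := b3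
      exact absurd hr (a3 t' (by omega))
    · exact absurd b2 (a2 t (by omega))
    · omega
    · obtain ⟨t', ht', hr⟩ := b3
      exact absurd hr (a2 t' (by omega))
    · obtain ⟨t', ht', hr⟩ := a3
      exact absurd hr (b3 t' (by omega))
    · obtain ⟨t', ht', hr⟩ := a3
      exact absurd hr (b2 t' (by omega))
    · omega

theorem hA_surj (r : ℕ → Prop) (t : ℕ) : ∃ q, hA r q = some t := by
  by_cases h : ∃ t' < t + 1, r t'
  · obtain ⟨t', ht', hr⟩ := h
    by_cases h2 : ∃ t' < t, r t'
    · obtain ⟨t2, ht2, hr2⟩ := h2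
      exact ⟨t, (hA_some r t t).2 (Or.inr (Or.inr ⟨rfl, by omega, t2, ht2, hr2⟩))⟩
    · have h3 : t' = t := by
        by_contra hne
        exact h2 ⟨t', by omega, hr⟩
      subst h3
      exact ⟨0, (hA_some r 0 t').2 (Or.inl ⟨rfl, hr, fun t ht hr => h2 ⟨t, ht, hr⟩⟩)⟩
  · exact ⟨t + 1, (hA_some r _ t).2 (Or.inr (Or.inl ⟨rfl, fun t' ht' hr => h ⟨t', ht', hr⟩⟩))⟩

/-- second hotel -/
noncomputable def hB (r : ℕ → Prop) : ℕ → Option ℕ :=
  open Classical in fun q =>
  if ∃ t < q, r t then some (q - 1) else if r q then none else some q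

theorem hB_none (r : ℕ → Prop) (q : ℕ) : hB r q = none ↔ (¬ ∃ t < q, r t) ∧ r q := by
  classical
  unfold hB
  by_cases h : ∃ t < q, r t
  · simp [h]
  · rw [if_neg h]
    by_cases h2 : r q
    · simp only [h2, if_true, and_true, true_iff]
      exact h
    · simp [h2]

theorem hB_some (r : ℕ → Prop) (q t' : ℕ) : hB r q = some t' ↔
    ((∃ t < q, r t) ∧ q = t' + 1) ∨ ((¬ ∃ t < q, r t) ∧ ¬ r q ∧ q = t') := by
  classical
  unfold hB
  by_cases h : ∃ t < q, r t
  · have hq : q ≠ 0 := by
      rintro rfl
      obtain ⟨t, ht, _⟩ := h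
      omega
    rw [if_pos h, Option.some.injEq]
    constructor
    · intro h1; exact Or.inl ⟨h, by omega⟩
    · rintro (h1 | h1)
      · omega
      · exact absurd h h1.1
  · rw [if_neg h]
    by_cases h2 : r q
    · rw [if_pos h2]
      constructor
      · intro h1; exact absurd h1 (by simp)
      · rintro (h1 | h1)
        · exact absurd h1.1 h
        · exact absurd h2 h1.2.1
    · rw [if_neg h2, Option.some.injEq]
      constructor
      · intro h1; exact Or.inr ⟨h, h2, h1⟩
      · rintro (h1 | h1)
        · exact absurd h1.1 h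
        · exact h1.2.2

theorem hB_inj (r : ℕ → Prop) : Function.Injective (hB r) := by
  intro q q' h
  rcases hq : hB r q with _ | t
  · rw [hq] at h
    have h1 := (hB_none r q).1 hq
    have h2 := (hB_none r q').1 h.symm
    by_contra hne
    rcases Nat.lt_or_gt_of_ne hne with h3 | h3
    · exact h2.1 ⟨q, h3, h1.2⟩
    · exact h1.1 ⟨q', h3, h2.2⟩
  · rw [hq] at h
    have h1 := (hB_some r q t).1 hq
    have h2 := (hB_some r q' t).1 h.symm
    rcases h1 with ⟨⟨t1, ht1, hr1⟩, a2⟩ | ⟨a1, a2, a3⟩ <;>
      rcases h2 with ⟨⟨t2, ht2, hr2⟩, b2⟩ | ⟨b1, b2, b3⟩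
    · omega
    · exfalso
      rcases Nat.lt_or_ge t1 q' with h3 | h3
      · exact b1 ⟨t1, h3, hr1⟩
      · have : t1 = q' := by omega
        exact b2 (this ▸ hr1)
    · exfalso
      rcases Nat.lt_or_ge t2 q with h3 | h3
      · exact a1 ⟨t2, h3, hr2⟩
      · have : t2 = q := by omega
        exact a2 (this ▸ hr2)
    · omega

theorem hB_surj (r : ℕ → Prop) (t : ℕ) : ∃ q, hB r q = some t := by
  by_cases h : ∃ t' < t + 1, r t'
  · exact ⟨t + 1, (hB_some r _ t).2 (Or.inl ⟨h, rfl⟩)⟩
  · refine ⟨t, (hB_some r _ t).2 (Or.inr ⟨?_, ?_, rfl⟩)⟩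
    · rintro ⟨t', ht', hr⟩
      exact h ⟨t', by omega, hr⟩
    · intro hr; exact h ⟨t, by omega, hr⟩

/-- constant tuples -/
def isC (n : ℕ) (y : List ℕ) : Prop := y = List.replicate n y.headI

theorem isC_replicate {n : ℕ} (hn : 1 ≤ n) (c : ℕ) : isC n (List.replicate n c) := by
  unfold isC
  obtain ⟨m, rfl⟩ : ∃ m, n = m + 1 := ⟨n - 1, by omega⟩
  rw [List.replicate_succ, List.headI_cons, List.replicate_succ]

theorem headI_replicate {n : ℕ} (hn : 1 ≤ n) (c : ℕ) : (List.replicate n c).headI = c := by
  obtain ⟨m, rfl⟩ : ∃ m, n = m + 1 := ⟨n - 1, by omega⟩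
  rw [List.replicate_succ, List.headI_cons]

theorem cp_isC (n : ℕ) : ComputablePred (isC n) := by
  refine cp_eq Computable.id ?_
  have h : Computable (fun y : List ℕ => List.map (fun _ => y.headI) (List.range n)) := by
    refine (Primrec.list_map (Primrec.const (List.range n)) ?_).to_comp
    exact (Primrec.list_headI.comp Primrec.fst)
  exact h.of_eq (fun y => by simp)

section glue

variable {J : Type} (code : J × ℕ ≃ ℕ) (n : ℕ) (τ : J → ℕ → Option ℕ)
  (g : J → List ℕ)

/-- the tuple named by a new element -/
def tup (z : ℕ) : List ℕ :=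
  match τ (code.symm z).1 (code.symm z).2 with
  | some t => List.replicate n (code ((code.symm z).1, t))
  | none => g (code.symm z).1

variable {code n τ g}

theorem tup_some {z t : ℕ} (h : τ (code.symm z).1 (code.symm z).2 = some t) :
    tup code n τ g z = List.replicate n (code ((code.symm z).1, t)) := by
  unfold tup; rw [h]

theorem tup_none {z : ℕ} (h : τ (code.symm z).1 (code.symm z).2 = none) :
    tup code n τ g z = g (code.symm z).1 := by
  unfold tup; rw [h]

theorem tup_eq_iff (hn : 1 ≤ n) (z : ℕ) (y : List ℕ) : tup code n τ g z = y ↔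
    (isC n y ∧ (code.symm y.headI).1 = (code.symm z).1 ∧
      τ (code.symm z).1 (code.symm z).2 = some (code.symm y.headI).2) ∨
    (τ (code.symm z).1 (code.symm z).2 = none ∧ g (code.symm z).1 = y) := by
  rcases hz : τ (code.symm z).1 (code.symm z).2 with _ | t
  · rw [tup_none hz]
    simp
  · rw [tup_some hz]
    constructor
    · rintro rfl
      left
      refine ⟨isC_replicate hn _, ?_, ?_⟩
      · rw [headI_replicate hn]; simp
      · rw [headI_replicate hn]; simp
    · rintro (⟨h1, h2, h3⟩ | ⟨h1, _⟩)
      · rw [h1]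
        congr 1
        rw [← Equiv.eq_symm_apply]
        rw [Option.some.injEq] at h3
        rw [h3, ← h2]
      · exact absurd h1 (by simp)

theorem tup_spec (hn : 1 ≤ n) (hinj : ∀ i, Function.Injective (τ i))
    (hsurj : ∀ i t, ∃ q, τ i q = some t) (P : List ℕ → Prop)
    (hPc : ∀ c, P (List.replicate n c))
    (hA1 : ∀ i q, τ i q = none → P (g i) ∧ ¬ isC n (g i))
    (hA2 : ∀ i i' q q', τ i q = none → τ i' q' = none → g i = g i' → i = i')
    (hA3 : ∀ y, P y → ¬ isC n y → ∃ i q, τ i q = none ∧ g i = y) :
    (∀ z, P (tup code n τ g z)) ∧ Function.Injective (tup code n τ g) ∧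
      ∀ y, P y → (∀ c, y.headI = c → isC n y → y = List.replicate n c) →
        ∃ z, tup code n τ g z = y := by
  refine ⟨?_, ?_, ?_⟩
  · intro z
    rcases hz : τ (code.symm z).1 (code.symm z).2 with _ | t
    · rw [tup_none hz]
      exact (hA1 _ _ hz).1
    · rw [tup_some hz]
      exact hPc _
  · intro z z' h
    apply code.symm.injective
    rcases hz : τ (code.symm z).1 (code.symm z).2 with _ | t
    · rcases hz' : τ (code.symm z').1 (code.symm z').2 with _ | t'
      · rw [tup_none hz, tup_none hz'] at h
        have h1 := hA2 _ _ _ _ hz hz' h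
        have h2 : (code.symm z).2 = (code.symm z').2 := by
          apply hinj (code.symm z).1
          rw [hz, h1, hz']
        exact Prod.ext h1 h2
      · rw [tup_none hz, tup_some hz'] at h
        exfalso
        apply (hA1 _ _ hz).2
        rw [h]
        exact isC_replicate hn _
    · rcases hz' : τ (code.symm z').1 (code.symm z').2 with _ | t'
      · rw [tup_some hz, tup_none hz'] at h
        exfalso
        apply (hA1 _ _ hz').2
        rw [← h]
        exact isC_replicate hn _
      · rw [tup_some hz, tup_some hz'] at h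
        have h1 := congrArg List.headI h
        rw [headI_replicate hn, headI_replicate hn] at h1
        have h2 := code.injective h1
        simp only [Prod.mk.injEq] at h2
        have h3 : (code.symm z).2 = (code.symm z').2 := by
          apply hinj (code.symm z).1
          rw [hz, h2.1, hz', h2.2]
        exact Prod.ext h2.1 h3
  · intro y hy _
    by_cases hc : isC n y
    · obtain ⟨q, hq⟩ := hsurj (code.symm y.headI).1 (code.symm y.headI).2
      refine ⟨code ((code.symm y.headI).1, q), ?_⟩
      rw [tup_eq_iff hn]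
      left
      refine ⟨hc, ?_, ?_⟩
      · simp
      · simpa using hq
    · obtain ⟨i, q, h1, h2⟩ := hA3 y hy hc
      refine ⟨code (i, q), ?_⟩
      rw [tup_eq_iff hn]
      right
      simpa using ⟨h1, h2⟩

end glue

/-- gluing a presentation of the extension -/
theorem pres_glue {ar : ℕ → ℕ} {B : Type} {s : ℕ → List B → Prop} (e : B ≃ ℕ)
    (V : ℕ × List ℕ → Prop) (hV : ComputablePred V)
    (hVs : ∀ i L, List.length L = ar (i + 1) → (s (i + 1) L ↔ V (i, L.map e)))
    (T : ℕ → List ℕ) (hT1 : ∀ z, (T z).length = ar 0) (hT2 : Function.Injective T)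
    (hT3 : ∀ L : List B, L.length = ar 0 → (¬ s 0 L ↔ ∃ z, T z = L.map e))
    (C : (List ℕ → Prop) → Prop)
    (hC : ∀ (S : List ℕ → Prop) (f : List ℕ → ℕ × List ℕ), ComputablePred S → Computable f →
      C (fun l => S l ∧ T (f l).1 = (f l).2)) :
    Pres (arMk ar) (mkStr (ar 0) s) C := by
  classical
  let W := {L : List B // L.length = ar 0 ∧ ¬ s 0 L}
  have hmapsymm : ∀ l : List ℕ, (l.map e.symm).map e = l := by
    intro l; rw [List.map_map]; simp
  -- the equivalence between new elements and numbers
  have hw : ∀ w : W, ∃ z, T z = w.1.map e := fun w => (hT3 w.1 w.2.1).1 w.2.2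
  choose c hc using hw
  have hcbij : Function.Bijective c := by
    constructor
    · intro w w' h
      have h1 := hc w
      rw [h, hc w'] at h1
      exact Subtype.ext (List.map_injective_iff.2 e.injective h1.symm)
    · intro z
      have h1 : ((T z).map e.symm).length = ar 0 := by rw [List.length_map]; exact hT1 z
      have h2 : ¬ s 0 ((T z).map e.symm) := (hT3 _ h1).2 ⟨z, (hmapsymm _).symm⟩
      refine ⟨⟨(T z).map e.symm, h1, h2⟩, ?_⟩
      apply hT2
      rw [hc, hmapsymm]
  let ec : W ≃ ℕ := Equiv.ofBijective c hcbij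
  let e' : B ⊕ W ≃ ℕ := (Equiv.sumCongr e ec).trans Equiv.natSumNatEquivNat
  have he1 : ∀ b, e' (Sum.inl b) = 2 * e b := fun b => by
    simp [e', Equiv.natSumNatEquivNat_apply]
  have he2 : ∀ w, e' (Sum.inr w) = 2 * c w + 1 := fun w => by
    simp [e', Equiv.natSumNatEquivNat_apply, ec]
  have hml : ∀ L : List B, (L.map (Sum.inl : B → B ⊕ W)).map e' = (L.map e).map (2 * ·) := by
    intro L
    rw [List.map_map, List.map_map]
    apply List.map_congr_left
    intro a _
    exact he1 a
  -- computability helpers
  have k1 : Computable (fun l : List ℕ => l.map (· / 2)) := by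
    refine (Primrec.list_map Primrec.id ?_).to_comp
    exact (Primrec.nat_div.comp Primrec.snd (Primrec.const 2))
  have k2 : Computable (fun l : List ℕ => l.map (2 * ·)) := by
    refine (Primrec.list_map Primrec.id ?_).to_comp
    exact (Primrec.nat_mul.comp (Primrec.const 2) Primrec.snd)
  have k3 : Computable (fun l : List ℕ => l.headI / 2) :=
    (Primrec.nat_div.comp Primrec.list_headI (Primrec.const 2)).to_comp
  have k4 : Computable (fun l : List ℕ => l.tail) := Primrec.list_tail.to_comp
  have k5 : Computable (fun l : List ℕ => (2 * (l.headI / 2) + 1) ::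
      (l.tail.map (· / 2)).map (2 * ·)) := by
    refine Computable.list_cons.comp ?_ (k2.comp (k1.comp k4))
    exact (Primrec.nat_add.comp (Primrec.nat_mul.comp (Primrec.const 2)
      (Primrec.nat_div.comp Primrec.list_headI (Primrec.const 2))) (Primrec.const 1)).to_comp
  have k6 : Computable (fun l : List ℕ => [2 * (l.headI / 2)]) := by
    refine Computable.list_cons.comp ?_ (Computable.const [])
    exact (Primrec.nat_mul.comp (Primrec.const 2)
      (Primrec.nat_div.comp Primrec.list_headI (Primrec.const 2))).to_comp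
  have hdiv : ∀ L : List ℕ, (L.map (2 * ·)).map (· / 2) = L := by
    intro L
    rw [List.map_map]
    conv_rhs => rw [← List.map_id L]
    apply List.map_congr_left
    intro a _
    show 2 * a / 2 = a
    omega
  have heven : ∀ L' : List (B ⊕ W), (L'.map e' = ((L'.map e').map (· / 2)).map (2 * ·)) →
      ∃ L : List B, L' = L.map Sum.inl := by
    intro L'
    induction L' with
    | nil => intro _; exact ⟨[], rfl⟩
    | cons x L' ih =>
      intro h
      simp only [List.map_cons, List.cons.injEq] at h
      obtain ⟨L, rfl⟩ := ih h.2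
      rcases x with b | w
      · exact ⟨b :: L, rfl⟩
      · exfalso
        rw [he2] at h
        omega
  refine ⟨e', fun x => (x.1 = 0 ∧ x.2 = [2 * (x.2.headI / 2)]) ∨
      (x.1 ≠ 0 ∧ x.2 = (x.2.map (· / 2)).map (2 * ·) ∧ V (x.1 - 1, x.2.map (· / 2))),
    fun l => (l = (2 * (l.headI / 2) + 1) :: (l.tail.map (· / 2)).map (2 * ·)) ∧
      T (l.headI / 2) = l.tail.map (· / 2), ?_, ?_, ?_, ?_⟩
  · -- computability of the visible part
    refine cp_or (cp_and (cp_eq Computable.fst (Computable.const 0))
      (cp_eq Computable.snd (k6.comp Computable.snd))) ?_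
    refine cp_and (cp_not (cp_eq Computable.fst (Computable.const 0))) (cp_and
      (cp_eq Computable.snd (k2.comp (k1.comp Computable.snd))) ?_)
    refine cp_comp hV (f := fun x : ℕ × List ℕ => (x.1 - 1, x.2.map (· / 2))) ?_
    exact Computable.pair ((Primrec.nat_sub.comp Primrec.fst (Primrec.const 1)).to_comp)
      (k1.comp Computable.snd)
  · exact hC _ (fun l => (l.headI / 2, l.tail.map (· / 2)))
      (cp_eq Computable.id k5) (Computable.pair k3 (k1.comp k4))
  · intro i L' hL'
    cases i with
    | zero =>
      simp only [ne_eq, not_true_eq_false, false_and, or_false, true_and]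
      constructor
      · rintro ⟨b, rfl⟩
        rw [List.map_cons, List.map_nil, he1, List.headI_cons]
        congr 1
        omega
      · intro h
        match L', hL' with
        | [x], _ =>
          rcases x with b | w
          · exact ⟨b, rfl⟩
          · exfalso
            rw [List.map_cons, List.map_nil, he2, List.headI_cons] at h
            have := (List.cons.inj h).1
            omega
    | succ i =>
      have hne : ((i + 1 = 0) ↔ False) := by simp
      simp only [hne, false_and, false_or, ne_eq, not_false_eq_true, true_and,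
        Nat.add_sub_cancel]
      constructor
      · rintro ⟨L, rfl, h⟩
        rw [hml, hdiv]
        refine ⟨rfl, ?_⟩
        exact (hVs i L (by rw [List.length_map] at hL'; exact hL')).1 h
      · rintro ⟨h1, h2⟩
        obtain ⟨L, rfl⟩ := heven L' h1
        rw [hml, hdiv] at h2
        exact ⟨L, rfl, (hVs i L (by rw [List.length_map] at hL'; exact hL')).2 h2⟩
  · intro L' hL'
    constructor
    · rintro ⟨w, rfl⟩
      rw [List.map_cons, he2, hml, List.headI_cons, List.tail_cons, hdiv]
      have h1 : (2 * c w + 1) / 2 = c w := by omega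
      rw [h1]
      exact ⟨rfl, hc w⟩
    · rintro ⟨h1, h2⟩
      cases L' with
      | nil => simp at h1
      | cons x L' =>
        rw [List.map_cons, List.headI_cons, List.tail_cons] at h1 h2
        have h3 := List.cons.inj h1
        obtain ⟨L, rfl⟩ := heven L' h3.2
        rcases x with b | w
        · exfalso
          have h4 := h3.1
          rw [he1] at h4
          omega
        · rw [he2, hml, hdiv] at h2
          have h5 : (2 * c w + 1) / 2 = c w := by omega
          rw [h5, hc w] at h2
          have h6 := List.map_injective_iff.2 e.injective h2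
          exact ⟨w, by rw [h6]⟩

end Pool.Agent.H494_SCM
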