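import Pool.Agent.H494_SCM.Steps

/-! The two extension steps on presentations. -/

open Filter

namespace Pool.Agent.H494_SCM

theorem map_replicate_symm {B : Type} (e : B ≃ ℕ) (n c : ℕ) :
    (List.replicate n (e.symm c)).map e = List.replicate n c := by
  rw [List.map_replicate, Equiv.apply_symm_apply]

theorem stepA {ar : ℕ → ℕ} (har : 1 ≤ ar 0) {B : Type} {s : ℕ → List B → Prop}
    (hconst : ∀ b : B, ¬ s 0 (List.replicate (ar 0) b)) {m : ℕ}
    (h : Pres ar s (fun H => LP (m + 1) H)) :
    Pres (arMk ar) (mkStr (ar 0) s) (fun H => CoLP m H) := by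
  classical
  obtain ⟨e, V, H, hV, ⟨q, hq, hlim⟩, hVs, hHs⟩ := h
  let n := ar 0
  let code : (List ℕ × ℕ) × ℕ ≃ ℕ := Denumerable.eqv _
  have hcs : Computable code.symm := Computable.ofNat _
  let ref : (List ℕ × ℕ) × ℕ → Prop := fun x => (x.1.1.length ≠ n ∨ isC n x.1.1) ∨
    (x.1.2 ≠ 0 ∧ ¬ q (x.1.1, x.1.2 - 1)) ∨ (x.1.2 ≤ x.2 ∧ q (x.1.1, x.2))
  have c1 : Computable (fun x : (List ℕ × ℕ) × ℕ => x.1.1) :=
    Computable.fst.comp Computable.fst
  have c2 : Computable (fun x : (List ℕ × ℕ) × ℕ => x.1.2) :=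
    Computable.snd.comp Computable.fst
  have href : LP m ref := by
    refine LP.or (LP.of_cp (cp_or (cp_not (cp_eq (Computable.list_length.comp c1)
      (Computable.const n))) (cp_comp (cp_isC n) c1))) (LP.or ?_ ?_)
    · refine LP.and (LP.of_cp (cp_not (cp_eq c2 (Computable.const 0)))) (LP.not ?_)
      exact hq.comp (Computable.pair c1 (Computable.pred.comp c2))
    · refine LP.and (LP.of_cp (cp_le c2 Computable.snd)) ?_
      exact hq.comp (Computable.pair c1 Computable.snd)
  let τ : List ℕ × ℕ → ℕ → Option ℕ := fun i => hA (fun t => ref (i, t))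
  let g : List ℕ × ℕ → List ℕ := fun i => i.1
  let P : List ℕ → Prop := fun y => y.length = n ∧ ¬ H y
  have hPc : ∀ c, P (List.replicate n c) := by
    intro c
    refine ⟨List.length_replicate, ?_⟩
    have h1 := hHs (List.replicate n (e.symm c)) List.length_replicate
    rw [map_replicate_symm] at h1
    rw [← h1]
    exact hconst _
  have hunref : ∀ i : List ℕ × ℕ, (∀ t, ¬ ref (i, t)) → (i.1.length = n ∧ ¬ isC n i.1) ∧
      (i.2 = 0 ∨ q (i.1, i.2 - 1)) ∧ ∀ t, i.2 ≤ t → ¬ q (i.1, t) := by
    intro i hi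
    refine ⟨?_, ?_, ?_⟩
    · have := hi 0
      simp only [ref, not_or, not_not] at this
      exact this.1
    · have := hi 0
      simp only [ref, not_or, not_and, not_not] at this
      by_cases h0 : i.2 = 0
      · exact Or.inl h0
      · exact Or.inr (this.2.1 h0)
    · intro t ht
      have := hi t
      simp only [ref, not_or, not_and, not_not] at this
      exact this.2.2 ht
  have hA1 : ∀ i q, τ i q = none → P (g i) ∧ ¬ isC n (g i) := by
    intro i q' hi
    have h1 := ((hA_none _ _).1 hi).2
    obtain ⟨⟨h2, h3⟩, _, h5⟩ := hunref i h1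
    refine ⟨⟨h2, fun hH => ?_⟩, h3⟩
    have h6 := (hlim i.1).and (eventually_ge_atTop i.2)
    obtain ⟨t, ht1, ht2⟩ := h6.exists
    exact h5 t ht2 (ht1.2 hH)
  have hA2 : ∀ i i' q q', τ i q = none → τ i' q' = none → g i = g i' → i = i' := by
    intro i i' q1 q2 h1 h2 hg
    obtain ⟨_, a1, a2⟩ := hunref i ((hA_none _ _).1 h1).2
    obtain ⟨_, b1, b2⟩ := hunref i' ((hA_none _ _).1 h2).2
    have hg' : i.1 = i'.1 := hg
    refine Prod.ext hg' ?_
    rcases Nat.lt_trichotomy i.2 i'.2 with h3 | h3 | h3
    · exfalso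
      rcases b1 with b1 | b1
      · omega
      · rw [← hg'] at b1
        exact a2 (i'.2 - 1) (by omega) b1
    · exact h3
    · exfalso
      rcases a1 with a1 | a1
      · omega
      · rw [hg'] at a1
        exact b2 (i.2 - 1) (by omega) a1
  have hA3 : ∀ y, P y → ¬ isC n y → ∃ i q, τ i q = none ∧ g i = y := by
    intro y hy hc
    have h1 : ∃ s0, ∀ t, s0 ≤ t → ¬ q (y, t) := by
      obtain ⟨s0, hs0⟩ := eventually_atTop.1 (hlim y)
      exact ⟨s0, fun t ht hq' => hy.2 ((hs0 t ht).1 hq')⟩
    refine ⟨(y, Nat.find h1), 0, ?_, rfl⟩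
    refine (hA_none _ _).2 ⟨rfl, ?_⟩
    intro t
    simp only [ref, not_or, not_and, not_not]
    refine ⟨⟨hy.1, hc⟩, ?_, ?_⟩
    · intro hne
      by_contra hcon
      have h2 := Nat.find_min h1 (m := Nat.find h1 - 1) (by omega)
      apply h2
      intro t' ht'
      rcases Nat.lt_or_ge t' (Nat.find h1) with h3 | h3
      · have : t' = Nat.find h1 - 1 := by omega
        rw [this]; exact hcon
      · exact Nat.find_spec h1 t' h3
    · intro ht
      exact Nat.find_spec h1 t ht
  obtain ⟨hT1, hT2, hT3⟩ := tup_spec (code := code) har (fun i => hA_inj _)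
    (fun i t => hA_surj _ t) P hPc hA1 hA2 hA3
  refine pres_glue e V hV hVs (tup code n τ g) (fun z => (hT1 z).1) hT2 ?_ _ ?_
  · intro L hL
    constructor
    · intro hs
      refine hT3 _ ⟨by rw [List.length_map]; exact hL, fun hH => hs ((hHs L hL).2 hH)⟩ ?_
      intro c hc hi
      rw [← hc]; exact hi
    · rintro ⟨z, hz⟩ hs
      have := (hT1 z).2
      rw [hz] at this
      exact this ((hHs L hL).1 hs)
  · intro S f hS hf
    -- the naming relation
    let A : ℕ × List ℕ → Prop := fun p => isC n p.2 ∧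
      (code.symm p.2.headI).1 = (code.symm p.1).1 ∧
      (((code.symm p.1).2 = 0 ∧ ref ((code.symm p.1).1, (code.symm p.2.headI).2) ∧
          ∀ t < (code.symm p.2.headI).2, ¬ ref ((code.symm p.1).1, t)) ∨
        ((code.symm p.1).2 = (code.symm p.2.headI).2 + 1 ∧
          ∀ t < (code.symm p.2.headI).2 + 1, ¬ ref ((code.symm p.1).1, t)) ∨
        ((code.symm p.1).2 = (code.symm p.2.headI).2 ∧ (code.symm p.1).2 ≠ 0 ∧
          ∃ t < (code.symm p.1).2, ref ((code.symm p.1).1, t)))
    have d1 : Computable (fun p : ℕ × List ℕ => (code.symm p.1).1) :=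
      Computable.fst.comp (hcs.comp Computable.fst)
    have d2 : Computable (fun p : ℕ × List ℕ => (code.symm p.1).2) :=
      Computable.snd.comp (hcs.comp Computable.fst)
    have d3 : Computable (fun p : ℕ × List ℕ => (code.symm p.2.headI).1) :=
      Computable.fst.comp (hcs.comp (Primrec.list_headI.to_comp.comp Computable.snd))
    have d4 : Computable (fun p : ℕ × List ℕ => (code.symm p.2.headI).2) :=
      Computable.snd.comp (hcs.comp (Primrec.list_headI.to_comp.comp Computable.snd))
    have hA' : LP m A := by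
      refine LP.and (LP.of_cp (cp_comp (cp_isC n) Computable.snd)) (LP.and
        (LP.of_cp (cp_eq d3 d1)) (LP.or ?_ (LP.or ?_ ?_)))
      · refine LP.and (LP.of_cp (cp_eq d2 (Computable.const 0))) (LP.and ?_ ?_)
        · exact href.comp (Computable.pair d1 d4)
        · exact (href.not.ball).comp (Computable.pair d1 d4)
      · refine LP.and (LP.of_cp (cp_eq d2 (Computable.succ.comp d4))) ?_
        exact (href.not.ball).comp (Computable.pair d1 (Computable.succ.comp d4))
      · refine LP.and (LP.of_cp (cp_eq d2 d4)) (LP.and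
          (LP.of_cp (cp_not (cp_eq d2 (Computable.const 0)))) ?_)
        exact (href.bex).comp (Computable.pair d1 d2)
    let Q : (ℕ × List ℕ) × ℕ → Prop := fun x => A x.1 ∨ ((code.symm x.1.1).2 = 0 ∧
      (code.symm x.1.1).1.1 = x.1.2 ∧ ¬ ref ((code.symm x.1.1).1, x.2))
    have hQ : LP m Q := by
      refine LP.or (hA'.comp Computable.fst) (LP.and ?_ (LP.and ?_ ?_))
      · exact LP.of_cp (cp_eq (d2.comp Computable.fst) (Computable.const 0))
      · exact LP.of_cp (cp_eq (Computable.fst.comp (d1.comp Computable.fst))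
          (Computable.snd.comp Computable.fst))
      · exact href.not.comp (Computable.pair (d1.comp Computable.fst) Computable.snd)
    have key : ∀ p : ℕ × List ℕ, tup code n τ g p.1 = p.2 ↔ ∀ t, Q (p, t) := by
      intro p
      rw [tup_eq_iff har, hA_some, hA_none]
      constructor
      · rintro (hp | ⟨⟨h1, h2⟩, h3⟩) t
        · exact Or.inl hp
        · exact Or.inr ⟨h1, h3, h2 t⟩
      · intro hp
        by_cases hAp : A p
        · exact Or.inl hAp
        · right
          have h1 : ∀ t, ((code.symm p.1).2 = 0 ∧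
            (code.symm p.1).1.1 = p.2 ∧ ¬ ref ((code.symm p.1).1, t)) := by
            intro t
            rcases hp t with h | h
            · exact absurd h hAp
            · exact h
          exact ⟨⟨(h1 0).1, fun t => (h1 t).2.2⟩, (h1 0).2.1⟩
    refine ⟨fun x => S x.1 ∧ Q (f x.1, x.2), ?_, ?_⟩
    · refine LP.and (LP.of_cp (cp_comp hS Computable.fst)) ?_
      exact hQ.comp (Computable.pair (hf.comp Computable.fst) Computable.snd)
    · intro l
      show (S l ∧ tup code n τ g (f l).1 = (f l).2) ↔ ∀ t, (S l ∧ Q (f l, t))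
      rw [key (f l)]
      constructor
      · rintro ⟨h1, h2⟩ t
        exact ⟨h1, h2 t⟩
      · intro h1
        exact ⟨(h1 0).1, fun t => (h1 t).2⟩

theorem stepB {ar : ℕ → ℕ} (har : 1 ≤ ar 0) {B : Type} {s : ℕ → List B → Prop}
    (hconst : ∀ b : B, ¬ s 0 (List.replicate (ar 0) b)) {m : ℕ}
    (h : Pres ar s (fun H => CoLP m H)) :
    Pres (arMk ar) (mkStr (ar 0) s) (fun H => LP m H) := by
  classical
  obtain ⟨e, V, H, hV, ⟨q, hq, hlim⟩, hVs, hHs⟩ := h
  let n := ar 0
  let code : (List ℕ) × ℕ ≃ ℕ := Denumerable.eqv _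
  have hcs : Computable code.symm := Computable.ofNat _
  let conf : (List ℕ) × ℕ → Prop := fun x => x.1.length = n ∧ ¬ isC n x.1 ∧ ¬ q x
  have hconf : LP m conf := by
    refine LP.and (LP.of_cp (cp_eq (Computable.list_length.comp Computable.fst)
      (Computable.const n))) (LP.and (LP.of_cp (cp_not (cp_comp (cp_isC n) Computable.fst)))
      hq.not)
  let τ : List ℕ → ℕ → Option ℕ := fun i => hB (fun t => conf (i, t))
  let g : List ℕ → List ℕ := fun i => i
  let P : List ℕ → Prop := fun y => y.length = n ∧ ¬ H y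
  have hPc : ∀ c, P (List.replicate n c) := by
    intro c
    refine ⟨List.length_replicate, ?_⟩
    have h1 := hHs (List.replicate n (e.symm c)) List.length_replicate
    rw [map_replicate_symm] at h1
    rw [← h1]
    exact hconst _
  have hA1 : ∀ i q, τ i q = none → P (g i) ∧ ¬ isC n (g i) := by
    intro i q' hi
    have h1 := ((hB_none _ _).1 hi).2
    refine ⟨⟨h1.1, fun hH => h1.2.2 ((hlim i).1 hH q')⟩, h1.2.1⟩
  have hA2 : ∀ i i' q q', τ i q = none → τ i' q' = none → g i = g i' → i = i' := by
    intro i i' _ _ _ _ hg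
    exact hg
  have hA3 : ∀ y, P y → ¬ isC n y → ∃ i q, τ i q = none ∧ g i = y := by
    intro y hy hc
    have h1 : ∃ t, conf (y, t) := by
      by_contra hcon
      apply hy.2
      rw [hlim]
      intro t
      by_contra hq'
      exact hcon ⟨t, hy.1, hc, hq'⟩
    refine ⟨y, Nat.find h1, ?_, rfl⟩
    refine (hB_none _ _).2 ⟨?_, Nat.find_spec h1⟩
    rintro ⟨t, ht, hr⟩
    exact Nat.find_min h1 ht hr
  obtain ⟨hT1, hT2, hT3⟩ := tup_spec (code := code) har (fun i => hB_inj _)
    (fun i t => hB_surj _ t) P hPc hA1 hA2 hA3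
  refine pres_glue e V hV hVs (tup code n τ g) (fun z => (hT1 z).1) hT2 ?_ _ ?_
  · intro L hL
    constructor
    · intro hs
      refine hT3 _ ⟨by rw [List.length_map]; exact hL, fun hH => hs ((hHs L hL).2 hH)⟩ ?_
      intro c hc hi
      rw [← hc]; exact hi
    · rintro ⟨z, hz⟩ hs
      have := (hT1 z).2
      rw [hz] at this
      exact this ((hHs L hL).1 hs)
  · intro S f hS hf
    have d1 : Computable (fun p : ℕ × List ℕ => (code.symm p.1).1) :=
      Computable.fst.comp (hcs.comp Computable.fst)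
    have d2 : Computable (fun p : ℕ × List ℕ => (code.symm p.1).2) :=
      Computable.snd.comp (hcs.comp Computable.fst)
    have d3 : Computable (fun p : ℕ × List ℕ => (code.symm p.2.headI).1) :=
      Computable.fst.comp (hcs.comp (Primrec.list_headI.to_comp.comp Computable.snd))
    have d4 : Computable (fun p : ℕ × List ℕ => (code.symm p.2.headI).2) :=
      Computable.snd.comp (hcs.comp (Primrec.list_headI.to_comp.comp Computable.snd))
    have hbex : LP m (fun p : ℕ × List ℕ => ∃ t < (code.symm p.1).2,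
        conf ((code.symm p.1).1, t)) :=
      (hconf.bex).comp (Computable.pair d1 d2)
    have hat : LP m (fun p : ℕ × List ℕ => conf ((code.symm p.1).1, (code.symm p.1).2)) :=
      hconf.comp (Computable.pair d1 d2)
    have hN : LP m (fun p : ℕ × List ℕ => tup code n τ g p.1 = p.2) := by
      have h1 : LP m (fun p : ℕ × List ℕ => (isC n p.2 ∧
          (code.symm p.2.headI).1 = (code.symm p.1).1 ∧
          (((∃ t < (code.symm p.1).2, conf ((code.symm p.1).1, t)) ∧
              (code.symm p.1).2 = (code.symm p.2.headI).2 + 1) ∨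
            ((¬ ∃ t < (code.symm p.1).2, conf ((code.symm p.1).1, t)) ∧
              ¬ conf ((code.symm p.1).1, (code.symm p.1).2) ∧
                (code.symm p.1).2 = (code.symm p.2.headI).2))) ∨
          (((¬ ∃ t < (code.symm p.1).2, conf ((code.symm p.1).1, t)) ∧
            conf ((code.symm p.1).1, (code.symm p.1).2)) ∧ (code.symm p.1).1 = p.2)) := by
        refine LP.or (LP.and (LP.of_cp (cp_comp (cp_isC n) Computable.snd)) (LP.and
          (LP.of_cp (cp_eq d3 d1)) (LP.or ?_ ?_))) ?_
        · exact LP.and hbex (LP.of_cp (cp_eq d2 (Computable.succ.comp d4)))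
        · exact LP.and hbex.not (LP.and hat.not (LP.of_cp (cp_eq d2 d4)))
        · exact LP.and (LP.and hbex.not hat) (LP.of_cp (cp_eq d1 Computable.snd))
      refine h1.of_iff (fun p => ?_)
      rw [tup_eq_iff har, hB_some, hB_none]
    exact LP.and (LP.of_cp hS) (hN.comp hf)

end Pool.Agent.H494_SCM
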